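import Mathlib

/-!
The bicommutant of a unital star-closed algebra of matrices.
-/

namespace Run7.h417

section bicomm

variable {d : Type*} [Fintype d] [DecidableEq d]

/-- the algebraic half: a module projection onto `L` suffices -/
theorem bicomm_of_proj (L : Submodule ℂ (Matrix d d ℂ)) (h1 : (1 : Matrix d d ℂ) ∈ L)
    (E : Matrix d d ℂ →ₗ[ℂ] Matrix d d ℂ) (hE1 : ∀ Y, E Y ∈ L) (hE2 : ∀ Y ∈ L, E Y = Y)
    (hE3 : ∀ a ∈ L, ∀ Y, E (a * Y) = a * E Y) (X : Matrix d d ℂ)
    (hX : ∀ T : Matrix d d ℂ, (∀ a ∈ L, a * T = T * a) → X * T = T * X) : X ∈ L := by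
  let T : d → d → Matrix d d ℂ := fun l k => Matrix.of (fun i j => E (Matrix.single j k 1) i l)
  have hT : ∀ l k, ∀ a ∈ L, a * T l k = T l k * a := by
    intro l k a ha
    ext i j'
    have e1 : a * Matrix.single j' k (1:ℂ) = ∑ j, a j j' • Matrix.single j k (1:ℂ) := by
      ext r s
      rw [Matrix.sum_apply, Matrix.mul_apply]
      by_cases h : k = s
      · subst h; simp [Matrix.single_apply]
      · simp [h]
    have e2 := hE3 a ha (Matrix.single j' k (1:ℂ))
    rw [e1, map_sum] at e2
    have e3 := congrArg (fun M : Matrix d d ℂ => M i l) e2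
    simp only [map_smul, Matrix.sum_apply, Matrix.smul_apply, Matrix.mul_apply, smul_eq_mul] at e3
    rw [Matrix.mul_apply, Matrix.mul_apply]
    change ∑ j, a i j * E (Matrix.single j' k 1) j l = ∑ j, E (Matrix.single j k 1) i l * a j j'
    rw [← e3]
    exact Finset.sum_congr rfl (fun j _ => mul_comm _ _)
  have hcomm : ∀ l k, X * T l k = T l k * X := fun l k => hX _ (hT l k)
  have key : E X = X := by
    ext i l
    have e1 : X = ∑ k, ∑ j, X j k • Matrix.single j k (1:ℂ) := by
      ext r s
      rw [Matrix.sum_apply]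
      simp only [Matrix.sum_apply, Matrix.smul_apply, Matrix.single_apply, smul_eq_mul]
      rw [Finset.sum_eq_single s, Finset.sum_eq_single r]
      · simp
      · intro b _ hb; simp [hb]
      · intro h; exact absurd (Finset.mem_univ _) h
      · intro b _ hb; simp [hb]
      · intro h; exact absurd (Finset.mem_univ _) h
    have e2 : E X i l = ∑ k, (T l k * X) i k := by
      conv_lhs => rw [e1]
      simp only [map_sum, map_smul, Matrix.sum_apply, Matrix.smul_apply, smul_eq_mul]
      refine Finset.sum_congr rfl (fun k _ => ?_)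
      rw [Matrix.mul_apply]
      refine Finset.sum_congr rfl (fun j _ => ?_)
      exact mul_comm _ _
    rw [e2]
    simp only [← hcomm]
    have e3 : ∀ j, ∑ k, T l k j k = (1 : Matrix d d ℂ) j l := by
      intro j
      have e4 : (1 : Matrix d d ℂ) = ∑ k, Matrix.single k k (1:ℂ) := by
        ext r s
        rw [Matrix.sum_apply]
        by_cases h : r = s
        · subst h; simp [Matrix.single_apply]
        · rw [Matrix.one_apply_ne h]
          symm
          refine Finset.sum_eq_zero (fun k _ => ?_)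
          rw [Matrix.single_apply, if_neg]
          rintro ⟨h1, h2⟩; exact h (h1.symm.trans h2)
      conv_rhs => rw [← hE2 1 h1, e4]
      rw [map_sum, Matrix.sum_apply]
      rfl
    calc ∑ k, (X * T l k) i k = ∑ j, X i j * ∑ k, T l k j k := by
          simp only [Matrix.mul_apply, Finset.mul_sum]
          exact Finset.sum_comm
      _ = ∑ j, X i j * (1 : Matrix d d ℂ) j l := by simp only [e3]
      _ = X i l := by rw [← Matrix.mul_apply, mul_one]
  rw [← key]
  exact hE1 X

/-- The bicommutant theorem for a unital star-closed algebra of matrices. -/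
theorem bicomm (L : Submodule ℂ (Matrix d d ℂ)) (h1 : (1 : Matrix d d ℂ) ∈ L)
    (hm : ∀ a ∈ L, ∀ b ∈ L, a * b ∈ L) (hs : ∀ a ∈ L, a.conjTranspose ∈ L) (X : Matrix d d ℂ)
    (hX : ∀ T : Matrix d d ℂ, (∀ a ∈ L, a * T = T * a) → X * T = T * X) : X ∈ L := by
  let Φ : Matrix d d ℂ ≃ₗ[ℂ] EuclideanSpace ℂ (d × d) :=
    { toFun := fun M => WithLp.toLp 2 (fun p => M p.1 p.2)
      invFun := fun v => Matrix.of (fun i j => v (i, j))
      map_add' := fun _ _ => rfl
      map_smul' := fun _ _ => rfl
      left_inv := fun _ => rfl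
      right_inv := fun _ => rfl }
  let K : Submodule ℂ (EuclideanSpace ℂ (d × d)) := L.map Φ.toLinearMap
  have hK : ∀ M, Φ M ∈ K ↔ M ∈ L := by
    intro M
    constructor
    · rintro ⟨M', hM', h⟩
      rwa [← Φ.injective h]
    · intro h; exact ⟨M, h, rfl⟩
  have hinner : ∀ M N : Matrix d d ℂ, inner ℂ (Φ M) (Φ N) =
      ∑ i, ∑ j, star (M i j) * N i j := by
    intro M N
    rw [PiLp.inner_apply, Fintype.sum_prod_type]
    refine Finset.sum_congr rfl (fun i _ => Finset.sum_congr rfl (fun j _ => ?_))
    change inner ℂ (M i j) (N i j) = _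
    rw [RCLike.inner_apply, mul_comm]
    rfl
  have hadj : ∀ a M N : Matrix d d ℂ, inner ℂ (Φ M) (Φ (a * N)) =
      inner ℂ (Φ (a.conjTranspose * M)) (Φ N) := by
    intro a M N
    rw [hinner, hinner]
    simp only [Matrix.mul_apply, Matrix.conjTranspose_apply, Finset.mul_sum, star_sum, star_mul,
      star_star, Finset.sum_mul]
    have e1 : ∀ i, ∑ j, ∑ k, star (M i j) * (a i k * N k j) =
        ∑ k, ∑ j, star (M i j) * (a i k * N k j) := fun i => Finset.sum_comm
    simp only [e1]
    rw [Finset.sum_comm]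
    refine Finset.sum_congr rfl (fun k _ => ?_)
    rw [Finset.sum_comm]
    refine Finset.sum_congr rfl (fun j _ => Finset.sum_congr rfl (fun i _ => ?_))
    ring
  let E : Matrix d d ℂ →ₗ[ℂ] Matrix d d ℂ :=
    Φ.symm.toLinearMap ∘ₗ K.starProjection.toLinearMap ∘ₗ Φ.toLinearMap
  have hE : ∀ Y, Φ (E Y) = K.starProjection (Φ Y) := fun Y => Φ.apply_symm_apply _
  refine bicomm_of_proj L h1 E ?_ ?_ ?_ X hX
  · intro Y
    rw [← hK, hE]
    exact Submodule.starProjection_apply_mem K (Φ Y)
  · intro Y hY
    apply Φ.injective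
    rw [hE]
    exact Submodule.starProjection_eq_self_iff.mpr ((hK Y).mpr hY)
  · intro a ha Y
    apply Φ.injective
    rw [hE]
    apply Submodule.eq_starProjection_of_mem_orthogonal
    · rw [hK]
      refine hm a ha _ ?_
      rw [← hK, hE]
      exact Submodule.starProjection_apply_mem K (Φ Y)
    · rw [Submodule.mem_orthogonal]
      rintro _ ⟨M, hM, rfl⟩
      have e : Φ (a * Y) - Φ (a * E Y) = Φ (a * (Y - E Y)) := by
        rw [mul_sub, map_sub]
      rw [e]
      change inner ℂ (Φ M) _ = 0
      rw [hadj]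
      have h2 : Φ (Y - E Y) ∈ Kᗮ := by
        rw [map_sub, hE]
        exact Submodule.sub_starProjection_mem_orthogonal (Φ Y)
      exact (Submodule.mem_orthogonal _ _).mp h2 _ ((hK _).mpr (hm _ (hs a ha) _ hM))

end bicomm

end Run7.h417
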