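import Pool.Agent.Run7.h417.Free

/-!
Homogeneous elements with respect to the skew derivation, and the chain argument.
-/

namespace Run7.h417

open FreeAlgebra

/-- the sign of the parity of an integer, as an integer -/
def sgz (P : ℤ) : ℤ := if Even P then 1 else -1

theorem sgz_even {P : ℤ} (h : P % 2 = 0) : sgz P = 1 := by
  simp [sgz, Int.even_iff, h]

theorem sgz_odd {P : ℤ} (h : P % 2 = 1) : sgz P = -1 := by
  have : ¬ Even P := by rw [Int.even_iff]; omega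
  simp [sgz, this]

section hom

variable {Λ : Type*} [DecidableEq Λ] (q : Four Λ)

/-- homogeneous elements of weight `P` -/
structure Hm (P : ℤ) (x : FreeAlgebra ℝ Λ) : Prop where
  pop : q.Pop x = (P : ℝ) • x
  rho : rho q.x x = (sgz P : ℝ) • x

variable {q}

theorem Hm.zero (P : ℤ) : Hm q P 0 := ⟨by simp, by simp⟩

theorem Hm.add {P : ℤ} {x y : FreeAlgebra ℝ Λ} (hx : Hm q P x) (hy : Hm q P y) :
    Hm q P (x + y) := by
  refine ⟨?_, ?_⟩
  · rw [map_add, hx.pop, hy.pop, smul_add]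
  · rw [map_add, hx.rho, hy.rho, smul_add]

theorem Hm.smul {P : ℤ} {x : FreeAlgebra ℝ Λ} (r : ℝ) (hx : Hm q P x) : Hm q P (r • x) := by
  refine ⟨?_, ?_⟩
  · rw [map_smul, hx.pop, smul_comm]
  · rw [map_smul, hx.rho, smul_comm]

theorem Hm.neg {P : ℤ} {x : FreeAlgebra ℝ Λ} (hx : Hm q P x) : Hm q P (-x) := by
  have := hx.smul (-1)
  simpa using this

theorem Hm.sub {P : ℤ} {x y : FreeAlgebra ℝ Λ} (hx : Hm q P x) (hy : Hm q P y) :
    Hm q P (x - y) := by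
  rw [sub_eq_add_neg]; exact hx.add hy.neg

theorem Hm.one : Hm q 0 1 := by
  refine ⟨by simp, by simp [sgz]⟩

theorem Hm.mul {P Q : ℤ} {x y : FreeAlgebra ℝ Λ} (hx : Hm q P x) (hy : Hm q Q y) :
    Hm q (P + sgz P * Q) (x * y) := by
  refine ⟨?_, ?_⟩
  · rw [q.Pop_mul, hx.pop, hy.pop, hx.rho, smul_mul_assoc, mul_smul_comm, smul_mul_assoc, smul_smul,
      ← add_smul]
    push_cast
    congr 1
    ring
  · rw [map_mul, hx.rho, hy.rho, smul_mul_assoc, mul_smul_comm, smul_smul]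
    congr 1
    rcases Int.emod_two_eq_zero_or_one P with hP | hP <;>
      rcases Int.emod_two_eq_zero_or_one Q with hQ | hQ
    · rw [sgz_even hP, sgz_even hQ, sgz_even (by omega)]; norm_num
    · rw [sgz_even hP, sgz_odd hQ, sgz_odd (by omega)]; norm_num
    · rw [sgz_odd hP, sgz_even hQ, sgz_odd (by omega)]; norm_num
    · rw [sgz_odd hP, sgz_odd hQ, sgz_even (by omega)]; norm_num

theorem Hm.mul0 {P : ℤ} {x y : FreeAlgebra ℝ Λ} (hx : Hm q P x) (hy : Hm q 0 y) :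
    Hm q P (x * y) := by
  simpa using hx.mul hy

theorem Hm.raise {P : ℤ} {x y : FreeAlgebra ℝ Λ} (hx : Hm q P x) (hy : Hm q (sgz P) y) :
    Hm q (P + 1) (x * y) := by
  have := hx.mul hy
  have h : sgz P * sgz P = 1 := by unfold sgz; split_ifs <;> norm_num
  rwa [h] at this

variable (q)

/-- elements of weight less than `m` -/
noncomputable def Four.Gl (m : ℤ) : Submodule ℝ (FreeAlgebra ℝ Λ) :=
  Submodule.span ℝ {x | ∃ P < m, Hm q P x}

variable {q}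

theorem Hm.mem_Gl {P m : ℤ} {x : FreeAlgebra ℝ Λ} (hx : Hm q P x) (h : P < m) : x ∈ q.Gl m :=
  Submodule.subset_span ⟨P, h, hx⟩

theorem Gl_mono {m m' : ℤ} (h : m ≤ m') : q.Gl m ≤ q.Gl m' := by
  refine Submodule.span_mono ?_
  rintro x ⟨P, hP, hx⟩
  exact ⟨P, by omega, hx⟩

theorem Gl_mul {m m' : ℤ} {y : FreeAlgebra ℝ Λ}
    (h : ∀ P < m, ∀ x, Hm q P x → x * y ∈ q.Gl m') {g : FreeAlgebra ℝ Λ} (hg : g ∈ q.Gl m) :
    g * y ∈ q.Gl m' := by
  induction hg using Submodule.span_induction with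
  | mem x hx => obtain ⟨P, hP, hx⟩ := hx; exact h P hP x hx
  | zero => simp
  | add a b _ _ ha hb => rw [add_mul]; exact Submodule.add_mem _ ha hb
  | smul r a _ ha => rw [smul_mul_assoc]; exact Submodule.smul_mem _ _ ha

theorem Gl_mul0 {m : ℤ} {g y : FreeAlgebra ℝ Λ} (hg : g ∈ q.Gl m) (hy : Hm q 0 y) :
    g * y ∈ q.Gl m :=
  Gl_mul (fun _ hP _ hx => (hx.mul0 hy).mem_Gl hP) hg

theorem Gl_mul1 {m Q : ℤ} (hQ : Q = 1 ∨ Q = -1) {g y : FreeAlgebra ℝ Λ} (hg : g ∈ q.Gl m)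
    (hy : Hm q Q y) : g * y ∈ q.Gl (m + 1) := by
  refine Gl_mul (fun P hP x hx => (hx.mul hy).mem_Gl ?_) hg
  unfold sgz
  rcases hQ with rfl | rfl <;> split_ifs <;> omega

theorem sgz_or (m : ℤ) : sgz m = 1 ∨ sgz m = -1 := by
  unfold sgz; split_ifs <;> simp

theorem Gl_raise {m : ℤ} {g y : FreeAlgebra ℝ Λ} (hg : g ∈ q.Gl m)
    (hy : Hm q (sgz m) y) : g * y ∈ q.Gl m := by
  refine Gl_mul (fun P hP x hx => (hx.mul hy).mem_Gl ?_) hg
  rcases Int.emod_two_eq_zero_or_one P with h1 | h1 <;>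
      rcases Int.emod_two_eq_zero_or_one m with h2 | h2
  · rw [sgz_even h1, sgz_even h2]; omega
  · rw [sgz_even h1, sgz_odd h2]; omega
  · rw [sgz_odd h1, sgz_even h2]; omega
  · rw [sgz_odd h1, sgz_odd h2]; omega

variable (q)

/-- `X` has top component `x` in weight `m` and all other components have smaller weight. -/
def Top (m : ℤ) (X x : FreeAlgebra ℝ Λ) : Prop := Hm q m x ∧ X - x ∈ q.Gl m

/-- `y` is the component of `X` in weight `m`, and all components have weight at most `m+1`. -/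
def Comp (m : ℤ) (X y : FreeAlgebra ℝ Λ) : Prop :=
  ∃ u g, X = u + y + g ∧ Hm q (m + 1) u ∧ Hm q m y ∧ g ∈ q.Gl m

variable {q}

theorem Top.comp {m : ℤ} {X x : FreeAlgebra ℝ Λ} (h : Top q m X x) : Comp q m X x :=
  ⟨0, X - x, by abel, Hm.zero _, h.1, h.2⟩

theorem Comp.zero (m : ℤ) : Comp q m 0 0 :=
  ⟨0, 0, by simp, Hm.zero _, Hm.zero _, Submodule.zero_mem _⟩

theorem Comp.sub {m : ℤ} {X Y x y : FreeAlgebra ℝ Λ} (hx : Comp q m X x) (hy : Comp q m Y y) :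
    Comp q m (X - Y) (x - y) := by
  obtain ⟨u, g, rfl, h1, h2, h3⟩ := hx
  obtain ⟨u', g', rfl, h1', h2', h3'⟩ := hy
  exact ⟨u - u', g - g', by abel, h1.sub h1', h2.sub h2', Submodule.sub_mem _ h3 h3'⟩

theorem Comp.mem {N : Submodule ℝ (FreeAlgebra ℝ Λ)} (hN : ∀ x ∈ N, q.Pop x ∈ N) {m : ℤ}
    {X y : FreeAlgebra ℝ Λ} (h : Comp q m X y) (hX : X ∈ N) : y ∈ N := by
  obtain ⟨u, g, rfl, hu, hy, hg⟩ := h
  let f : Module.End ℝ (FreeAlgebra ℝ Λ ⧸ N) := N.mapQ N q.Pop (fun x hx => hN x hx)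
  have key : ∀ (P : ℤ) (x : FreeAlgebra ℝ Λ), Hm q P x → N.mkQ x ∈ f.eigenspace (P : ℝ) := by
    intro P x hx
    rw [Module.End.mem_eigenspace_iff]
    change N.mapQ N q.Pop _ (N.mkQ x) = _
    rw [Submodule.mkQ_apply, Submodule.mapQ_apply, hx.pop, Submodule.Quotient.mk_smul]
  have hind := f.eigenspaces_iSupIndep
  have h1 : N.mkQ y ∈ f.eigenspace (m : ℝ) := key m y hy
  have hcast : ∀ P : ℤ, P ≠ m → (P : ℝ) ≠ (m : ℝ) := fun P hP h => hP (by exact_mod_cast h)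
  have h2 : N.mkQ u ∈ ⨆ (μ : ℝ) (_ : μ ≠ m), f.eigenspace μ := by
    have : f.eigenspace ((m + 1 : ℤ) : ℝ) ≤ ⨆ (μ : ℝ) (_ : μ ≠ m), f.eigenspace μ :=
      le_iSup₂_of_le ((m + 1 : ℤ) : ℝ) (hcast (m+1) (by omega)) le_rfl
    exact this (key _ u hu)
  have h3 : N.mkQ g ∈ ⨆ (μ : ℝ) (_ : μ ≠ m), f.eigenspace μ := by
    clear hX
    induction hg using Submodule.span_induction with
    | mem x hx =>
      obtain ⟨P, hP, hx⟩ := hx
      have : f.eigenspace (P : ℝ) ≤ ⨆ (μ : ℝ) (_ : μ ≠ m), f.eigenspace μ :=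
        le_iSup₂_of_le (P : ℝ) (hcast P (by omega)) le_rfl
      exact this (key _ x hx)
    | zero => rw [map_zero]; exact Submodule.zero_mem _
    | add a b _ _ ha hb => rw [map_add]; exact Submodule.add_mem _ ha hb
    | smul r a _ ha => rw [map_smul]; exact Submodule.smul_mem _ _ ha
  have h4 : N.mkQ y = - N.mkQ u - N.mkQ g := by
    have h : N.mkQ (u + y + g) = 0 := by
      rw [Submodule.mkQ_apply, Submodule.Quotient.mk_eq_zero]; exact hX
    rw [map_add, map_add] at h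
    have h' : N.mkQ y = (N.mkQ u + N.mkQ y + N.mkQ g) - N.mkQ u - N.mkQ g := by abel
    rw [h', h]
    abel
  have h5 : N.mkQ y ∈ ⨆ (μ : ℝ) (_ : μ ≠ m), f.eigenspace μ := by
    rw [h4]
    exact Submodule.sub_mem _ (Submodule.neg_mem _ h2) h3
  have h6 : N.mkQ y = 0 := by
    have := (hind (m : ℝ)).le_bot ⟨h1, h5⟩
    simpa using this
  rwa [Submodule.mkQ_apply, Submodule.Quotient.mk_eq_zero] at h6

end hom

end Run7.h417
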