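import Pool.Agent.Run7.h417.Chain

/-!
The chain argument.
-/

namespace Run7.h417

open FreeAlgebra

section letters

variable {Λ : Type*} [DecidableEq Λ] (q : Four Λ)

/-- a letter different from the four distinguished ones -/
structure Oth (c : Λ) : Prop where
  a : c ≠ q.a
  b : c ≠ q.b
  d : c ≠ q.d
  e : c ≠ q.e

noncomputable def Four.be : FreeAlgebra ℝ Λ := ι ℝ q.a - ι ℝ q.b
noncomputable def Four.al : FreeAlgebra ℝ Λ := ι ℝ q.e - ι ℝ q.d
noncomputable def Four.ab : FreeAlgebra ℝ Λ := ι ℝ q.a + ι ℝ q.b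
noncomputable def Four.ed : FreeAlgebra ℝ Λ := ι ℝ q.d + ι ℝ q.e

/-- the raising letters -/
noncomputable def Four.fl (j : ℕ) : FreeAlgebra ℝ Λ := if j % 2 = 0 then q.be else q.al

/-- the neutral vectors attached to the raising letters -/
noncomputable def Four.Kp (c : Λ) (j : ℕ) : FreeAlgebra ℝ Λ :=
  if j % 2 = 0 then (1/2 : ℝ) • q.ab - ι ℝ c else (1/2 : ℝ) • q.ed - ι ℝ c

/-- the transpositions used in the chain argument -/
def Four.Th (c : Λ) (j : ℕ) : Equiv.Perm Λ :=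
  if j % 2 = 0 then Equiv.swap q.b c else Equiv.swap q.d c

theorem Four.fl_congr {j j' : ℕ} (h : j % 2 = j' % 2) : q.fl j = q.fl j' := by
  simp [Four.fl, h]
theorem Four.Kp_congr (c : Λ) {j j' : ℕ} (h : j % 2 = j' % 2) : q.Kp c j = q.Kp c j' := by
  simp [Four.Kp, h]
theorem Four.Th_congr (c : Λ) {j j' : ℕ} (h : j % 2 = j' % 2) : q.Th c j = q.Th c j' := by
  simp [Four.Th, h]

variable {q}

theorem Hm.be : Hm q 1 q.be := by
  constructor
  · simp only [Four.be, map_sub, q.Pop_ι, q.Pe_a, q.Pe_b]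
    norm_num
    module
  · simp only [Four.be, map_sub, rho_ι, q.xa, q.xb]
    norm_num [sgz]

theorem Hm.al : Hm q (-1) q.al := by
  constructor
  · simp only [Four.al, map_sub, q.Pop_ι, q.Pe_d, q.Pe_e]
    norm_num
    module
  · simp only [Four.al, map_sub, rho_ι, q.xd, q.xe]
    norm_num [sgz]

theorem Hm.ab : Hm q 0 q.ab := by
  constructor
  · simp only [Four.ab, map_add, q.Pop_ι, q.Pe_a, q.Pe_b]
    norm_num
    module
  · simp only [Four.ab, map_add, rho_ι, q.xa, q.xb]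
    norm_num [sgz]
    abel

theorem Hm.ed : Hm q 0 q.ed := by
  constructor
  · simp only [Four.ed, map_add, q.Pop_ι, q.Pe_d, q.Pe_e]
    norm_num
    module
  · simp only [Four.ed, map_add, rho_ι, q.xd, q.xe]
    norm_num [sgz]
    abel

theorem Hm.oth {c : Λ} (hc : Oth q c) : Hm q 0 (ι ℝ c) := by
  constructor
  · simp [q.Pe_o hc.a hc.b hc.d hc.e]
  · simp [q.xo hc.a hc.b hc.d hc.e, sgz]

theorem Hm.fl (j : ℕ) : Hm q (sgz j) (q.fl j) := by
  unfold Four.fl
  split_ifs with h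
  · rw [sgz_even (by omega)]; exact Hm.be
  · rw [sgz_odd (by omega)]; exact Hm.al

theorem Hm.Kp {c : Λ} (hc : Oth q c) (j : ℕ) : Hm q 0 (q.Kp c j) := by
  unfold Four.Kp
  split_ifs with h
  · exact (Hm.ab.smul _).sub (Hm.oth hc)
  · exact (Hm.ed.smul _).sub (Hm.oth hc)

theorem Th_fl {c : Λ} (hc : Oth q c) (j : ℕ) :
    rho (q.Th c j) (q.fl j) = (1/2 : ℝ) • q.fl j + q.Kp c j := by
  unfold Four.Th Four.fl Four.Kp
  split_ifs with h
  · simp only [Four.be, Four.ab, map_sub, rho_ι, Equiv.swap_apply_left,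
      Equiv.swap_apply_of_ne_of_ne q.hab hc.a.symm]
    module
  · simp only [Four.al, Four.ed, map_sub, rho_ι, Equiv.swap_apply_left,
      Equiv.swap_apply_of_ne_of_ne q.hde.symm hc.e.symm]
    module

theorem Th_fl' {c : Λ} (hc : Oth q c) (j : ℕ) :
    rho (q.Th c j) (q.fl (j+1)) = q.fl (j+1) := by
  unfold Four.Th Four.fl
  by_cases h : j % 2 = 0
  · rw [if_pos h, if_neg (by omega)]
    simp only [Four.al, map_sub, rho_ι,
      Equiv.swap_apply_of_ne_of_ne q.hbe.symm hc.e.symm,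
      Equiv.swap_apply_of_ne_of_ne q.hbd.symm hc.d.symm]
  · rw [if_neg h, if_pos (by omega)]
    simp only [Four.be, map_sub, rho_ι,
      Equiv.swap_apply_of_ne_of_ne q.had hc.a.symm,
      Equiv.swap_apply_of_ne_of_ne q.hbd hc.b.symm]

theorem Th_Kp {c : Λ} (hc : Oth q c) (j : ℕ) :
    rho (q.Th c j) (q.Kp c (j+1)) = (q.Kp c (j+1) - q.Kp c j) + (1/2 : ℝ) • q.fl j := by
  unfold Four.Th Four.fl Four.Kp
  by_cases h : j % 2 = 0
  · rw [if_pos h, if_neg (by omega), if_pos h, if_pos h]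
    simp only [Four.be, Four.ab, Four.ed, map_sub, map_smul, map_add, rho_ι,
      Equiv.swap_apply_right,
      Equiv.swap_apply_of_ne_of_ne q.hbe.symm hc.e.symm,
      Equiv.swap_apply_of_ne_of_ne q.hbd.symm hc.d.symm]
    module
  · rw [if_neg h, if_pos (by omega), if_neg h, if_neg h]
    simp only [Four.al, Four.ab, Four.ed, map_sub, map_smul, map_add, rho_ι,
      Equiv.swap_apply_right,
      Equiv.swap_apply_of_ne_of_ne q.had hc.a.symm,
      Equiv.swap_apply_of_ne_of_ne q.hbd hc.b.symm]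
    module

variable (q)

/-- alternating products of raising letters -/
noncomputable def Four.lw (s : ℕ) : ℕ → FreeAlgebra ℝ Λ
  | 0 => 1
  | (m+1) => Four.lw s m * q.fl (s + m)

@[simp] theorem Four.lw_zero (s : ℕ) : q.lw s 0 = 1 := rfl
theorem Four.lw_succ (s m : ℕ) : q.lw s (m+1) = q.lw s m * q.fl (s + m) := rfl

theorem Four.lw_add (s m m' : ℕ) : q.lw s (m + m') = q.lw s m * q.lw (s + m) m' := by
  induction m' with
  | zero => simp
  | succ m' ih => rw [← add_assoc, q.lw_succ, ih, q.lw_succ, mul_assoc, add_assoc]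

theorem Four.lw_one (s : ℕ) : q.lw s 1 = q.fl s := by simp [Four.lw]

theorem Four.lw_cons (s m : ℕ) : q.lw s (m+1) = q.fl s * q.lw (s+1) m := by
  rw [add_comm m 1, q.lw_add, q.lw_one]

/-- the coefficient collected along an alternating product -/
noncomputable def cf (ε s : ℕ) : ℕ → ℝ
  | 0 => 1
  | (m+1) => cf ε s m * (if (s + m) % 2 = ε % 2 then 1/2 else 1)

@[simp] theorem cf_zero (ε s : ℕ) : cf ε s 0 = 1 := rfl
theorem cf_succ (ε s m : ℕ) :
    cf ε s (m+1) = cf ε s m * (if (s + m) % 2 = ε % 2 then 1/2 else 1) := rfl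

theorem cf_ne (ε s m : ℕ) : cf ε s m ≠ 0 := by
  induction m with
  | zero => simp
  | succ m ih =>
    rw [cf_succ]
    refine mul_ne_zero ih ?_
    split_ifs <;> norm_num

theorem cf_add (ε s m m' : ℕ) : cf ε s (m + m') = cf ε s m * cf ε (s + m) m' := by
  induction m' with
  | zero => simp
  | succ m' ih => rw [← add_assoc, cf_succ, ih, cf_succ, mul_assoc, add_assoc]

variable {q}

theorem Hm.cast {P P' : ℤ} {x : FreeAlgebra ℝ Λ} (h : Hm q P x) (e : P = P') : Hm q P' x := e ▸ h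

theorem Hm.mul_fl {s : ℕ} {x : FreeAlgebra ℝ Λ} (h : Hm q s x) : Hm q ((s+1 : ℕ) : ℤ) (x * q.fl s) := by
  have := h.raise (Hm.fl s)
  exact this.cast (by push_cast; ring)

theorem Hm.mul_lw {s : ℕ} {x : FreeAlgebra ℝ Λ} (h : Hm q s x) (m : ℕ) :
    Hm q ((s + m : ℕ) : ℤ) (x * q.lw s m) := by
  induction m with
  | zero => simpa using h
  | succ m ih =>
    rw [q.lw_succ, ← mul_assoc]
    exact ih.mul_fl.cast (by push_cast; ring)

theorem Hm.lw (m : ℕ) : Hm q (m : ℤ) (q.lw 0 m) := by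
  have := (Hm.one (q := q)).mul_lw (s := 0) m
  simpa using this

theorem Top.step {c : Λ} (hc : Oth q c) (ε : ℕ) {s : ℕ} {X x : FreeAlgebra ℝ Λ}
    (h : Top q s X x) : Top q ((s + 1 : ℕ) : ℤ) (X * rho (q.Th c ε) (q.fl s))
      ((if s % 2 = ε % 2 then 1/2 else 1 : ℝ) • (x * q.fl s)) := by
  obtain ⟨hx, hg⟩ := h
  refine ⟨hx.mul_fl.smul _, ?_⟩
  have hle : q.Gl (s : ℤ) ≤ q.Gl ((s+1 : ℕ) : ℤ) := Gl_mono (by push_cast; omega)
  split_ifs with hs
  · rw [q.Th_congr c hs.symm, Th_fl hc]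
    have e : X * ((1/2 : ℝ) • q.fl s + q.Kp c s) - (1/2 : ℝ) • (x * q.fl s) =
        (1/2 : ℝ) • ((X - x) * q.fl s) + (X - x) * q.Kp c s + x * q.Kp c s := by
      simp only [mul_add, sub_mul, mul_smul_comm, smul_sub]
      abel
    rw [e]
    refine Submodule.add_mem _ (Submodule.add_mem _ ?_ ?_) ?_
    · exact Submodule.smul_mem _ _ (hle (Gl_raise hg (Hm.fl s)))
    · exact hle (Gl_mul0 hg (Hm.Kp hc s))
    · exact (hx.mul0 (Hm.Kp hc s)).mem_Gl (by push_cast; omega)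
  · have h1 : q.Th c ε = q.Th c (s+1) := q.Th_congr c (by omega)
    have h2 : q.fl s = q.fl (s+1+1) := q.fl_congr (by omega)
    rw [h1, h2, Th_fl' hc (s+1), ← h2, one_smul, ← sub_mul]
    exact hle (Gl_raise hg (Hm.fl s))

theorem Top.steps {c : Λ} (hc : Oth q c) (ε : ℕ) {s : ℕ} {X x : FreeAlgebra ℝ Λ}
    (h : Top q s X x) (m : ℕ) : Top q ((s + m : ℕ) : ℤ) (X * rho (q.Th c ε) (q.lw s m))
      (cf ε s m • (x * q.lw s m)) := by
  induction m with
  | zero => simpa using h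
  | succ m ih =>
    have := Top.step hc ε (s := s + m) ih
    rw [q.lw_succ, map_mul, ← mul_assoc, cf_succ, mul_smul, ← mul_assoc]
    rw [smul_mul_assoc, smul_comm] at this
    exact this

theorem Top.one' : Top q ((0:ℕ) : ℤ) 1 1 := ⟨by simpa using Hm.one, by simp⟩

theorem Top.lw {c : Λ} (hc : Oth q c) (ε m : ℕ) :
    Top q (m : ℤ) (rho (q.Th c ε) (q.lw 0 m)) (cf ε 0 m • q.lw 0 m) := by
  have := Top.one'.steps hc ε (s := 0) m
  simpa using this

variable (q)

/-- insertion of `x` at the gap `t` of the alternating word of length `L` -/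
noncomputable def Four.at' (L t : ℕ) (x : FreeAlgebra ℝ Λ) : FreeAlgebra ℝ Λ :=
  if t ≤ L then q.lw 0 t * x * q.lw t (L - t) else 0

/-- the chain vectors -/
noncomputable def Four.z (c : Λ) (L : ℕ) : ℕ → FreeAlgebra ℝ Λ
  | 0 => - q.at' L 0 (q.Kp c 1)
  | (t+1) => q.at' L t (q.Kp c t) - q.at' L (t+1) (q.Kp c t)

variable {q}

theorem Hm.at' {L t : ℕ} {x : FreeAlgebra ℝ Λ} (hx : Hm q 0 x) : Hm q (L : ℤ) (q.at' L t x) := by
  unfold Four.at'
  split_ifs with h
  · have := ((Hm.lw (q := q) t).mul0 hx).mul_lw (L - t)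
    exact this.cast (by congr 1; omega)
  · exact Hm.zero _

end letters

end Run7.h417
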