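import Pool.Agent.Run7.h417.Chain2

/-!
The chain argument, continued.
-/

namespace Run7.h417

open FreeAlgebra

section chain

variable {Λ : Type*} [DecidableEq Λ] {q : Four Λ}

theorem sgz_succ (t : ℤ) : sgz (t + 1) = - sgz t := by
  rcases Int.emod_two_eq_zero_or_one t with h | h
  · rw [sgz_even h, sgz_odd (by omega)]
  · rw [sgz_odd h, sgz_even (by omega)]; norm_num

theorem sgz_sq (t : ℤ) : sgz t * sgz t = 1 := by
  unfold sgz; split_ifs <;> norm_num

theorem Hm.fl_fl {t : ℕ} {x : FreeAlgebra ℝ Λ} (hx : Hm q t x) :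
    Hm q t (x * q.fl t * q.fl t) := by
  refine (hx.mul_fl.mul (Hm.fl t)).cast ?_
  push_cast
  rw [sgz_succ, neg_mul, sgz_sq]
  ring

theorem Gl_Tu {c : Λ} (hc : Oth q c) {t : ℕ} {g : FreeAlgebra ℝ Λ} (hg : g ∈ q.Gl (t : ℤ)) :
    g * ((1/2 : ℝ) • q.fl t + q.Kp c t) ∈ q.Gl (t : ℤ) := by
  rw [mul_add, mul_smul_comm]
  exact Submodule.add_mem _ (Submodule.smul_mem _ _ (Gl_raise hg (Hm.fl t)))
    (Gl_mul0 hg (Hm.Kp hc t))

theorem Gl_Tk {c : Λ} (hc : Oth q c) {t : ℕ} {g : FreeAlgebra ℝ Λ} (hg : g ∈ q.Gl (t : ℤ)) :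
    g * ((q.Kp c (t+1) - q.Kp c t) + (1/2 : ℝ) • q.fl t) ∈ q.Gl (t : ℤ) := by
  rw [mul_add, mul_smul_comm]
  exact Submodule.add_mem _ (Gl_mul0 hg ((Hm.Kp hc _).sub (Hm.Kp hc _)))
    (Submodule.smul_mem _ _ (Gl_raise hg (Hm.fl t)))

/-- the local computation when the inserted vector stands to the left of the raising letter -/
theorem Top.left {c : Λ} (hc : Oth q c) {t : ℕ} {X x : FreeAlgebra ℝ Λ}
    (h : Top q t X x) :
    Top q ((t + 1 : ℕ) : ℤ)
      (X * rho (q.Th c t) (q.Kp c (t+1)) * rho (q.Th c t) (q.fl t))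
      ((1/2 : ℝ) • (x * q.Kp c (t+1) * q.fl t - x * q.Kp c t * q.fl t + x * q.fl t * q.Kp c t)) := by
  obtain ⟨hx, hg⟩ := h
  have hle : q.Gl (t : ℤ) ≤ q.Gl ((t+1 : ℕ) : ℤ) := Gl_mono (by push_cast; omega)
  rw [Th_fl hc, Th_Kp hc]
  refine ⟨?_, ?_⟩
  · refine Hm.smul _ (Hm.add (Hm.sub ?_ ?_) ?_)
    · exact (hx.mul0 (Hm.Kp hc _)).mul_fl
    · exact (hx.mul0 (Hm.Kp hc _)).mul_fl
    · exact hx.mul_fl.mul0 (Hm.Kp hc _)
  · have e : X * ((q.Kp c (t+1) - q.Kp c t) + (1/2 : ℝ) • q.fl t) *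
          ((1/2 : ℝ) • q.fl t + q.Kp c t) -
        (1/2 : ℝ) • (x * q.Kp c (t+1) * q.fl t - x * q.Kp c t * q.fl t + x * q.fl t * q.Kp c t) =
        (X - x) * ((q.Kp c (t+1) - q.Kp c t) + (1/2 : ℝ) • q.fl t) *
          ((1/2 : ℝ) • q.fl t + q.Kp c t) +
        (x * (q.Kp c (t+1) - q.Kp c t) * q.Kp c t + (1/4 : ℝ) • (x * q.fl t * q.fl t)) := by
      simp only [mul_add, add_mul, sub_mul, mul_sub, mul_smul_comm, smul_mul_assoc, smul_sub,
        smul_add, smul_smul]
      norm_num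
      module
    rw [e]
    refine Submodule.add_mem _ (hle (Gl_Tu hc (Gl_Tk hc hg))) (Submodule.add_mem _ ?_ ?_)
    · exact ((hx.mul0 ((Hm.Kp hc _).sub (Hm.Kp hc _))).mul0 (Hm.Kp hc t)).mem_Gl
        (by push_cast; omega)
    · exact Submodule.smul_mem _ _ (hx.fl_fl.mem_Gl (by push_cast; omega))

/-- the local computation when the inserted vector stands to the right of the raising letter -/
theorem Top.right {c : Λ} (hc : Oth q c) {t : ℕ} {X x : FreeAlgebra ℝ Λ}
    (h : Top q t X x) :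
    Top q ((t + 1 : ℕ) : ℤ)
      (X * rho (q.Th c t) (q.fl t) * rho (q.Th c t) (q.Kp c (t+1)))
      ((1/2 : ℝ) • (x * q.fl t * q.Kp c (t+1) - x * q.fl t * q.Kp c t + x * q.Kp c t * q.fl t)) := by
  obtain ⟨hx, hg⟩ := h
  have hle : q.Gl (t : ℤ) ≤ q.Gl ((t+1 : ℕ) : ℤ) := Gl_mono (by push_cast; omega)
  rw [Th_fl hc, Th_Kp hc]
  refine ⟨?_, ?_⟩
  · refine Hm.smul _ (Hm.add (Hm.sub ?_ ?_) ?_)
    · exact hx.mul_fl.mul0 (Hm.Kp hc _)
    · exact hx.mul_fl.mul0 (Hm.Kp hc _)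
    · exact (hx.mul0 (Hm.Kp hc _)).mul_fl
  · have e : X * ((1/2 : ℝ) • q.fl t + q.Kp c t) *
          ((q.Kp c (t+1) - q.Kp c t) + (1/2 : ℝ) • q.fl t) -
        (1/2 : ℝ) • (x * q.fl t * q.Kp c (t+1) - x * q.fl t * q.Kp c t + x * q.Kp c t * q.fl t) =
        (X - x) * ((1/2 : ℝ) • q.fl t + q.Kp c t) *
          ((q.Kp c (t+1) - q.Kp c t) + (1/2 : ℝ) • q.fl t) +
        (x * q.Kp c t * (q.Kp c (t+1) - q.Kp c t) + (1/4 : ℝ) • (x * q.fl t * q.fl t)) := by
      simp only [mul_add, add_mul, sub_mul, mul_sub, mul_smul_comm, smul_mul_assoc, smul_sub,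
        smul_add, smul_smul]
      norm_num
      module
    rw [e]
    refine Submodule.add_mem _ (hle (Gl_Tk hc (Gl_Tu hc hg))) (Submodule.add_mem _ ?_ ?_)
    · exact ((hx.mul0 (Hm.Kp hc t)).mul0 ((Hm.Kp hc _).sub (Hm.Kp hc _))).mem_Gl
        (by push_cast; omega)
    · exact Submodule.smul_mem _ _ (hx.fl_fl.mem_Gl (by push_cast; omega))

/-- `U`: insertion at the gap to the left of a raising letter moved by the transposition. -/
theorem comp_U {c : Λ} (hc : Oth q c) {ε t L : ℕ} (ht : t < L) (hε : t % 2 = ε % 2) :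
    Comp q L (rho (q.Th c ε) (q.at' L t (q.Kp c (ε+1))))
      (cf ε 0 L • (q.at' L t (q.Kp c (ε+1)) - q.at' L t (q.Kp c ε) +
        q.at' L (t+1) (q.Kp c ε))) := by
  obtain ⟨r, rfl⟩ : ∃ r, L = t + 1 + r := ⟨L - t - 1, by omega⟩
  have h1 := (Top.left hc (Top.lw hc ε t)).steps hc ε r
  rw [q.Th_congr c hε, q.Kp_congr c hε, q.Kp_congr c (j := t + 1) (j' := ε + 1) (by omega)] at h1
  have h2 := Top.comp h1
  convert h2 using 1
  · unfold Four.at'
    rw [if_pos (by omega), show t + 1 + r - t = r + 1 by omega, q.lw_cons]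
    simp only [map_mul, mul_assoc]
  · unfold Four.at'
    rw [if_pos (by omega), if_pos (by omega), if_pos (by omega),
      show t + 1 + r - t = r + 1 by omega, show t + 1 + r - (t + 1) = r by omega, q.lw_cons,
      q.lw_succ 0 t, zero_add, cf_add, cf_succ, zero_add, zero_add, if_pos hε]
    simp only [mul_add, add_mul, sub_mul, mul_sub, mul_smul_comm, smul_mul_assoc, smul_sub,
        smul_add, smul_smul, mul_assoc]
    module

/-- `V`: insertion at the gap to the right of a raising letter moved by the transposition. -/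
theorem comp_V {c : Λ} (hc : Oth q c) {ε t L : ℕ} (ht : t + 1 ≤ L) (hε : t % 2 = ε % 2) :
    Comp q L (rho (q.Th c ε) (q.at' L (t+1) (q.Kp c (ε+1))))
      (cf ε 0 L • (q.at' L (t+1) (q.Kp c (ε+1)) - q.at' L (t+1) (q.Kp c ε) +
        q.at' L t (q.Kp c ε))) := by
  obtain ⟨r, rfl⟩ : ∃ r, L = t + 1 + r := ⟨L - t - 1, by omega⟩
  have h1 := (Top.right hc (Top.lw hc ε t)).steps hc ε r
  rw [q.Th_congr c hε, q.Kp_congr c hε, q.Kp_congr c (j := t + 1) (j' := ε + 1) (by omega)] at h1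
  have h2 := Top.comp h1
  convert h2 using 1
  · unfold Four.at'
    rw [if_pos (by omega), show t + 1 + r - (t + 1) = r by omega, q.lw_succ 0 t, zero_add]
    simp only [map_mul, mul_assoc]
  · unfold Four.at'
    rw [if_pos (by omega), if_pos (by omega), if_pos (by omega),
      show t + 1 + r - t = r + 1 by omega, show t + 1 + r - (t + 1) = r by omega,
      q.lw_succ 0 t, zero_add, q.lw_cons t r, cf_add, cf_succ, zero_add, zero_add, if_pos hε]
    simp only [mul_add, add_mul, sub_mul, mul_sub, mul_smul_comm, smul_mul_assoc, smul_sub,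
        smul_add, smul_smul, mul_assoc]
    module

theorem comp_U0 {c : Λ} (hc : Oth q c) {ε L : ℕ} (hε : L % 2 = ε % 2) :
    Comp q L (rho (q.Th c ε) (q.at' L L (q.Kp c (ε+1))))
      (cf ε 0 L • (q.at' L L (q.Kp c (ε+1)) - q.at' L L (q.Kp c ε))) := by
  obtain ⟨hx, hg⟩ := Top.lw hc ε L
  have h1 : q.Kp c (ε+1) = q.Kp c (L+1) := q.Kp_congr c (by omega)
  refine ⟨(1/2 : ℝ) • (cf ε 0 L • q.lw 0 L * q.fl L),
    (rho (q.Th c ε) (q.lw 0 L) - cf ε 0 L • q.lw 0 L) *
      ((q.Kp c (L+1) - q.Kp c L) + (1/2 : ℝ) • q.fl L), ?_, ?_, ?_, ?_⟩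
  · unfold Four.at'
    rw [if_pos le_rfl, if_pos le_rfl, Nat.sub_self, q.lw_zero, mul_one, mul_one, map_mul, h1,
      q.Th_congr c hε.symm, Th_Kp hc, q.Kp_congr c hε]
    simp only [mul_add, add_mul, sub_mul, mul_sub, mul_smul_comm, smul_mul_assoc, smul_sub,
        smul_add, smul_smul, mul_assoc]
    module
  · exact Hm.smul _ hx.mul_fl
  · exact Hm.smul _ ((Hm.at' (Hm.Kp hc _)).sub (Hm.at' (Hm.Kp hc _)))
  · exact Gl_Tk hc hg

theorem comp_V0 {c : Λ} (hc : Oth q c) {ε L : ℕ} (hε : ε % 2 = 1) :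
    Comp q L (rho (q.Th c ε) (q.at' L 0 (q.Kp c (ε+1))))
      (cf ε 0 L • (q.at' L 0 (q.Kp c (ε+1)) - q.at' L 0 (q.Kp c ε))) := by
  have h0 : Top q ((0:ℕ) : ℤ) (rho (q.Th c ε) (q.Kp c (ε+1))) (q.Kp c (ε+1) - q.Kp c ε) := by
    refine ⟨(Hm.Kp hc _).sub (Hm.Kp hc _), ?_⟩
    rw [Th_Kp hc]
    have : q.Kp c (ε + 1) - q.Kp c ε + (1 / 2 : ℝ) • q.fl ε - (q.Kp c (ε + 1) - q.Kp c ε) =
      (1 / 2 : ℝ) • q.fl ε := by abel
    rw [this]
    refine Submodule.smul_mem _ _ ((Hm.fl ε).mem_Gl ?_)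
    rw [sgz_odd (by omega)]; norm_num
  have h1 := (h0.steps hc ε (s := 0) L).comp
  rw [zero_add] at h1
  convert h1 using 1
  · unfold Four.at'
    rw [if_pos (by omega), q.lw_zero, one_mul, map_mul, Nat.sub_zero]
  · unfold Four.at'
    rw [if_pos (by omega), if_pos (by omega), q.lw_zero, one_mul, one_mul, Nat.sub_zero, sub_mul]

theorem comp_base {c : Λ} (hc : Oth q c) {ε L : ℕ} (hε : L % 2 = ε % 2) :
    Comp q L (rho (q.Th c ε) (q.lw 0 (L+1))) (cf ε 0 L • q.at' L L (q.Kp c ε)) := by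
  obtain ⟨hx, hg⟩ := Top.lw hc ε L
  refine ⟨(1/2 : ℝ) • (cf ε 0 L • q.lw 0 L * q.fl L),
    (rho (q.Th c ε) (q.lw 0 L) - cf ε 0 L • q.lw 0 L) *
      ((1/2 : ℝ) • q.fl L + q.Kp c L), ?_, ?_, ?_, ?_⟩
  · unfold Four.at'
    rw [if_pos le_rfl, Nat.sub_self, q.lw_zero, mul_one, q.lw_succ, zero_add, map_mul,
      q.Th_congr c hε.symm, Th_fl hc, q.Kp_congr c hε]
    simp only [mul_add, add_mul, sub_mul, mul_sub, mul_smul_comm, smul_mul_assoc, smul_sub,
        smul_add, smul_smul, mul_assoc]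
    module
  · exact Hm.smul _ hx.mul_fl
  · exact Hm.smul _ (Hm.at' (Hm.Kp hc _))
  · exact Gl_Tu hc hg

theorem at'_out {L t : ℕ} (h : L < t) (x : FreeAlgebra ℝ Λ) : q.at' L t x = 0 := by
  unfold Four.at'
  rw [if_neg (by omega)]

/-- one step of the chain, as a component computation -/
theorem comp_step {c : Λ} (hc : Oth q c) {t L : ℕ} (ht : t ≤ L) :
    Comp q L (rho (q.Th c (t+1)) (q.z c L (t+1)))
      (cf (t+1) 0 L • (q.z c L (t+1) + q.z c L t + q.z c L (t+2))) := by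
  have hK : q.Kp c (t + 1 + 1) = q.Kp c t := q.Kp_congr c (by omega)
  have hA : Comp q L (rho (q.Th c (t+1)) (q.at' L t (q.Kp c t)))
      (cf (t+1) 0 L • (q.at' L t (q.Kp c t) + q.z c L t)) := by
    rcases Nat.eq_zero_or_pos t with h0 | h0
    · subst h0
      have := comp_V0 (q := q) hc (ε := 1) (L := L) (by norm_num)
      rw [q.Kp_congr c (j := 1 + 1) (j' := 0) (by norm_num)] at this
      convert this using 2
      simp only [Four.z]
      abel
    · obtain ⟨s, rfl⟩ : ∃ s, t = s + 1 := ⟨t - 1, by omega⟩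
      have := comp_V (q := q) hc (ε := s + 1 + 1) (t := s) (L := L) ht (by omega)
      rw [q.Kp_congr c (j := s + 1 + 1 + 1) (j' := s + 1) (by omega),
        q.Kp_congr c (j := s + 1 + 1) (j' := s) (by omega)] at this
      convert this using 2
      simp only [Four.z]
      abel
  have hB : Comp q L (rho (q.Th c (t+1)) (q.at' L (t+1) (q.Kp c t)))
      (cf (t+1) 0 L • (q.at' L (t+1) (q.Kp c t) - q.z c L (t+2))) := by
    rcases lt_trichotomy (t+1) L with h1 | h1 | h1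
    · have := comp_U (q := q) hc (ε := t + 1) (t := t + 1) (L := L) h1 rfl
      rw [hK] at this
      convert this using 2
      simp only [Four.z]
      abel
    · subst h1
      have := comp_U0 (q := q) hc (ε := t + 1) (L := t + 1) rfl
      rw [hK] at this
      convert this using 2
      simp only [Four.z, at'_out (show t + 1 < t + 1 + 1 by omega), sub_zero]
    · simp only [Four.z, at'_out (show L < t + 1 by omega), at'_out (show L < t + 1 + 1 by omega),
        map_zero, sub_zero, smul_zero]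
      exact Comp.zero _
  have := hA.sub hB
  convert this using 1
  · simp only [Four.z, map_sub]
  · rw [← smul_sub]
    congr 1
    simp only [Four.z]
    abel

/-- The chain: a subspace stable under the permutations and the skew derivation that contains
the alternating word of length `L+1` contains all chain vectors. -/
theorem chain {c : Λ} (hc : Oth q c) {N : Submodule ℝ (FreeAlgebra ℝ Λ)}
    (hP : ∀ x ∈ N, q.Pop x ∈ N) (hT : ∀ g : Equiv.Perm Λ, ∀ x ∈ N, rho g x ∈ N) {L : ℕ}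
    (h0 : q.lw 0 (L+1) ∈ N) : ∀ m ≤ L + 1, q.z c L m ∈ N := by
  have hlast : q.z c L (L+2) = 0 := by
    simp only [Four.z, at'_out (show L < L + 1 by omega), at'_out (show L < L + 1 + 1 by omega),
      sub_zero]
  have hfirst : q.z c L (L+1) ∈ N := by
    have h1 := (comp_base (q := q) hc (ε := L) (L := L) rfl).mem hP (hT _ _ h0)
    have h2 := Submodule.smul_mem N (cf L 0 L)⁻¹ h1
    rw [smul_smul, inv_mul_cancel₀ (cf_ne _ _ _), one_smul] at h2
    simpa only [Four.z, at'_out (show L < L + 1 by omega), sub_zero] using h2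
  have key : ∀ i ≤ L + 1, q.z c L (L + 1 - i) ∈ N ∧ q.z c L (L + 2 - i) ∈ N := by
    intro i
    induction i with
    | zero =>
      intro _
      refine ⟨by simpa using hfirst, ?_⟩
      rw [Nat.sub_zero, hlast]; exact Submodule.zero_mem _
    | succ i ih =>
      intro hi
      obtain ⟨h1, h2⟩ := ih (by omega)
      obtain ⟨t, ht⟩ : ∃ t, L + 1 - i = t + 1 := ⟨L - i, by omega⟩
      rw [ht] at h1
      rw [show L + 2 - i = t + 2 by omega] at h2
      have h3 := (comp_step (q := q) hc (t := t) (L := L) (by omega)).mem hP (hT _ _ h1)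
      have h4 := Submodule.smul_mem N (cf (t+1) 0 L)⁻¹ h3
      rw [smul_smul, inv_mul_cancel₀ (cf_ne _ _ _), one_smul] at h4
      have h5 : q.z c L t ∈ N := by
        have := Submodule.sub_mem _ (Submodule.sub_mem _ h4 h1) h2
        convert this using 1
        abel
      rw [show L + 1 - (i + 1) = t by omega, show L + 2 - (i + 1) = t + 1 by omega]
      exact ⟨h5, h1⟩
  intro m hm
  have := (key (L + 1 - m) (by omega)).1
  rwa [show L + 1 - (L + 1 - m) = m by omega] at this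

end chain

end Run7.h417
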