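import Pool.Agent.Run7.h417.Magic

/-!
Orthogonal decomposition with respect to the span of the noncrossing partition functions.
-/

namespace Run7.h417

set_option linter.unusedSectionVars false

section caps

variable {Λ : Type*} {𝕜 : Type*}

/-- summation of the letter at position `j` -/
def capS [Fintype Λ] [AddCommMonoid 𝕜] (j : ℕ) (F : List Λ → 𝕜) : List Λ → 𝕜 :=
  fun w => ∑ i, F (w.take j ++ i :: w.drop j)

/-- doubling of the letter at position `j` -/
def capD (j : ℕ) (F : List Λ → 𝕜) : List Λ → 𝕜 :=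
  fun w => F (w.take (j+1) ++ w.drop j)

theorem capS_apply [Fintype Λ] [AddCommMonoid 𝕜] {j : ℕ} (F : List Λ → 𝕜) {u v : List Λ}
    (hu : u.length = j) : capS j F (u ++ v) = ∑ i, F (u ++ i :: v) := by
  subst hu
  simp [capS]

theorem capD_apply {j : ℕ} (F : List Λ → 𝕜) {u : List Λ} {i : Λ} {v : List Λ}
    (hu : u.length = j) : capD j F (u ++ i :: v) = F (u ++ i :: i :: v) := by
  subst hu
  unfold capD
  congr 1
  rw [List.take_append, List.drop_append]
  simp

/-- insertion of a free letter at position `j` -/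
def insF (j : ℕ) (F : List Λ → 𝕜) : List Λ → 𝕜 :=
  fun w => F (w.take j ++ w.drop (j+1))

/-- the function which is the adjoint of `capD` -/
def dupF [DecidableEq Λ] [Zero 𝕜] (j : ℕ) (F : List Λ → 𝕜) : List Λ → 𝕜 :=
  fun w => if w[j]? = w[j+1]? then F (w.take j ++ w.drop (j+1)) else 0

theorem insF_apply {j : ℕ} (F : List Λ → 𝕜) {u : List Λ} {i : Λ} {v : List Λ}
    (hu : u.length = j) : insF j F (u ++ i :: v) = F (u ++ v) := by
  subst hu
  unfold insF
  congr 1
  rw [List.take_append, List.drop_append]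
  simp

theorem dupF_apply [DecidableEq Λ] [Zero 𝕜] {j : ℕ} (F : List Λ → 𝕜) {u : List Λ} {i i' : Λ}
    {v : List Λ} (hu : u.length = j) :
    dupF j F (u ++ i :: i' :: v) = if i = i' then F (u ++ i :: v) else 0 := by
  subst hu
  unfold dupF
  have h1 : (u ++ i :: i' :: v)[u.length]? = some i := by simp
  have h2 : (u ++ i :: i' :: v)[u.length + 1]? = some i' := by
    rw [List.getElem?_append_right (by omega)]
    simp
  rw [h1, h2]
  by_cases h : i = i'
  · subst h
    rw [if_pos rfl, if_pos rfl]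
    congr 1
    rw [List.take_append, List.drop_append]
    simp
  · rw [if_neg h, if_neg (by simpa using h)]

end caps

section adj

variable {Λ : Type*} [Fintype Λ] [DecidableEq Λ] {𝕜 : Type*} [CommRing 𝕜]

theorem TT.insF {k j : ℕ} (hj : j ≤ k) {F : List Λ → 𝕜} (hF : TT k F) : TT (k+1) (insF j F) :=
  TT.ins j hj F _ hF (fun _ _ _ hu _ => insF_apply F hu)

theorem TT.dupF {k j : ℕ} (hj : j < k) {F : List Λ → 𝕜} (hF : TT k F) : TT (k+1) (dupF j F) :=
  TT.dup j hj F _ hF (fun _ _ _ _ hu _ => dupF_apply F hu)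

theorem adj_S {k j : ℕ} (hj : j ≤ k) (G F : List Λ → 𝕜) :
    wsum (k+1) (fun w => insF j G w * F w) = wsum k (fun w => G w * capS j F w) := by
  obtain ⟨r, rfl⟩ : ∃ r, k = j + r := ⟨k - j, by omega⟩
  rw [show j + r + 1 = j + (r + 1) by ring, wsum_append, wsum_append]
  refine wsum_congr _ (fun u hu => ?_)
  rw [wsum_succ, ← wsum_sum_comm]
  refine wsum_congr _ (fun v hv => ?_)
  rw [capS_apply F hu, Finset.mul_sum]
  refine Finset.sum_congr rfl (fun i _ => ?_)
  rw [insF_apply G hu]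

theorem adj_D {k j : ℕ} (hj : j < k) (G F : List Λ → 𝕜) :
    wsum (k+1) (fun w => dupF j G w * F w) = wsum k (fun w => G w * capD j F w) := by
  obtain ⟨r, rfl⟩ : ∃ r, k = j + (r + 1) := ⟨k - j - 1, by omega⟩
  rw [show j + (r + 1) + 1 = j + (r + 1 + 1) by ring, wsum_append, wsum_append]
  refine wsum_congr _ (fun u hu => ?_)
  rw [wsum_succ, wsum_succ]
  refine Finset.sum_congr rfl (fun i _ => ?_)
  rw [wsum_succ, Finset.sum_eq_single i]
  · refine wsum_congr _ (fun v hv => ?_)
    rw [capD_apply F hu, dupF_apply G hu, if_pos rfl]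
  · intro b _ hb
    refine wsum_eq_zero _ (fun v hv => ?_)
    rw [dupF_apply G hu, if_neg (Ne.symm hb), zero_mul]
  · intro hh; exact absurd (Finset.mem_univ _) hh

theorem Cap_of_caps {k : ℕ} {F : List Λ → 𝕜}
    (h1 : ∀ j ≤ k, ∀ w : List Λ, w.length = k → capS j F w = 0)
    (h2 : ∀ j < k, ∀ w : List Λ, w.length = k → capD j F w = 0) : Cap (k+1) F := by
  constructor
  · intro u v h
    have := h1 u.length (by omega) (u ++ v) (by simp; omega)
    rwa [capS_apply F rfl] at this
  · intro u i v h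
    have := h2 u.length (by omega) (u ++ i :: v) (by simp; omega)
    rwa [capD_apply F rfl] at this

end adj

section proj

variable {Λ : Type*} [Fintype Λ] [DecidableEq Λ]

/-- extension of a vector to a function of words -/
noncomputable def extF (k : ℕ) (f : EuclideanSpace ℝ (Fin k → Λ)) : List Λ → ℝ :=
  fun w => if h : w.length = k then f (fun i => w.get (i.cast h.symm)) else 0

theorem extF_ofFn (k : ℕ) (f : EuclideanSpace ℝ (Fin k → Λ)) (v : Fin k → Λ) :
    extF k f (List.ofFn v) = f v := by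
  unfold extF
  rw [dif_pos (by simp)]
  refine congrArg f.ofLp ?_
  funext i
  simp

theorem exists_ofFn {k : ℕ} {w : List Λ} (hw : w.length = k) : ∃ v : Fin k → Λ, w = List.ofFn v := by
  subst hw
  exact ⟨fun i => w.get i, by simp⟩

/-- the space of noncrossing functions -/
noncomputable def TTs (k : ℕ) : Submodule ℝ (EuclideanSpace ℝ (Fin k → Λ)) where
  carrier := {f | TT k (extF k f)}
  add_mem' := by
    intro f g hf hg
    refine TT.congr _ _ (TT.add _ _ hf hg) (fun w hw => ?_)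
    obtain ⟨v, rfl⟩ := exists_ofFn hw
    rw [extF_ofFn, extF_ofFn, extF_ofFn]; rfl
  zero_mem' := by
    refine TT.congr _ _ (TT.zero k) (fun w hw => ?_)
    obtain ⟨v, rfl⟩ := exists_ofFn hw
    rw [extF_ofFn]; rfl
  smul_mem' := by
    intro c f hf
    refine TT.congr _ _ (TT.smul c _ hf) (fun w hw => ?_)
    obtain ⟨v, rfl⟩ := exists_ofFn hw
    rw [extF_ofFn, extF_ofFn]; rfl

theorem exists_orth (k : ℕ) (F : List Λ → ℝ) : ∃ FT F0 : List Λ → ℝ, TT k FT ∧
    (∀ w, F w = FT w + F0 w) ∧ ∀ G, TT k G → wsum k (fun w => G w * F0 w) = 0 := by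
  obtain ⟨y, hy, z, hz, h⟩ := (TTs (Λ := Λ) k).exists_add_mem_mem_orthogonal
    (WithLp.toLp 2 (fun v : Fin k → Λ => F (List.ofFn v)))
  refine ⟨extF k y, fun w => F w - extF k y w, hy, fun w => by ring, fun G hG => ?_⟩
  have hG' : WithLp.toLp 2 (fun v : Fin k → Λ => G (List.ofFn v)) ∈ TTs (Λ := Λ) k := by
    refine TT.congr _ _ hG (fun w hw => ?_)
    obtain ⟨v, rfl⟩ := exists_ofFn hw
    rw [extF_ofFn]
  have e := (Submodule.mem_orthogonal _ _).mp hz _ hG'
  rw [PiLp.inner_apply] at e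
  rw [wsum_eq_sum, ← e]
  refine Finset.sum_congr rfl (fun v _ => ?_)
  have hv := congrArg (fun f : EuclideanSpace ℝ (Fin k → Λ) => f v) h
  simp only [PiLp.add_apply] at hv
  change G (List.ofFn v) * (F (List.ofFn v) - extF k y (List.ofFn v)) = _
  rw [extF_ofFn, hv]
  simp [mul_comm]

/-- A system of spaces of functions closed under caps and containing the noncrossing functions. -/
structure Good (I : ℕ → (List Λ → ℝ) → Prop) : Prop where
  tt : ∀ k F, TT k F → I k F
  sub : ∀ k F G, I k F → I k G → I k (fun w => F w - G w)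
  congr : ∀ k F G, I k F → (∀ w, w.length = k → F w = G w) → I k G
  capS : ∀ k j F, j ≤ k → I (k+1) F → I k (capS j F)
  capD : ∀ k j F, j < k → I (k+1) F → I k (capD j F)

theorem decomp {I : ℕ → (List Λ → ℝ) → Prop} (hI : Good I) {k : ℕ}
    (ih : ∀ F, I k F → TT k F) {F : List Λ → ℝ} (hF : I (k+1) F) :
    ∃ FT F0 : List Λ → ℝ, TT (k+1) FT ∧ I (k+1) F0 ∧ Cap (k+1) F0 ∧
      (∀ w, F w = FT w + F0 w) ∧ ∀ G, TT (k+1) G → wsum (k+1) (fun w => G w * F0 w) = 0 := by
  obtain ⟨FT, F0, h1, h2, h3⟩ := exists_orth (k+1) F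
  have h4 : I (k+1) F0 := by
    refine hI.congr _ _ _ (hI.sub _ _ _ hF (hI.tt _ _ h1)) (fun w _ => ?_)
    rw [h2 w]; ring
  refine ⟨FT, F0, h1, h4, ?_, h2, h3⟩
  apply Cap_of_caps
  · intro j hj
    have h5 := ih _ (hI.capS _ _ _ hj h4)
    have h6 := h3 _ (h5.insF hj)
    rw [adj_S hj] at h6
    exact eq_zero_of_wsum_sq _ h6
  · intro j hj
    have h5 := ih _ (hI.capD _ _ _ hj h4)
    have h6 := h3 _ (h5.dupF hj)
    rw [adj_D hj] at h6
    exact eq_zero_of_wsum_sq _ h6

theorem TT_of_capless {I : ℕ → (List Λ → ℝ) → Prop} (hI : Good I)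
    (H : ∀ k, (∀ j ≤ k, ∀ F, I j F → TT j F) → ∀ F, I (k+1) F → Cap (k+1) F →
      ∀ w : List Λ, w.length = k+1 → F w = 0) : ∀ k F, I k F → TT k F := by
  have key : ∀ k, ∀ j ≤ k, ∀ F, I j F → TT j F := by
    intro k
    induction k with
    | zero =>
      intro j hj F _
      obtain rfl : j = 0 := by omega
      exact TT.base F
    | succ k ih =>
      intro j hj F hF
      rcases Nat.lt_or_ge j (k+1) with h | h
      · exact ih j (by omega) F hF
      · obtain rfl : j = k + 1 := by omega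
        obtain ⟨FT, F0, h1, h2, h3, h4, _⟩ := decomp hI (ih k le_rfl) hF
        refine TT.congr _ _ h1 (fun w hw => ?_)
        rw [h4 w, H k ih F0 h2 h3 w hw, add_zero]
  exact fun k => key k k le_rfl

end proj

section fixedcaps

variable {Λ : Type*} [Fintype Λ] [DecidableEq Λ] {𝕜 R : Type*} [CommRing 𝕜] [Ring R] [Algebra 𝕜 R]

omit [DecidableEq Λ] in
theorem FixedBy.congr {P : Λ → Λ → R} {k : ℕ} {F G : List Λ → 𝕜} (hF : FixedBy P k F)
    (h : ∀ w : List Λ, w.length = k → F w = G w) : FixedBy P k G := by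
  intro i hi
  rw [← h i hi, ← hF i hi]
  exact wsum_congr _ (fun j hj => by rw [h j hj])

omit [DecidableEq Λ] in
theorem FixedBy.sub {P : Λ → Λ → R} {k : ℕ} {F G : List Λ → 𝕜} (hF : FixedBy P k F)
    (hG : FixedBy P k G) : FixedBy P k (fun w => F w - G w) := by
  intro i hi
  simp only [sub_smul]
  rw [wsum_sub, hF i hi, hG i hi]

omit [DecidableEq Λ] in
theorem FixedBy.smul {P : Λ → Λ → R} {k : ℕ} {F : List Λ → 𝕜} (c : 𝕜) (hF : FixedBy P k F) :
    FixedBy P k (fun w => c * F w) := by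
  intro i hi
  simp only [mul_smul]
  rw [wsum_smul, hF i hi]

omit [DecidableEq Λ] in
theorem FixedBy.capS {P : Λ → Λ → R} (hP : IsMagic P) {k j : ℕ} (hj : j ≤ k) {F : List Λ → 𝕜}
    (hF : FixedBy P (k+1) F) : FixedBy P k (capS j F) := by
  intro i hi
  obtain ⟨r, rfl⟩ : ∃ r, k = j + r := ⟨k - j, by omega⟩
  obtain ⟨i1, i2, h1, h2⟩ : ∃ i1 i2 : List Λ, i1.length = j ∧ i = i1 ++ i2 :=
    ⟨i.take j, i.drop j, by simp; omega, by simp⟩
  have h3 : i2.length = r := by
    have := congrArg List.length h2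
    simp at this; omega
  rw [h2, wsum_append, capS_apply F h1]
  have key : ∀ a : Λ, wsum j (fun j1 => ∑ b, wsum r (fun j2 => F (j1 ++ b :: j2) •
      (mon P i1 j1 * (P a b * mon P i2 j2)))) = F (i1 ++ a :: i2) • 1 := by
    intro a
    rw [← hF (i1 ++ a :: i2) (by simp; omega), show j + r + 1 = j + (r + 1) by ring, wsum_append]
    refine wsum_congr _ (fun j1 hj1 => ?_)
    rw [wsum_succ]
    refine Finset.sum_congr rfl (fun b _ => wsum_congr _ (fun j2 hj2 => ?_))
    rw [mon_append P _ _ _ _ (by omega), mon_cons]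
  rw [Finset.sum_smul, ← Finset.sum_congr rfl (fun a _ => key a), ← wsum_sum_comm]
  refine wsum_congr _ (fun j1 hj1 => ?_)
  rw [Finset.sum_comm]
  have : ∀ b : Λ, ∑ a, wsum r (fun j2 => F (j1 ++ b :: j2) • (mon P i1 j1 * (P a b * mon P i2 j2)))
      = wsum r (fun j2 => F (j1 ++ b :: j2) • (mon P i1 j1 * mon P i2 j2)) := by
    intro b
    rw [← wsum_sum_comm]
    refine wsum_congr _ (fun j2 _ => ?_)
    rw [← Finset.smul_sum, ← Finset.mul_sum, ← Finset.sum_mul, hP.colsum, one_mul]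
  rw [Finset.sum_congr rfl (fun b _ => this b), ← wsum_sum_comm]
  refine wsum_congr _ (fun j2 hj2 => ?_)
  rw [capS_apply F hj1, mon_append P _ _ _ _ (by omega), Finset.sum_smul]

omit [DecidableEq Λ] in
theorem FixedBy.capD {P : Λ → Λ → R} (hP : IsMagic P) {k j : ℕ} (hj : j < k) {F : List Λ → 𝕜}
    (hF : FixedBy P (k+1) F) : FixedBy P k (capD j F) := by
  intro i hi
  obtain ⟨r, rfl⟩ : ∃ r, k = j + (r + 1) := ⟨k - j - 1, by omega⟩
  obtain ⟨i1, a, i2, h1, h2⟩ := exists_split i j (by omega)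
  have h3 : i2.length = r := by
    have := congrArg List.length h2
    simp at this; omega
  rw [h2, wsum_append, capD_apply F h1, ← hF (i1 ++ a :: a :: i2) (by simp; omega),
    show j + (r + 1) + 1 = j + (r + 1 + 1) by ring, wsum_append]
  refine wsum_congr _ (fun j1 hj1 => ?_)
  rw [wsum_succ, wsum_succ]
  refine Finset.sum_congr rfl (fun b _ => ?_)
  rw [wsum_succ, Finset.sum_eq_single b]
  · refine wsum_congr _ (fun j2 hj2 => ?_)
    rw [capD_apply F hj1, mon_append P _ _ _ _ (by omega), mon_append P _ _ _ _ (by omega),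
      mon_cons, mon_cons, mon_cons, ← mul_assoc (P a b) (P a b), hP.idem]
  · intro b' _ hb
    refine wsum_eq_zero _ (fun j2 hj2 => ?_)
    rw [mon_append P _ _ _ _ (by omega), mon_cons, mon_cons, ← mul_assoc (P a b), 
      hP.row a b b' (Ne.symm hb), zero_mul, mul_zero, smul_zero]
  · intro hh; exact absurd (Finset.mem_univ _) hh

end fixedcaps

end Run7.h417
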