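import Pool.Agent.Run7.h417.Inner

/-!
The quantum permutation algebra is inner linear.
-/

namespace Run7.h417

set_option linter.unusedSectionVars false

open scoped TensorProduct ComplexConjugate

section span

variable {n : ℕ}

/-- span of the words of length `m` -/
noncomputable def VV (n m : ℕ) : Submodule ℂ (QPerm n) :=
  Submodule.span ℂ {a | ∃ x y : List (Fin n), x.length = m ∧ y.length = m ∧
    a = mon QPerm.u x y}

theorem VV_mul {m m' : ℕ} {a b : QPerm n} (ha : a ∈ VV n m) (hb : b ∈ VV n m') :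
    a * b ∈ VV n (m + m') := by
  induction ha using Submodule.span_induction with
  | mem a ha =>
    obtain ⟨x, y, hx, hy, rfl⟩ := ha
    induction hb using Submodule.span_induction with
    | mem b hb =>
      obtain ⟨x', y', hx', hy', rfl⟩ := hb
      refine Submodule.subset_span ⟨x ++ x', y ++ y', by simp; omega, by simp; omega, ?_⟩
      rw [mon_append _ _ _ _ _ (by omega)]
    | zero => rw [mul_zero]; exact Submodule.zero_mem _
    | add a b _ _ ha hb => rw [mul_add]; exact Submodule.add_mem _ ha hb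
    | smul r a _ ha => rw [mul_smul_comm]; exact Submodule.smul_mem _ _ ha
  | zero => rw [zero_mul]; exact Submodule.zero_mem _
  | add a b _ _ ha hb => rw [add_mul]; exact Submodule.add_mem _ ha hb
  | smul r a _ ha => rw [smul_mul_assoc]; exact Submodule.smul_mem _ _ ha

theorem VV_u (i j : Fin n) : QPerm.u i j ∈ VV n 1 :=
  Submodule.subset_span ⟨[i], [j], rfl, rfl, by simp⟩

theorem VV_one : (1 : QPerm n) ∈ VV n 0 := Submodule.subset_span ⟨[], [], rfl, rfl, rfl⟩

theorem VV_succ (hn : 1 ≤ n) (m : ℕ) : VV n m ≤ VV n (m+1) := by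
  intro a ha
  have h1 : (1 : QPerm n) ∈ VV n 1 := by
    rw [← QPerm.u_magic.rowsum (⟨0, hn⟩ : Fin n)]
    exact Submodule.sum_mem _ (fun j _ => VV_u _ _)
  have := VV_mul ha h1
  rwa [mul_one] at this

theorem VV_mono (hn : 1 ≤ n) {m m' : ℕ} (h : m ≤ m') : VV n m ≤ VV n m' := by
  induction h with
  | refl => exact le_rfl
  | step _ ih => exact ih.trans (VV_succ hn _)

theorem exists_VV (hn : 1 ≤ n) (a : QPerm n) : ∃ m, a ∈ VV n m := by
  induction a using QPerm.induction with
  | h0 r => exact ⟨0, by rw [Algebra.algebraMap_eq_smul_one]; exact Submodule.smul_mem _ _ VV_one⟩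
  | h1 i j => exact ⟨1, VV_u i j⟩
  | hm a b ha hb =>
    obtain ⟨m, hm⟩ := ha
    obtain ⟨m', hm'⟩ := hb
    exact ⟨m + m', VV_mul hm hm'⟩
  | ha a b ha hb =>
    obtain ⟨m, hm⟩ := ha
    obtain ⟨m', hm'⟩ := hb
    exact ⟨max m m', Submodule.add_mem _ (VV_mono hn (le_max_left _ _) hm)
      (VV_mono hn (le_max_right _ _) hm')⟩

end span

section final

variable {n : ℕ}

theorem injective_of_factor (hn : 1 ≤ n) {P : Fin n → Fin n → Matrix (Fin 2) (Fin 2) ℝ}
    (hP : IsMagic P) (hfix : ∀ k (F : List (Fin n) → ℝ), FixedBy P k F → TT k F)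
    {B : Type*} [Ring B] [HopfAlgebra ℂ B] [StarRing B] [StarModule ℂ B] (q : QPerm n →ₐc[ℂ] B)
    (hq : ∀ i j, star (q (QPerm.u i j)) = q (QPerm.u i j))
    (ρ : B →ₐ[ℂ] Matrix (Fin 2) (Fin 2) ℂ) (hρ : ∀ i j, ρ (q (QPerm.u i j)) = cx (P i j)) :
    Function.Injective q := by
  have hmag : IsMagic (fun i j => q (QPerm.u i j)) :=
    (QPerm.u_magic (n := n)).map ((q : QPerm n →ₐ[ℂ] B) : QPerm n →+* B)
  have hv : IsCoord (fun i j => q (QPerm.u (n := n) i j)) := by
    refine ⟨hmag, fun i j => ?_, fun i j => ?_⟩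
    · rw [← CoalgHomClass.map_comp_comul_apply q, QPerm.comul_u, map_sum]
      rfl
    · rw [CoalgHomClass.counit_comp_apply q, QPerm.counit_u]
  have hmon : ∀ x y : List (Fin n), mon (fun i j => q (QPerm.u i j)) x y =
      q (mon QPerm.u x y) := fun x y =>
    mon_map ((q : QPerm n →ₐ[ℂ] B) : QPerm n →+* B) QPerm.u x y
  rw [injective_iff_map_eq_zero]
  intro a ha
  obtain ⟨m, hm⟩ := exists_VV hn a
  rw [← Module.forall_dual_apply_eq_zero_iff ℂ]
  intro f
  obtain ⟨g, hg⟩ := exists_functional hP hfix hv hq ρ hρ m f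
  have key : ∀ b ∈ VV n m, f b = g (q b) := by
    intro b hb
    induction hb using Submodule.span_induction with
    | mem b hb =>
      obtain ⟨x, y, hx, hy, rfl⟩ := hb
      obtain ⟨x', rfl⟩ := exists_ofFn hx
      obtain ⟨y', rfl⟩ := exists_ofFn hy
      have h := congrArg (fun M : Matrix (Fin m → Fin n) (Fin m → Fin n) ℂ => M x' y') hg
      simp only [matL_apply, hmon] at h
      exact h
    | zero => simp
    | add a b _ _ ha hb => rw [map_add, map_add, map_add, ha, hb]
    | smul r a _ ha => rw [map_smul, map_smul, map_smul, ha]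
  rw [key a hm, ha, map_zero]

/-- star-homomorphisms out of the quantum permutation algebra -/
noncomputable def QPerm.liftStar {A : Type*} [Ring A] [Algebra ℂ A] [StarRing A] [StarModule ℂ A]
    (P : Fin n → Fin n → A) (hP : IsMagic P) (hs : ∀ i j, star (P i j) = P i j) :
    QPerm n →⋆ₐ[ℂ] A :=
  { QPerm.lift P hP with
    map_star' := by
      intro a
      change QPerm.lift P hP (star a) = star (QPerm.lift P hP a)
      induction a using QPerm.induction with
      | h0 r =>
        rw [QPerm.star_algebraMap', AlgHom.commutes, AlgHom.commutes,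
          Algebra.algebraMap_eq_smul_one, Algebra.algebraMap_eq_smul_one, star_smul, star_one]
        rfl
      | h1 i j => rw [QPerm.star_u, QPerm.lift_u, hs]
      | hm a b ha hb => rw [star_mul, map_mul, ha, hb, map_mul, star_mul]
      | ha a b ha hb => rw [star_add, map_add, ha, hb, map_add, star_add] }

theorem QPerm.liftStar_u {A : Type*} [Ring A] [Algebra ℂ A] [StarRing A] [StarModule ℂ A]
    (P : Fin n → Fin n → A) (hP : IsMagic P) (hs : ∀ i j, star (P i j) = P i j) (i j : Fin n) :
    QPerm.liftStar P hP hs (QPerm.u i j) = P i j := QPerm.lift_u P hP i j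

theorem cx_star {M : Matrix (Fin 2) (Fin 2) ℝ} (h : M.transpose = M) : star (cx M) = cx M := by
  ext r s
  rw [Matrix.star_apply, cx_apply, cx_apply]
  have : M s r = M r s := by
    conv_rhs => rw [← h]
    rfl
  rw [this]
  exact Complex.conj_ofReal _

/-- For every `n ≥ 1` the quantum permutation algebra has an inner faithful representation by
two by two matrices. -/
theorem main (n : ℕ) (hn : 1 ≤ n) :
    ∃ π : QPerm n →⋆ₐ[ℂ] Matrix (Fin 2) (Fin 2) ℂ, InnerFaithful π := by
  obtain ⟨P, hP, hPt, hfix⟩ := hasP n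
  refine ⟨QPerm.liftStar (fun i j => cx (P i j)) (hP.map cx) (fun i j => cx_star (hPt i j)), ?_⟩
  intro B _ _ _ _ q hsurj hρ
  obtain ⟨ρ, hρ⟩ := hρ
  refine ⟨?_, hsurj⟩
  refine injective_of_factor hn hP hfix q.hom (fun i j => ?_)
    (ρ : B →ₐ[ℂ] Matrix (Fin 2) (Fin 2) ℂ) (fun i j => ?_)
  · rw [← q.map_star, QPerm.star_u]
  · exact (hρ (QPerm.u i j)).trans (QPerm.liftStar_u _ _ _ i j)

end final

end Run7.h417
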