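import Pool.Agent.Run7.h417.Inv

/-!
The bilinear form attached to an invariant function.
-/

namespace Run7.h417

open FreeAlgebra

set_option linter.unusedSectionVars false

section form

variable {Λ : Type*} [DecidableEq Λ] [Fintype Λ] {q : Four Λ}

theorem Four.Pop_rho (x : FreeAlgebra ℝ Λ) : q.Pop (rho q.x x) = rho q.x (q.Pop x) := by
  induction x using FreeAlgebra.induction with
  | grade0 r =>
    rw [AlgHom.commutes, Algebra.algebraMap_eq_smul_one, map_smul, q.Pop_one, smul_zero, map_zero]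
  | grade1 i =>
    rw [rho_ι, q.Pop_ι, q.Pop_ι, q.Pe_eq, q.Pe_eq, q.sg_x, map_smul, map_sub, rho_ι, rho_ι]
  | mul a b ha hb => rw [map_mul, q.Pop_mul, ha, hb, q.Pop_mul, map_add, map_mul, map_mul]
  | add a b ha hb => rw [map_add, map_add, ha, hb, map_add, map_add]

theorem rho_x_x (x : FreeAlgebra ℝ Λ) : rho q.x (rho q.x x) = x := by
  rw [rho_rho, q.xx, rho_one]

theorem Four.Pop_star (x : FreeAlgebra ℝ Λ) :
    q.Pop (star x) = - rho q.x (star (q.Pop x)) := by
  induction x using FreeAlgebra.induction with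
  | grade0 r =>
    rw [star_algebraMap, Algebra.algebraMap_eq_smul_one, map_smul, q.Pop_one, smul_zero,
      star_zero, map_zero, neg_zero]
  | grade1 i =>
    rw [star_ι, q.Pop_ι, q.Pe_eq, star_smul', map_smul, star_sub, map_sub, star_ι, star_ι, rho_ι,
      rho_ι, q.x_x, ← smul_neg, neg_sub]
  | mul a b ha hb =>
    rw [star_mul, q.Pop_mul, ha, hb, q.Pop_mul, star_add, star_mul, star_mul, map_add, map_mul,
      map_mul, rho_star q.x (rho q.x a), rho_x_x]
    noncomm_ring
  | add a b ha hb => rw [star_add, map_add, ha, hb, map_add, star_add, map_add, neg_add]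

/-- the bilinear form attached to `F` -/
noncomputable def Bf (F : List Λ → ℝ) (x y : FreeAlgebra ℝ Λ) : ℝ := hat F (star x * y)

omit [DecidableEq Λ] [Fintype Λ] in
theorem Bf_wd (F : List Λ → ℝ) (u v : List Λ) : Bf F (wd u) (wd v) = F (u.reverse ++ v) := by
  rw [Bf, star_wd, ← wd_append, hat_wd]

omit [DecidableEq Λ] [Fintype Λ] in
theorem Bf_add_left (F : List Λ → ℝ) (x x' y : FreeAlgebra ℝ Λ) :
    Bf F (x + x') y = Bf F x y + Bf F x' y := by
  rw [Bf, star_add, add_mul, map_add]; rfl

omit [DecidableEq Λ] [Fintype Λ] in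
theorem Bf_smul_left (F : List Λ → ℝ) (r : ℝ) (x y : FreeAlgebra ℝ Λ) :
    Bf F (r • x) y = r * Bf F x y := by
  rw [Bf, star_smul', smul_mul_assoc, map_smul]; rfl

/-- the form as a linear map in the second variable -/
noncomputable def BR (F : List Λ → ℝ) (x : FreeAlgebra ℝ Λ) : FreeAlgebra ℝ Λ →ₗ[ℝ] ℝ :=
  (hat F).comp (LinearMap.mulLeft ℝ (star x))

/-- the form as a linear map in the first variable -/
noncomputable def BL (F : List Λ → ℝ) (y : FreeAlgebra ℝ Λ) : FreeAlgebra ℝ Λ →ₗ[ℝ] ℝ where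
  toFun x := Bf F x y
  map_add' x x' := Bf_add_left F x x' y
  map_smul' r x := Bf_smul_left F r x y

omit [DecidableEq Λ] [Fintype Λ] in
theorem BR_apply (F : List Λ → ℝ) (x y : FreeAlgebra ℝ Λ) : BR F x y = Bf F x y := rfl
omit [DecidableEq Λ] [Fintype Λ] in
theorem BL_apply (F : List Λ → ℝ) (x y : FreeAlgebra ℝ Λ) : BL F y x = Bf F x y := rfl

variable {G : Set (Equiv.Perm Λ)} {k : ℕ} {F : List Λ → ℝ}

theorem Bf_rho (hF : Inv q G k F) (hs : Supp k F) {g : Equiv.Perm Λ} (hg : g ∈ G)
    (x y : FreeAlgebra ℝ Λ) : Bf F (rho g x) (rho g y) = Bf F x y := by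
  rw [Bf, ← rho_star, ← map_mul, hF.hat_rho hs hg]; rfl

theorem Bf_Pop (hF : Inv q G k F) (hs : Supp k F)
    (x y : FreeAlgebra ℝ Λ) : Bf F (q.Pop x) y = Bf F x (q.Pop y) := by
  have h := hF.hat_Pop hs (star (rho q.x x) * y)
  rw [q.Pop_mul, q.Pop_star, q.Pop_rho, ← rho_star, ← rho_star, rho_x_x, rho_x_x, map_add,
    neg_mul, map_neg] at h
  have : hat F (star (q.Pop x) * y) = hat F (star x * q.Pop y) := by linarith
  exact this

theorem Bf_weight (hF : Inv q G k F) (hs : Supp k F) {P P' : ℤ} {x y : FreeAlgebra ℝ Λ}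
    (hx : Hm q P x) (hy : Hm q P' y) (h : P ≠ P') : Bf F x y = 0 := by
  have h1 := Bf_Pop hF hs x y
  rw [hx.pop, hy.pop, Bf_smul_left, ← BR_apply, ← BR_apply, map_smul, smul_eq_mul] at h1
  have h2 : ((P : ℝ) - P') * BR F x y = 0 := by linarith
  rcases mul_eq_zero.mp h2 with h3 | h3
  · exfalso
    apply h
    have : (P : ℝ) = P' := by linarith
    exact_mod_cast this
  · exact h3

omit [DecidableEq Λ] in
theorem bilin_zero {φ : FreeAlgebra ℝ Λ →ₗ[ℝ] ℝ} {y : FreeAlgebra ℝ Λ}
    (h : ∀ u v : List Λ, φ (wd u * y * wd v) = 0) (X Y : FreeAlgebra ℝ Λ) :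
    φ (X * y * Y) = 0 := by
  have h1 : ∀ u : List Λ, φ.comp (LinearMap.mulLeft ℝ (wd u * y)) = 0 := by
    intro u
    apply hat_ext_wd
    intro v
    simp only [LinearMap.comp_apply, LinearMap.mulLeft_apply, LinearMap.zero_apply]
    exact h u v
  have h2 : φ.comp (LinearMap.mulRight ℝ (y * Y)) = 0 := by
    apply hat_ext_wd
    intro u
    have := congrArg (fun f => f Y) (h1 u)
    simp only [LinearMap.comp_apply, LinearMap.mulLeft_apply, LinearMap.zero_apply] at this
    simp only [LinearMap.comp_apply, LinearMap.mulRight_apply, LinearMap.zero_apply]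
    rw [← mul_assoc]; exact this
  have := congrArg (fun f => f X) h2
  simp only [LinearMap.comp_apply, LinearMap.mulRight_apply, LinearMap.zero_apply] at this
  rw [mul_assoc]; exact this

omit [DecidableEq Λ] in
theorem hat_capS (hc : Cap k F) (hs : Supp k F) (X Y : FreeAlgebra ℝ Λ) :
    hat F (X * (∑ i, ι ℝ i) * Y) = 0 := by
  apply bilin_zero
  intro u v
  rw [Finset.mul_sum, Finset.sum_mul, map_sum]
  have : ∀ i : Λ, hat F (wd u * ι ℝ i * wd v) = F (u ++ i :: v) := by
    intro i
    rw [← hat_wd F, wd_append, wd_cons, mul_assoc]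
  simp only [this]
  by_cases h : u.length + v.length + 1 = k
  · exact hc.1 u v h
  · exact Finset.sum_eq_zero (fun i _ => hs _ (by simp; omega))

omit [DecidableEq Λ] [Fintype Λ] in
theorem hat_capD [Fintype Λ] (hc : Cap k F) (hs : Supp k F) (i : Λ) (X Y : FreeAlgebra ℝ Λ) :
    hat F (X * (ι ℝ i * ι ℝ i) * Y) = 0 := by
  apply bilin_zero
  intro u v
  have : hat F (wd u * (ι ℝ i * ι ℝ i) * wd v) = F (u ++ i :: i :: v) := by
    rw [← hat_wd F, wd_append, wd_cons, wd_cons]
    simp only [mul_assoc]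
  rw [this]
  by_cases h : u.length + v.length + 2 = k
  · exact hc.2 u i v h
  · exact hs _ (by simp; omega)

end form

section coef

variable {Λ : Type*} [DecidableEq Λ] [Fintype Λ] (q : Four Λ)

/-- coefficients of the raising letters -/
def Four.flc (j : ℕ) (i : Λ) : ℝ :=
  if j % 2 = 0 then (if i = q.a then 1 else 0) - (if i = q.b then 1 else 0)
  else (if i = q.e then 1 else 0) - (if i = q.d then 1 else 0)

theorem Four.fl_eq (j : ℕ) : q.fl j = ∑ i, q.flc j i • ι ℝ i := by
  unfold Four.fl Four.flc Four.be Four.al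
  split_ifs
  · simp [sub_smul, Finset.sum_sub_distrib]
  · simp [sub_smul, Finset.sum_sub_distrib]

theorem Four.flc_sum (j : ℕ) : ∑ i, q.flc j i = 0 := by
  unfold Four.flc
  split_ifs
  · simp [Finset.sum_sub_distrib]
  · simp [Finset.sum_sub_distrib]

theorem Four.flc_sq (j : ℕ) : ∑ i, q.flc j i * q.flc j i = 2 := by
  have key : ∀ a b : Λ, a ≠ b → ∑ i : Λ, ((if i = a then (1:ℝ) else 0) - (if i = b then 1 else 0)) *
      ((if i = a then (1:ℝ) else 0) - (if i = b then 1 else 0)) = 2 := by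
    intro a b hab
    have : ∀ i : Λ, ((if i = a then (1:ℝ) else 0) - (if i = b then 1 else 0)) *
      ((if i = a then (1:ℝ) else 0) - (if i = b then 1 else 0)) =
        (if i = a then (1:ℝ) else 0) + (if i = b then 1 else 0) := by
      intro i
      have h1 := ind_sq (i = a)
      have h2 := ind_sq (i = b)
      have h3 := ind_mul_zero (i = a) (i = b) (fun h h' => hab (h.symm.trans h'))
      linear_combination h1 + h2 - 2 * h3
    rw [Finset.sum_congr rfl (fun i _ => this i), Finset.sum_add_distrib]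
    simp
    norm_num
  unfold Four.flc
  by_cases hj : j % 2 = 0
  · simp only [if_pos hj]
    exact key _ _ q.hab
  · simp only [if_neg hj]
    exact key _ _ q.hde.symm

theorem Four.flc_mul (j : ℕ) (i : Λ) : q.flc j i * q.flc (j+1) i = 0 := by
  have h1 := ind_mul_zero (i = q.a) (i = q.e) (fun h h' => q.hae (h.symm.trans h'))
  have h2 := ind_mul_zero (i = q.a) (i = q.d) (fun h h' => q.had (h.symm.trans h'))
  have h3 := ind_mul_zero (i = q.b) (i = q.e) (fun h h' => q.hbe (h.symm.trans h'))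
  have h4 := ind_mul_zero (i = q.b) (i = q.d) (fun h h' => q.hbd (h.symm.trans h'))
  unfold Four.flc
  by_cases hj : j % 2 = 0
  · rw [if_pos hj, if_neg (show ¬ (j+1) % 2 = 0 by omega)]
    linear_combination h1 - h2 - h3 + h4
  · rw [if_neg hj, if_pos (show (j+1) % 2 = 0 by omega)]
    linear_combination h1 - h2 - h3 + h4

/-- coefficients of the alternating words -/
def Four.cl : ℕ → List Λ → ℝ
  | _, [] => 1
  | s, (i :: w) => q.flc s i * Four.cl (s+1) w

@[simp] theorem Four.cl_nil (s : ℕ) : q.cl s [] = 1 := rfl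
@[simp] theorem Four.cl_cons (s : ℕ) (i : Λ) (w : List Λ) :
    q.cl s (i :: w) = q.flc s i * q.cl (s+1) w := rfl

theorem Four.cl_append (u v : List Λ) : ∀ s : ℕ, q.cl s (u ++ v) = q.cl s u * q.cl (s + u.length) v := by
  induction u with
  | nil => intro s; simp
  | cons i u ih =>
    intro s
    rw [List.cons_append, q.cl_cons, ih, q.cl_cons, mul_assoc, List.length_cons,
      show s + 1 + u.length = s + (u.length + 1) by ring]

theorem Four.lw_eq (m : ℕ) : ∀ s : ℕ, q.lw s m = wsum m (fun w => q.cl s w • wd w) := by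
  induction m with
  | zero => intro s; simp
  | succ m ih =>
    intro s
    rw [q.lw_cons, ih, q.fl_eq, Finset.sum_mul, wsum_succ]
    refine Finset.sum_congr rfl (fun i _ => ?_)
    rw [← wsum_mul_left]
    refine wsum_congr _ (fun w _ => ?_)
    rw [q.cl_cons, wd_cons, smul_mul_smul_comm]

theorem Four.cl_cap (s m : ℕ) : Cap m (q.cl s) := by
  constructor
  · intro u v _
    simp only [q.cl_append, q.cl_cons]
    rw [← Finset.mul_sum, ← Finset.sum_mul, q.flc_sum, zero_mul, mul_zero]
  · intro u i v _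
    rw [q.cl_append, q.cl_cons, q.cl_cons, ← mul_assoc (q.flc _ i), q.flc_mul, zero_mul, mul_zero]

theorem Four.cl_norm (m : ℕ) : ∀ s : ℕ, wsum m (fun w => q.cl s w * q.cl s w) = 2 ^ m := by
  induction m with
  | zero => intro s; simp
  | succ m ih =>
    intro s
    rw [wsum_succ]
    have : ∀ i, wsum m (fun w => q.cl s (i :: w) * q.cl s (i :: w)) =
        q.flc s i * q.flc s i * 2 ^ m := by
      intro i
      rw [← ih (s+1), ← wsum_mul_left]
      refine wsum_congr _ (fun w _ => ?_)
      rw [q.cl_cons]; ring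
    simp only [this]
    rw [← Finset.sum_mul, q.flc_sq, pow_succ, mul_comm]

theorem Bf_lw_wd (F : List Λ → ℝ) (s m : ℕ) (y : FreeAlgebra ℝ Λ) :
    Bf F (q.lw s m) y = wsum m (fun u => q.cl s u * Bf F (wd u) y) := by
  rw [q.lw_eq, ← BL_apply, map_wsum]
  refine wsum_congr _ (fun w _ => ?_)
  rw [map_smul, BL_apply, smul_eq_mul]

theorem Bf_wd_lw (F : List Λ → ℝ) (s m : ℕ) (x : FreeAlgebra ℝ Λ) :
    Bf F x (q.lw s m) = wsum m (fun u => q.cl s u * Bf F x (wd u)) := by
  rw [q.lw_eq, ← BR_apply, map_wsum]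
  refine wsum_congr _ (fun w _ => ?_)
  rw [map_smul, BR_apply, smul_eq_mul]

variable {q}

theorem wd_mem_Gl {m : ℕ} : ∀ w : List Λ, w.length = m → wd w ∈ q.Gl ((m : ℤ) + 1) := by
  induction m with
  | zero =>
    intro w hw
    obtain rfl := List.length_eq_zero_iff.mp hw
    exact Hm.one.mem_Gl (by norm_num)
  | succ m ih =>
    intro w hw
    obtain ⟨w', i, rfl⟩ : ∃ w' i, w = w' ++ [i] := by
      refine ⟨w.dropLast, w.getLast (by rintro rfl; simp at hw), ?_⟩
      exact (List.dropLast_append_getLast _).symm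
    rw [wd_append, wd_singleton]
    obtain ⟨y, hy, r, r', h⟩ := letter_decomp (q := q) i
    have hw' := ih w' (by simpa using hw)
    rw [h, mul_add, mul_add, mul_smul_comm, mul_smul_comm]
    push_cast
    refine Submodule.add_mem _ (Submodule.add_mem _ ?_ ?_) ?_
    · exact Gl_mono (by omega) (Gl_mul0 hw' (Neu_Hm hy))
    · exact Submodule.smul_mem _ _ (Gl_mul1 (Or.inl rfl) hw' Hm.be)
    · exact Submodule.smul_mem _ _ (Gl_mul1 (Or.inr rfl) hw' Hm.al)

end coef

section quadpair

variable {Λ : Type*} [Fintype Λ] [DecidableEq Λ]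

theorem quad_pair {p r : ℕ} (F y : List Λ → ℝ) {u : List Λ} (hu : u.length = p) :
    wsum p (fun v => quad p r F (u.reverse ++ v) * y v) =
      wsum r (fun w => F (u.reverse ++ w) * wsum p (fun v => y v * F (v.reverse ++ w))) := by
  simp only [← wsum_mul_left]
  rw [wsum_comm]
  refine wsum_congr _ (fun v hv => ?_)
  rw [quad_apply F (by simpa using hu), ← wsum_mul_right]
  refine wsum_congr _ (fun w hw => ?_)
  ring

theorem norm_quad {p r : ℕ} (F G : List Λ → ℝ) :
    wsum p (fun u => wsum p (fun v => G (u.reverse ++ v) * quad p r F (u.reverse ++ v))) =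
      wsum r (fun w => wsum p (fun u => F (u.reverse ++ w) *
        wsum p (fun v => G (u.reverse ++ v) * F (v.reverse ++ w)))) := by
  rw [wsum_comm r p]
  refine wsum_congr _ (fun u hu => ?_)
  simp only [← wsum_mul_left]
  rw [wsum_comm r p]
  refine wsum_congr _ (fun v hv => ?_)
  rw [quad_apply F (by simpa using hu), ← wsum_mul_left]
  refine wsum_congr _ (fun w hw => ?_)
  ring

theorem slice_cap {p r : ℕ} {F : List Λ → ℝ} (hF : Cap (p + r) F) {w : List Λ}
    (hw : w.length = r) : Cap p (fun v => F (v.reverse ++ w)) := by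
  constructor
  · intro u v h
    have := hF.1 v.reverse (u.reverse ++ w) (by simp; omega)
    simpa using this
  · intro u i v h
    have := hF.2 v.reverse i (u.reverse ++ w) (by simp; omega)
    simpa using this

end quadpair

end Run7.h417
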