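import Pool.Agent.Run7.h417.Magic

/-!
The free algebra on the letters, the operators attached to permutations and the skew derivation.
-/

namespace Run7.h417

open FreeAlgebra

section basics

variable {Λ : Type*}

/-- the word `w` as an element of the free algebra -/
noncomputable def wd (w : List Λ) : FreeAlgebra ℝ Λ := (w.map (ι ℝ)).prod

@[simp] theorem wd_nil : wd ([] : List Λ) = 1 := rfl

theorem wd_cons (i : Λ) (w : List Λ) : wd (i :: w) = ι ℝ i * wd w := by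
  simp [wd]

theorem wd_append (u v : List Λ) : wd (u ++ v) = wd u * wd v := by
  simp [wd]

theorem wd_singleton (i : Λ) : wd [i] = ι ℝ i := by simp [wd]

theorem star_smul' (r : ℝ) (x : FreeAlgebra ℝ Λ) : star (r • x) = r • star x := by
  rw [Algebra.smul_def, star_mul, star_algebraMap, Algebra.smul_def, Algebra.commutes]

theorem star_wd (w : List Λ) : star (wd w) = wd w.reverse := by
  induction w with
  | nil => simp
  | cons i w ih => rw [wd_cons, star_mul, ih, star_ι, List.reverse_cons, wd_append, wd_singleton]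

theorem equiv_wd (w : List Λ) : equivMonoidAlgebraFreeMonoid (wd w) =
    MonoidAlgebra.single (FreeMonoid.ofList w) (1:ℝ) := by
  induction w with
  | nil => simp [wd]; rfl
  | cons i w ih =>
    rw [wd_cons, map_mul, ih]
    simp [equivMonoidAlgebraFreeMonoid, MonoidAlgebra.single_mul_single]

theorem basis_eq (w : List Λ) : basisFreeMonoid ℝ Λ (FreeMonoid.ofList w) = wd w := by
  apply (equivMonoidAlgebraFreeMonoid (R := ℝ) (X := Λ)).injective
  rw [equiv_wd]
  unfold basisFreeMonoid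
  rw [Module.Basis.map_apply]
  simp

/-- the linear functional with prescribed values on words -/
noncomputable def hat (F : List Λ → ℝ) : FreeAlgebra ℝ Λ →ₗ[ℝ] ℝ :=
  (basisFreeMonoid ℝ Λ).constr ℝ (fun w => F (FreeMonoid.toList w))

theorem hat_wd (F : List Λ → ℝ) (w : List Λ) : hat F (wd w) = F w := by
  rw [← basis_eq, hat, Module.Basis.constr_basis]
  simp

theorem span_wd : Submodule.span ℝ (Set.range (wd (Λ := Λ))) = ⊤ := by
  rw [← (basisFreeMonoid ℝ Λ).span_eq]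
  congr 1
  ext x
  constructor
  · rintro ⟨w, rfl⟩; exact ⟨w, basis_eq w⟩
  · rintro ⟨w, rfl⟩; exact ⟨w, (basis_eq w).symm⟩

/-- homogeneous elements of degree `m` -/
noncomputable def Wd (m : ℕ) : Submodule ℝ (FreeAlgebra ℝ Λ) :=
  Submodule.span ℝ (wd '' {w : List Λ | w.length = m})

theorem wd_mem {m : ℕ} {w : List Λ} (h : w.length = m) : wd w ∈ Wd m :=
  Submodule.subset_span ⟨w, h, rfl⟩

theorem Wd_induction {m : ℕ} {p : FreeAlgebra ℝ Λ → Prop}
    (h : ∀ w : List Λ, w.length = m → p (wd w)) (h0 : p 0)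
    (ha : ∀ x y, p x → p y → p (x + y)) (hs : ∀ (r : ℝ) x, p x → p (r • x))
    {x : FreeAlgebra ℝ Λ} (hx : x ∈ Wd (Λ := Λ) m) : p x := by
  induction hx using Submodule.span_induction with
  | mem x hx => obtain ⟨w, hw, rfl⟩ := hx; exact h w hw
  | zero => exact h0
  | add x y _ _ hx hy => exact ha x y hx hy
  | smul a x _ hx => exact hs a x hx

theorem Wd_ext {m : ℕ} {M : Type*} [AddCommGroup M] [Module ℝ M] {f g : FreeAlgebra ℝ Λ →ₗ[ℝ] M}
    (h : ∀ w : List Λ, w.length = m → f (wd w) = g (wd w))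
    {x : FreeAlgebra ℝ Λ} (hx : x ∈ Wd (Λ := Λ) m) : f x = g x := by
  refine Wd_induction (p := fun x => f x = g x) h (by simp) ?_ ?_ hx
  · intro x y hx hy; simp only [map_add, hx, hy]
  · intro r x hx; simp only [map_smul, hx]

theorem Wd_mul {p q : ℕ} {x y : FreeAlgebra ℝ Λ} (hx : x ∈ Wd (Λ := Λ) p)
    (hy : y ∈ Wd (Λ := Λ) q) : x * y ∈ Wd (Λ := Λ) (p + q) := by
  refine Wd_induction (p := fun x => x * y ∈ Wd (Λ := Λ) (p + q)) ?_ (by simp) ?_ ?_ hx
  · intro u hu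
    refine Wd_induction (p := fun y => wd u * y ∈ Wd (Λ := Λ) (p + q)) ?_ (by simp) ?_ ?_ hy
    · intro v hv
      rw [← wd_append]; exact wd_mem (by simp; omega)
    · intro a b ha hb; rw [mul_add]; exact Submodule.add_mem _ ha hb
    · intro r a ha; rw [mul_smul_comm]; exact Submodule.smul_mem _ _ ha
  · intro a b ha hb; rw [add_mul]; exact Submodule.add_mem _ ha hb
  · intro r a ha; rw [smul_mul_assoc]; exact Submodule.smul_mem _ _ ha

theorem Wd_one : (1 : FreeAlgebra ℝ Λ) ∈ Wd (Λ := Λ) 0 := wd_mem (w := []) rfl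

theorem Wd_ι (i : Λ) : ι ℝ i ∈ Wd (Λ := Λ) 1 := by
  rw [← wd_singleton]; exact wd_mem rfl

theorem Wd_star {p : ℕ} {x : FreeAlgebra ℝ Λ} (hx : x ∈ Wd (Λ := Λ) p) :
    star x ∈ Wd (Λ := Λ) p := by
  refine Wd_induction (p := fun x => star x ∈ Wd (Λ := Λ) p) ?_ (by simp) ?_ ?_ hx
  · intro u hu; rw [star_wd]; exact wd_mem (by simpa using hu)
  · intro a b ha hb; rw [star_add]; exact Submodule.add_mem _ ha hb
  · intro r a ha; rw [star_smul']; exact Submodule.smul_mem _ _ ha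

/-- the action of permutations -/
noncomputable def rho (g : Equiv.Perm Λ) : FreeAlgebra ℝ Λ →ₐ[ℝ] FreeAlgebra ℝ Λ :=
  FreeAlgebra.lift ℝ (fun i => ι ℝ (g i))

@[simp] theorem rho_ι (g : Equiv.Perm Λ) (i : Λ) : rho g (ι ℝ i) = ι ℝ (g i) := by
  simp [rho]

theorem rho_wd (g : Equiv.Perm Λ) (w : List Λ) : rho g (wd w) = wd (w.map g) := by
  induction w with
  | nil => simp
  | cons i w ih => rw [wd_cons, map_mul, ih, rho_ι, List.map_cons, wd_cons]

theorem Wd_rho (g : Equiv.Perm Λ) {p : ℕ} {x : FreeAlgebra ℝ Λ} (hx : x ∈ Wd (Λ := Λ) p) :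
    rho g x ∈ Wd (Λ := Λ) p := by
  refine Wd_induction (p := fun x => rho g x ∈ Wd (Λ := Λ) p) ?_ (by simp) ?_ ?_ hx
  · intro u hu; rw [rho_wd]; exact wd_mem (by simpa using hu)
  · intro a b ha hb; rw [map_add]; exact Submodule.add_mem _ ha hb
  · intro r a ha; rw [map_smul]; exact Submodule.smul_mem _ _ ha

theorem rho_star (g : Equiv.Perm Λ) (x : FreeAlgebra ℝ Λ) : rho g (star x) = star (rho g x) := by
  induction x using FreeAlgebra.induction with
  | grade0 r => simp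
  | grade1 i => simp
  | mul a b ha hb => rw [star_mul, map_mul, ha, hb, map_mul, star_mul]
  | add a b ha hb => rw [star_add, map_add, ha, hb, map_add, star_add]

theorem rho_rho (g h : Equiv.Perm Λ) (x : FreeAlgebra ℝ Λ) : rho g (rho h x) = rho (g * h) x := by
  have : (rho g).comp (rho h) = rho (g * h) := by
    apply FreeAlgebra.hom_ext
    funext i
    simp
  rw [← this]; rfl

@[simp] theorem rho_one (x : FreeAlgebra ℝ Λ) : rho (1 : Equiv.Perm Λ) x = x := by
  have : (rho (1 : Equiv.Perm Λ)) = AlgHom.id ℝ (FreeAlgebra ℝ Λ) := by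
    apply FreeAlgebra.hom_ext
    funext i
    simp
  rw [this]; rfl

end basics

/-- Four distinct letters. -/
structure Four (Λ : Type*) where
  a : Λ
  b : Λ
  d : Λ
  e : Λ
  hab : a ≠ b
  had : a ≠ d
  hae : a ≠ e
  hbd : b ≠ d
  hbe : b ≠ e
  hde : d ≠ e

section deriv

variable {Λ : Type*} [DecidableEq Λ] (q : Four Λ)

/-- the double transposition -/
def Four.x : Equiv.Perm Λ := Equiv.swap q.a q.b * Equiv.swap q.d q.e

theorem Four.xa : q.x q.a = q.b := by
  simp [Four.x, Equiv.swap_apply_of_ne_of_ne q.had q.hae]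
theorem Four.xb : q.x q.b = q.a := by
  simp [Four.x, Equiv.swap_apply_of_ne_of_ne q.hbd q.hbe]
theorem Four.xd : q.x q.d = q.e := by
  simp [Four.x, Equiv.swap_apply_of_ne_of_ne q.hae.symm q.hbe.symm]
theorem Four.xe : q.x q.e = q.d := by
  simp [Four.x, Equiv.swap_apply_of_ne_of_ne q.had.symm q.hbd.symm]
theorem Four.xo {i : Λ} (ha : i ≠ q.a) (hb : i ≠ q.b) (hd : i ≠ q.d) (he : i ≠ q.e) :
    q.x i = i := by
  simp [Four.x, Equiv.swap_apply_of_ne_of_ne ha hb, Equiv.swap_apply_of_ne_of_ne hd he]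

theorem Four.xx : q.x * q.x = 1 := by
  ext i
  by_cases ha : i = q.a
  · subst ha; simp [q.xa, q.xb]
  by_cases hb : i = q.b
  · subst hb; simp [q.xa, q.xb]
  by_cases hd : i = q.d
  · subst hd; simp [q.xd, q.xe]
  by_cases he : i = q.e
  · subst he; simp [q.xd, q.xe]
  simp [q.xo ha hb hd he]

/-- the skew derivation on letters -/
noncomputable def Four.Pe (i : Λ) : FreeAlgebra ℝ Λ :=
  if i = q.a then (1/2 : ℝ) • (ι ℝ q.a - ι ℝ q.b)
  else if i = q.b then (1/2 : ℝ) • (ι ℝ q.b - ι ℝ q.a)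
  else if i = q.d then (1/2 : ℝ) • (ι ℝ q.e - ι ℝ q.d)
  else if i = q.e then (1/2 : ℝ) • (ι ℝ q.d - ι ℝ q.e)
  else 0

theorem Four.Pe_a : q.Pe q.a = (1/2 : ℝ) • (ι ℝ q.a - ι ℝ q.b) := by simp [Four.Pe]
theorem Four.Pe_b : q.Pe q.b = (1/2 : ℝ) • (ι ℝ q.b - ι ℝ q.a) := by
  simp [Four.Pe, q.hab.symm]
theorem Four.Pe_d : q.Pe q.d = (1/2 : ℝ) • (ι ℝ q.e - ι ℝ q.d) := by
  simp [Four.Pe, q.had.symm, q.hbd.symm]
theorem Four.Pe_e : q.Pe q.e = (1/2 : ℝ) • (ι ℝ q.d - ι ℝ q.e) := by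
  simp [Four.Pe, q.hae.symm, q.hbe.symm, q.hde.symm]
theorem Four.Pe_o {i : Λ} (ha : i ≠ q.a) (hb : i ≠ q.b) (hd : i ≠ q.d) (he : i ≠ q.e) :
    q.Pe i = 0 := by
  simp [Four.Pe, ha, hb, hd, he]

/-- the triangular representation defining the skew derivation -/
noncomputable def Four.Phi : FreeAlgebra ℝ Λ →ₐ[ℝ] Matrix (Fin 2) (Fin 2) (FreeAlgebra ℝ Λ) :=
  FreeAlgebra.lift ℝ (fun i => !![ι ℝ (q.x i), q.Pe i; 0, ι ℝ i])

theorem Four.Phi_ι (i : Λ) : q.Phi (ι ℝ i) = !![ι ℝ (q.x i), q.Pe i; 0, ι ℝ i] := by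
  simp [Four.Phi]

/-- the skew derivation -/
noncomputable def Four.Pop : FreeAlgebra ℝ Λ →ₗ[ℝ] FreeAlgebra ℝ Λ where
  toFun x := q.Phi x 0 1
  map_add' x y := by simp
  map_smul' r x := by simp

theorem Four.Phi_entries (x : FreeAlgebra ℝ Λ) :
    q.Phi x 0 0 = rho q.x x ∧ q.Phi x 1 0 = 0 ∧ q.Phi x 1 1 = x := by
  induction x using FreeAlgebra.induction with
  | grade0 r => simp [Matrix.algebraMap_matrix_apply]
  | grade1 i => simp [q.Phi_ι]
  | mul a b ha hb =>
    simp only [map_mul, Matrix.mul_apply, Fin.sum_univ_two, ha.1, ha.2.1, ha.2.2, hb.1, hb.2.1,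
      hb.2.2]
    simp
  | add a b ha hb =>
    simp only [map_add, Matrix.add_apply, ha.1, ha.2.1, ha.2.2, hb.1, hb.2.1, hb.2.2]
    simp

theorem Four.Pop_mul (x y : FreeAlgebra ℝ Λ) :
    q.Pop (x * y) = rho q.x x * q.Pop y + q.Pop x * y := by
  change q.Phi (x * y) 0 1 = _
  rw [map_mul, Matrix.mul_apply, Fin.sum_univ_two, (q.Phi_entries x).1, (q.Phi_entries y).2.2]
  rfl

@[simp] theorem Four.Pop_ι (i : Λ) : q.Pop (ι ℝ i) = q.Pe i := by
  change q.Phi (ι ℝ i) 0 1 = _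
  rw [q.Phi_ι]; simp

@[simp] theorem Four.Pop_one : q.Pop 1 = 0 := by
  change q.Phi 1 0 1 = _
  rw [map_one]; simp

end deriv

end Run7.h417
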