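import Pool.Agent.Run7.h417.Generic

/-!
Existence of the magic matrix of projections on `Fin n`.
-/

namespace Run7.h417

set_option linter.unusedSectionVars false

open Equiv Equiv.Perm

section gen

theorem star_top {α : Type*} [DecidableEq α] [Finite α] (G : Subgroup (Perm α)) (v : α)
    (h : ∀ j, j ≠ v → swap j v ∈ G) : G = ⊤ := by
  rw [eq_top_iff, ← closure_isSwap, Subgroup.closure_le]
  rintro g ⟨x, y, hxy, rfl⟩
  by_cases hx : x = v
  · subst hx; rw [swap_comm]; exact h y (Ne.symm hxy)
  by_cases hy : y = v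
  · subst hy; exact h x hx
  have e : swap x y = swap x v * swap y v * (swap x v)⁻¹ := by
    rw [← swap_apply_apply, swap_apply_right, swap_apply_of_ne_of_ne (Ne.symm hxy) hy, swap_comm]
  rw [e]
  exact G.mul_mem (G.mul_mem (h x hx) (h y hy)) (G.inv_mem (h x hx))

theorem conj_swap_mem {α : Type*} [DecidableEq α] (G : Subgroup (Perm α)) {g : Perm α}
    (hg : g ∈ G) {a b : α} (h : swap a b ∈ G) : swap (g a) (g b) ∈ G := by
  rw [swap_apply_apply]
  exact G.mul_mem (G.mul_mem hg h) (G.inv_mem hg)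

theorem gen_aux {n : ℕ} [NeZero n] (G : Subgroup (Perm (Fin n))) (i : Fin n) (hi0 : i ≠ 0)
    (hi : Even (i : ℕ)) (u v : Fin n) (hu : i < u) (hv : i < v)
    (hτ : swap u v * Fin.cycleRange i ∈ G) {x : Perm (Fin n)} (hx : x ∈ G) (hxu : x u = 0)
    (hxv : x v = v) : (∀ j ≤ i, swap j v ∈ G) ∧ swap u v ∈ G := by
  have hdis : Equiv.Perm.Disjoint (swap u v) (Fin.cycleRange i) := by
    intro y
    rcases lt_or_ge i y with h | h
    · right; exact Fin.cycleRange_of_gt h
    · left
      refine swap_apply_of_ne_of_ne ?_ ?_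
      · rintro rfl; exact absurd hu (not_lt.mpr h)
      · rintro rfl; exact absurd hv (not_lt.mpr h)
  have hcomm : Commute (swap u v) (Fin.cycleRange i) := hdis.commute
  have hord : (Fin.cycleRange i) ^ ((i : ℕ) + 1) = 1 := by
    have : orderOf (Fin.cycleRange i) = (i : ℕ) + 1 := by
      rw [← lcm_cycleType, Fin.cycleType_cycleRange hi0]
      simp
    rw [← this]
    exact pow_orderOf_eq_one _
  have ht : swap u v ∈ G := by
    have h1 := G.pow_mem hτ ((i : ℕ) + 1)
    rw [hcomm.mul_pow, hord, mul_one] at h1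
    obtain ⟨r, hr⟩ := hi
    rw [hr, pow_succ, ← two_mul, pow_mul, pow_two, swap_mul_self, one_pow, one_mul] at h1
    exact h1
  have hc : Fin.cycleRange i ∈ G := by
    have h1 := G.mul_mem (G.inv_mem ht) hτ
    rwa [inv_mul_cancel_left] at h1
  refine ⟨?_, ht⟩
  have key : ∀ m : ℕ, ∀ j : Fin n, (j : ℕ) = m → j ≤ i → swap j v ∈ G := by
    intro m
    induction m with
    | zero =>
      intro j hj _
      have : j = 0 := by
        apply Fin.ext; rw [hj]; simp
      rw [this, ← hxu]
      have := conj_swap_mem G hx ht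
      rwa [hxv] at this
    | succ m ih =>
      intro j hj hji
      have hji' : (j : ℕ) ≤ (i : ℕ) := hji
      have hlt : m < n := by have := j.2; omega
      have h1 := ih ⟨m, hlt⟩ rfl (by rw [Fin.le_def]; simp; omega)
      have h2 := conj_swap_mem G hc h1
      rw [Fin.cycleRange_of_gt hv] at h2
      have h3 : Fin.cycleRange i ⟨m, hlt⟩ = j := by
        apply Fin.ext
        rw [Fin.coe_cycleRange_of_lt (by rw [Fin.lt_def]; simp; omega)]
        simp; omega
      rwa [h3] at h2
  exact fun j hj => key j j rfl hj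

end gen

section exist

/-- the conclusion we are after -/
def HasP (Λ : Type*) [DecidableEq Λ] [Fintype Λ] : Prop :=
  ∃ P : Λ → Λ → Matrix (Fin 2) (Fin 2) ℝ, IsMagic P ∧
      (∀ i j, (P i j).transpose = P i j) ∧ ∀ k (F : List Λ → ℝ), FixedBy P k F → TT k F

theorem hasP_of_closure {Λ : Type*} [DecidableEq Λ] [Fintype Λ] (q : Four Λ) (ho : ∃ c, Oth q c)
    (τ : Perm Λ) (h : Subgroup.closure {q.x, τ} = ⊤) : HasP Λ := by
  apply generic q τ
  intro k F hF
  rw [h] at hF
  refine main5 ho k F ⟨fun g _ => hF.1 g (by simp), hF.2⟩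

theorem hasP_odd (r : ℕ) : HasP (Fin (2 * r + 5)) := by
  let q : Four (Fin (2 * r + 5)) :=
    { a := ⟨0, by omega⟩, b := ⟨2 * r + 3, by omega⟩, d := ⟨1, by omega⟩, e := ⟨2, by omega⟩
      hab := by rw [Ne, Fin.ext_iff]; simp
      had := by rw [Ne, Fin.ext_iff]; simp
      hae := by rw [Ne, Fin.ext_iff]; simp
      hbd := by rw [Ne, Fin.ext_iff]; simp
      hbe := by rw [Ne, Fin.ext_iff]; simp
      hde := by rw [Ne, Fin.ext_iff]; simp }
  let i : Fin (2 * r + 5) := ⟨2 * r + 2, by omega⟩
  let u : Fin (2 * r + 5) := ⟨2 * r + 3, by omega⟩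
  let v : Fin (2 * r + 5) := ⟨2 * r + 4, by omega⟩
  have hva : v ≠ q.a := by rw [Ne, Fin.ext_iff]; simp [v, q]
  have hvb : v ≠ q.b := by rw [Ne, Fin.ext_iff]; simp [v, q]
  have hvd : v ≠ q.d := by rw [Ne, Fin.ext_iff]; simp [v, q]
  have hve : v ≠ q.e := by rw [Ne, Fin.ext_iff]; simp [v, q]
  refine hasP_of_closure q ⟨v, hva, hvb, hvd, hve⟩ (swap u v * Fin.cycleRange i) ?_
  set G := Subgroup.closure {q.x, swap u v * Fin.cycleRange i} with hG
  obtain ⟨h1, h2⟩ := gen_aux G i (by rw [Ne, Fin.ext_iff]; simp [i])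
    ⟨r + 1, by simp [i]; ring⟩ u v (by rw [Fin.lt_def]; simp [i, u]) (by rw [Fin.lt_def]; simp [i, v])
    (Subgroup.subset_closure (by simp)) (x := q.x) (Subgroup.subset_closure (by simp))
    q.xb (q.xo hva hvb hvd hve)
  apply star_top G v
  intro j hj
  rcases lt_trichotomy (j : ℕ) (2 * r + 3) with h | h | h
  · exact h1 j (by rw [Fin.le_def]; simp [i]; omega)
  · have : j = u := Fin.ext h
    rw [this]; exact h2
  · exact absurd (Fin.ext (by have := j.2; simp [v]; omega)) hj

theorem hasP_even (r : ℕ) : HasP (Fin (2 * r + 6)) := by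
  let q : Four (Fin (2 * r + 6)) :=
    { a := ⟨0, by omega⟩, b := ⟨2 * r + 3, by omega⟩, d := ⟨1, by omega⟩, e := ⟨2 * r + 5, by omega⟩
      hab := by rw [Ne, Fin.ext_iff]; simp
      had := by rw [Ne, Fin.ext_iff]; simp
      hae := by rw [Ne, Fin.ext_iff]; simp
      hbd := by rw [Ne, Fin.ext_iff]; simp
      hbe := by rw [Ne, Fin.ext_iff]; simp
      hde := by rw [Ne, Fin.ext_iff]; simp }
  let i : Fin (2 * r + 6) := ⟨2 * r + 2, by omega⟩
  let u : Fin (2 * r + 6) := ⟨2 * r + 3, by omega⟩
  let v : Fin (2 * r + 6) := ⟨2 * r + 4, by omega⟩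
  have hva : v ≠ q.a := by rw [Ne, Fin.ext_iff]; simp [v, q]
  have hvb : v ≠ q.b := by rw [Ne, Fin.ext_iff]; simp [v, q]
  have hvd : v ≠ q.d := by rw [Ne, Fin.ext_iff]; simp [v, q]
  have hve : v ≠ q.e := by rw [Ne, Fin.ext_iff]; simp [v, q]
  refine hasP_of_closure q ⟨v, hva, hvb, hvd, hve⟩ (swap u v * Fin.cycleRange i) ?_
  set G := Subgroup.closure {q.x, swap u v * Fin.cycleRange i} with hG
  have hxG : q.x ∈ G := Subgroup.subset_closure (by simp)
  have hxv : q.x v = v := q.xo hva hvb hvd hve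
  obtain ⟨h1, h2⟩ := gen_aux G i (by rw [Ne, Fin.ext_iff]; simp [i])
    ⟨r + 1, by simp [i]; ring⟩ u v (by rw [Fin.lt_def]; simp [i, u]) (by rw [Fin.lt_def]; simp [i, v])
    (Subgroup.subset_closure (by simp)) hxG q.xb hxv
  apply star_top G v
  intro j hj
  rcases lt_trichotomy (j : ℕ) (2 * r + 3) with h | h | h
  · exact h1 j (by rw [Fin.le_def]; simp [i]; omega)
  · have : j = u := Fin.ext h
    rw [this]; exact h2
  · have hj5 : j = q.e := by
      have hjv : (j : ℕ) ≠ 2 * r + 4 := fun h => hj (Fin.ext h)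
      have := j.2
      exact Fin.ext (by simp [q]; omega)
    have h3 := conj_swap_mem G hxG (h1 q.d (by rw [Fin.le_def]; simp [i, q]))
    rw [hxv, q.xd] at h3
    rw [hj5]; exact h3

theorem hasP_four : HasP (Fin 4) := by
  let q : Four (Fin 4) :=
    { a := 0, b := 1, d := 2, e := 3
      hab := by decide, had := by decide, hae := by decide
      hbd := by decide, hbe := by decide, hde := by decide }
  let τ : Perm (Fin 4) := swap 1 2 * swap 2 3
  apply generic q τ
  intro k F hF
  refine main4 ?_ (g := τ) (Subgroup.subset_closure (by simp)) (by decide) (by decide) k F hF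
  intro i hi
  have h0 : i ≠ 0 := hi.a
  have h1 : i ≠ 1 := hi.b
  have h2 : i ≠ 2 := hi.d
  have h3 : i ≠ 3 := hi.e
  omega

/-- the diagonal magic matrix given by two permutations -/
def diagP {n : ℕ} (σ τ : Perm (Fin n)) (i j : Fin n) : Matrix (Fin 2) (Fin 2) ℝ :=
  !![if σ i = j then 1 else 0, 0; 0, if τ i = j then 1 else 0]

theorem dg_mul (a d a' d' : ℝ) :
    (!![a, 0; 0, d] : Matrix (Fin 2) (Fin 2) ℝ) * !![a', 0; 0, d'] = !![a * a', 0; 0, d * d'] := by
  ext r s; fin_cases r <;> fin_cases s <;> simp [Matrix.mul_apply, Fin.sum_univ_two]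

theorem dg_zero : (!![0, 0; 0, 0] : Matrix (Fin 2) (Fin 2) ℝ) = 0 := by
  ext r s; fin_cases r <;> fin_cases s <;> simp

theorem diagP_magic {n : ℕ} (σ τ : Perm (Fin n)) : IsMagic (diagP σ τ) where
  idem i j := by
    unfold diagP
    rw [dg_mul, ind_sq, ind_sq]
  row i j k h := by
    unfold diagP
    rw [dg_mul, ind_mul_zero _ _ (fun h1 h2 => h (h1.symm.trans h2)),
      ind_mul_zero _ _ (fun h1 h2 => h (h1.symm.trans h2)), dg_zero]
  col i j k h := by
    unfold diagP
    rw [dg_mul, ind_mul_zero _ _ (fun h1 h2 => h (σ.injective (h1.trans h2.symm))),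
      ind_mul_zero _ _ (fun h1 h2 => h (τ.injective (h1.trans h2.symm))), dg_zero]
  rowsum i := by
    ext r s
    rw [Matrix.sum_apply]
    fin_cases r <;> fin_cases s <;> simp [diagP]
  colsum j := by
    ext r s
    rw [Matrix.sum_apply]
    have h1 : ∀ (g : Perm (Fin n)) i, (g i = j) = (i = g⁻¹ j) := by
      intro g i
      apply propext
      constructor
      · rintro rfl; simp
      · rintro rfl; simp
    fin_cases r <;> fin_cases s <;> simp [diagP, h1]

theorem diagP_entries {n : ℕ} (σ τ : Perm (Fin n)) : ∀ v j : List (Fin n), v.length = j.length →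
    mon (diagP σ τ) v j = !![if v.map σ = j then 1 else 0, 0; 0, if v.map τ = j then 1 else 0]
  | [], [], _ => by
    ext r s; fin_cases r <;> fin_cases s <;> simp
  | (i :: v), (l :: j), h => by
    rw [mon_cons, diagP_entries σ τ v j (by simpa using h)]
    unfold diagP
    rw [dg_mul]
    congr 1
    have key : ∀ g : Perm (Fin n), (if g i = l then (1:ℝ) else 0) *
        (if v.map g = j then 1 else 0) = if (i :: v).map g = l :: j then 1 else 0 := by
      intro g
      by_cases e1 : g i = l <;> by_cases e2 : v.map g = j <;> simp [e1, e2]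
    rw [key, key]
  | [], (_ :: _), h => by simp at h
  | (_ :: _), [], h => by simp at h

theorem hasP_diag {n : ℕ} (σ τ : Perm (Fin n)) (hG : Subgroup.closure {σ, τ} = ⊤)
    (H : ∀ k (F : List (Fin n) → ℝ), PInv Set.univ k F → TT k F) : HasP (Fin n) := by
  refine ⟨diagP σ τ, diagP_magic σ τ, ?_, ?_⟩
  · intro i j
    ext r s; fin_cases r <;> fin_cases s <;> simp [diagP]
  · intro k F hF
    apply H
    have h1 : ∀ g : Perm (Fin n), (∃ r : Fin 2, ∀ v j : List (Fin n), v.length = j.length →
        mon (diagP σ τ) v j r r = if v.map g = j then 1 else 0) → g ∈ stab k F := by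
      rintro g ⟨r, hr⟩ w hw
      have h2 := congrArg (fun M : Matrix (Fin 2) (Fin 2) ℝ => M r r) (hF w hw)
      simp only [wsum_matrix_apply, Matrix.smul_apply, Matrix.one_apply_eq, smul_eq_mul,
        mul_one] at h2
      rw [← h2]
      have : wsum k (fun j => F j * mon (diagP σ τ) w j r r) =
          wsum k (fun j => (if w.map g = j then 1 else 0) * F j) := by
        refine wsum_congr _ (fun j hj => ?_)
        rw [hr w j (by omega), mul_comm]
      rw [this, wsum_ite_eq (by simpa using hw)]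
    have hle : Subgroup.closure {σ, τ} ≤ stab k F := by
      rw [Subgroup.closure_le]
      rintro g (rfl | rfl)
      · exact h1 g ⟨0, fun v j h => by rw [diagP_entries _ _ v j h]; simp⟩
      · exact h1 g ⟨1, fun v j h => by rw [diagP_entries _ _ v j h]; simp⟩
    intro g _
    exact hle (by rw [hG]; trivial)

theorem hasP_zero : HasP (Fin 0) :=
  hasP_diag 1 1 (by rw [eq_top_iff]; intro g _; rw [Subsingleton.elim g 1]; exact one_mem _) small0

theorem hasP_one : HasP (Fin 1) :=
  hasP_diag 1 1 (by rw [eq_top_iff]; intro g _; rw [Subsingleton.elim g 1]; exact one_mem _) small1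

theorem hasP_two : HasP (Fin 2) := by
  refine hasP_diag (swap 0 1) (swap 0 1) (star_top _ 1 ?_) small2
  intro j hj
  have : j = 0 := by omega
  rw [this]
  exact Subgroup.subset_closure (by simp)

theorem hasP_three : HasP (Fin 3) := by
  refine hasP_diag (swap 0 2) (swap 1 2) (star_top _ 2 ?_) small3
  intro j hj
  have : j = 0 ∨ j = 1 := by omega
  rcases this with rfl | rfl
  · exact Subgroup.subset_closure (by simp)
  · exact Subgroup.subset_closure (by simp)

/-- For every `n` there is a magic matrix of two by two real orthogonal projections all of whose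
fixed functions are noncrossing. -/
theorem hasP (n : ℕ) : HasP (Fin n) := by
  rcases Nat.lt_or_ge n 5 with h | h
  · interval_cases n
    · exact hasP_zero
    · exact hasP_one
    · exact hasP_two
    · exact hasP_three
    · exact hasP_four
  · rcases Nat.even_or_odd' n with ⟨r, rfl | rfl⟩
    · obtain ⟨s, hs⟩ : ∃ s, 2 * r = 2 * s + 6 := ⟨r - 3, by omega⟩
      rw [hs]; exact hasP_even s
    · obtain ⟨s, hs⟩ : ∃ s, 2 * r + 1 = 2 * s + 5 := ⟨r - 2, by omega⟩
      rw [hs]; exact hasP_odd s

end exist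

end Run7.h417
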