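import Mathlib

/-!
Polynomial families of linear maps: the kernel is generically minimal.
-/

namespace Run7.h417

open Polynomial

theorem generic_kernel {V : Type*} [AddCommGroup V] [Module ℝ V] [FiniteDimensional ℝ V]
    {ι : Type*} [Fintype ι] [DecidableEq ι] (A : V →ₗ[ℝ] (ι → ℝ[X])) (K : Submodule ℝ V)
    (h1 : ∀ v ∈ K, A v = 0) (h2 : ∀ v, (∀ i, (A v i).eval 0 = 0) → v ∈ K) :
    {s : ℝ | ∃ v, v ∉ K ∧ ∀ i, (A v i).eval s = 0}.Finite := by
  classical
  obtain ⟨C, hC⟩ := K.exists_isCompl
  let ev : ℝ → ((ι → ℝ[X]) →ₗ[ℝ] (ι → ℝ)) := fun s =>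
    LinearMap.pi (fun i => (Polynomial.leval s).comp (LinearMap.proj i))
  have hev : ∀ s f i, ev s f i = (f i).eval s := fun s f i => rfl
  let A0 : C →ₗ[ℝ] (ι → ℝ) := (ev 0).comp (A.comp C.subtype)
  have hinj : LinearMap.ker A0 = ⊥ := by
    rw [LinearMap.ker_eq_bot']
    intro c hc
    have h3 : (c : V) ∈ K := h2 _ (fun i => congrFun hc i)
    have h4 := Submodule.disjoint_def.mp hC.disjoint (c : V) h3 c.2
    exact Subtype.ext h4
  obtain ⟨B, hB⟩ := LinearMap.exists_leftInverse_of_injective A0 hinj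
  let b := Module.finBasis ℝ C
  let M : Matrix (Fin (Module.finrank ℝ C)) (Fin (Module.finrank ℝ C)) ℝ[X] :=
    fun j l => ∑ i, Polynomial.C (b.repr (B (Pi.single i 1)) j) * A (b l) i
  have hM : ∀ s j l, (M j l).eval s = b.repr (B (ev s (A (b l)))) j := by
    intro s j l
    have e : ev s (A (b l)) = ∑ i, ((A (b l) i).eval s) • Pi.single i (1:ℝ) := by
      ext i'
      simp [hev, Finset.sum_apply, Pi.single_apply]
    rw [e, map_sum, map_sum, Finsupp.coe_finsetSum, Finset.sum_apply, Polynomial.eval_finsetSum]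
    refine Finset.sum_congr rfl (fun i _ => ?_)
    rw [map_smul, map_smul]
    simp [mul_comm]
  have hdet0 : (M.det).eval 0 = 1 := by
    have : (M.det).eval 0 = (M.map (Polynomial.evalRingHom 0)).det := by
      rw [← RingHom.mapMatrix_apply, ← RingHom.map_det]; rfl
    rw [this]
    have e : M.map (Polynomial.evalRingHom 0) = 1 := by
      ext j l
      rw [Matrix.map_apply, Polynomial.coe_evalRingHom, hM]
      have : B (ev 0 (A (b l))) = b l := congrArg (fun f => f (b l)) hB
      rw [this, Module.Basis.repr_self, Finsupp.single_apply, Matrix.one_apply]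
      simp [eq_comm]
    rw [e, Matrix.det_one]
  have hdet : M.det ≠ 0 := by
    intro h
    rw [h] at hdet0
    simp at hdet0
  refine (M.det.roots.toFinset.finite_toSet).subset ?_
  rintro s ⟨v, hv, hs⟩
  rw [Finset.mem_coe, Multiset.mem_toFinset, Polynomial.mem_roots hdet, Polynomial.IsRoot.def]
  by_contra hdets
  apply hv
  obtain ⟨k, hk, c, hc, rfl⟩ := Submodule.mem_sup.mp
    (hC.codisjoint.eq_top ▸ Submodule.mem_top : v ∈ K ⊔ C)
  have hAc : ∀ i, (A c i).eval s = 0 := by
    intro i
    have := hs i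
    rwa [map_add, h1 k hk, zero_add] at this
  have hc0 : (⟨c, hc⟩ : C) = 0 := by
    have h5 : (M.map (Polynomial.evalRingHom s)).mulVec (b.repr ⟨c, hc⟩) = 0 := by
      ext j
      rw [Matrix.mulVec, dotProduct, Pi.zero_apply]
      have e : ∑ l, b.repr ⟨c, hc⟩ l • b l = (⟨c, hc⟩ : C) := b.sum_repr _
      have e2 : b.repr (B (ev s (A c))) j = 0 := by
        have : ev s (A c) = 0 := by
          ext i; exact hAc i
        rw [this]; simp
      rw [← e2]
      have e3 : A c = ∑ l, b.repr ⟨c, hc⟩ l • A (b l) := by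
        have := congrArg (fun x : C => A (x : V)) e
        simp only [Submodule.coe_sum, Submodule.coe_smul, map_sum, map_smul] at this
        exact this.symm
      rw [e3, map_sum, map_sum, map_sum, Finsupp.coe_finsetSum, Finset.sum_apply]
      refine Finset.sum_congr rfl (fun l _ => ?_)
      rw [map_smul, map_smul, map_smul, Finsupp.smul_apply, Matrix.map_apply,
        Polynomial.coe_evalRingHom, hM, smul_eq_mul, mul_comm]
    have h6 : (M.map (Polynomial.evalRingHom s)).det ≠ 0 := by
      rw [← RingHom.mapMatrix_apply, ← RingHom.map_det]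
      exact hdets
    have h7 := Matrix.eq_zero_of_mulVec_eq_zero h6 h5
    apply b.repr.injective
    rw [map_zero]
    ext l
    exact congrFun h7 l
  have : c = 0 := congrArg Subtype.val hc0
  rw [this, add_zero]
  exact hk

end Run7.h417
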