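import Pool.Agent.Run7.h417.Small
import Pool.Agent.Run7.h417.LinAlg

/-!
A generic member of a family of magic matrices has only noncrossing fixed functions.
-/

namespace Run7.h417

open Polynomial

set_option linter.unusedSectionVars false

section blk

variable {Λ : Type*} [DecidableEq Λ] [Fintype Λ] {R : Type*} [Ring R]

/-- the magic matrix attached to an involution and a family of idempotents -/
def blk (x : Equiv.Perm Λ) (e : Λ → R) (i j : Λ) : R :=
  (if i = j then e i else 0) + (if x i = j then 1 - e i else 0)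

theorem blk_magic {x : Equiv.Perm Λ} (hx : ∀ i, x (x i) = i) {e : Λ → R}
    (h1 : ∀ i, e i * e i = e i) (h2 : ∀ i, e (x i) = e i) : IsMagic (blk x e) where
  idem i j := by
    unfold blk
    have h3 := h1 i
    by_cases h : i = j
    · by_cases h' : x i = j
      · rw [if_pos h, if_pos h']; simp
      · rw [if_pos h, if_neg h', add_zero, h3]
    · by_cases h' : x i = j
      · rw [if_neg h, if_pos h', zero_add]
        rw [mul_sub, sub_mul, sub_mul, h3]; simp
      · rw [if_neg h, if_neg h']; simp
  row i j k hjk := by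
    unfold blk
    have h3 := h1 i
    have h4 : e i * (1 - e i) = 0 := by rw [mul_sub, h3, mul_one, sub_self]
    have h5 : (1 - e i) * e i = 0 := by rw [sub_mul, h3, one_mul, sub_self]
    by_cases h : i = j
    · have hk : ¬ i = k := fun h' => hjk (h.symm.trans h')
      rw [if_pos h, if_neg hk, zero_add]
      by_cases h' : x i = k
      · have : ¬ x i = j := fun h'' => hjk (h''.symm.trans h')
        rw [if_pos h', if_neg this, add_zero, h4]
      · rw [if_neg h', mul_zero]
    · rw [if_neg h, zero_add]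
      by_cases h' : x i = j
      · have : ¬ x i = k := fun h'' => hjk (h'.symm.trans h'')
        rw [if_pos h', if_neg this, add_zero]
        split_ifs
        · exact h5
        · rw [mul_zero]
      · rw [if_neg h', zero_mul]
  col i j k hjk := by
    unfold blk
    by_cases h : j = i
    · have hk : ¬ k = i := fun h' => hjk (h.trans h'.symm)
      rw [if_pos h, if_neg hk, zero_add]
      by_cases h' : x k = i
      · have : ¬ x j = i := fun h'' => hjk (x.injective (h''.trans h'.symm))
        have e1 : e k = e j := by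
          rw [← h2 k, h', h]
        rw [if_pos h', if_neg this, add_zero, e1, mul_sub, h1, mul_one, sub_self]
      · rw [if_neg h', mul_zero]
    · rw [if_neg h, zero_add]
      by_cases h' : x j = i
      · have : ¬ x k = i := fun h'' => hjk (x.injective (h'.trans h''.symm))
        rw [if_pos h', if_neg this, add_zero]
        by_cases h3 : k = i
        · have e1 : e k = e j := by
            rw [← h2 j, h', h3]
          rw [if_pos h3, e1, sub_mul, h1, one_mul, sub_self]
        · rw [if_neg h3, mul_zero]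
      · rw [if_neg h', zero_mul]
  rowsum i := by
    unfold blk
    rw [Finset.sum_add_distrib]
    simp
  colsum j := by
    unfold blk
    rw [Finset.sum_add_distrib]
    have : ∀ i, (x i = j) = (i = x j) := by
      intro i
      apply propext
      constructor
      · rintro rfl; exact (hx i).symm
      · rintro rfl; exact hx j
    simp [this, h2]

theorem IsMagic.shift {P : Λ → Λ → R} (hP : IsMagic P) (g : Equiv.Perm Λ) :
    IsMagic (fun i j => P (g i) j) where
  idem _ _ := hP.idem _ _
  row _ _ _ h := hP.row _ _ _ h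
  col _ _ _ h := hP.col _ _ _ (fun h' => h (g.injective h'))
  rowsum _ := hP.rowsum _
  colsum j := (Equiv.sum_comp g (fun i => P i j)).trans (hP.colsum j)

theorem IsMagic.map {R' : Type*} [Ring R'] {P : Λ → Λ → R} (hP : IsMagic P) (φ : R →+* R') :
    IsMagic (fun i j => φ (P i j)) where
  idem i j := by rw [← map_mul, hP.idem]
  row i j k h := by rw [← map_mul, hP.row i j k h, map_zero]
  col i j k h := by rw [← map_mul, hP.col i j k h, map_zero]
  rowsum i := by rw [← map_sum, hP.rowsum, map_one]
  colsum i := by rw [← map_sum, hP.colsum, map_one]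

end blk

section family

/-- the polynomial idempotent -/
noncomputable def Ep (c : ℝ) : Matrix (Fin 2) (Fin 2) ℝ[X] :=
  !![X, C c; C (4 * c) * X * (1 - X), 1 - X]

theorem mul_two_two {R : Type*} [CommRing R] (a b c d a' b' c' d' : R) :
    (!![a, b; c, d] : Matrix (Fin 2) (Fin 2) R) * !![a', b'; c', d'] =
      !![a * a' + b * c', a * b' + b * d'; c * a' + d * c', c * b' + d * d'] := by
  ext r s; fin_cases r <;> fin_cases s <;> simp [Matrix.mul_apply, Fin.sum_univ_two]

theorem Ep_idem {c : ℝ} (hc : 4 * c * c = 1) : Ep c * Ep c = Ep c := by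
  have h : (C c * C (4 * c) : ℝ[X]) = 1 := by
    rw [← C_mul, show c * (4 * c) = 4 * c * c by ring, hc, C_1]
  unfold Ep
  rw [mul_two_two]
  congr 1
  generalize C (4 * c) = u at *
  generalize C c = v at *
  have e1 : X * X + v * (u * X * (1 - X)) = X := by linear_combination (X * (1 - X)) * h
  have e2 : X * v + v * (1 - X) = v := by ring
  have e3 : u * X * (1 - X) * X + (1 - X) * (u * X * (1 - X)) = u * X * (1 - X) := by ring
  have e4 : u * X * (1 - X) * v + (1 - X) * (1 - X) = 1 - X := by
    linear_combination (X * (1 - X)) * h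
  rw [e1, e2, e3, e4]

variable {Λ : Type*} [DecidableEq Λ] [Fintype Λ] (q : Four Λ)

/-- the family of idempotents -/
noncomputable def Four.ep (i : Λ) : Matrix (Fin 2) (Fin 2) ℝ[X] :=
  if i = q.a ∨ i = q.b then Ep (1/2) else if i = q.d ∨ i = q.e then Ep (-1/2) else 1

theorem Four.ep_idem (i : Λ) : q.ep i * q.ep i = q.ep i := by
  unfold Four.ep
  split_ifs
  · exact Ep_idem (by norm_num)
  · exact Ep_idem (by norm_num)
  · rw [one_mul]

theorem Four.ep_x (i : Λ) : q.ep (q.x i) = q.ep i := by
  by_cases ha : i = q.a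
  · subst ha; rw [q.xa]; simp [Four.ep]
  by_cases hb : i = q.b
  · subst hb; rw [q.xb]; simp [Four.ep]
  by_cases hd : i = q.d
  · subst hd; rw [q.xd]; simp [Four.ep, q.hae.symm, q.hbe.symm, q.had.symm, q.hbd.symm]
  by_cases he : i = q.e
  · subst he; rw [q.xe]; simp [Four.ep, q.hae.symm, q.hbe.symm, q.had.symm, q.hbd.symm]
  rw [q.xo ha hb hd he]

/-- the polynomial magic matrix -/
noncomputable def Four.Np (i j : Λ) : Matrix (Fin 2) (Fin 2) ℝ[X] := blk q.x q.ep i j

theorem Four.Np_magic : IsMagic q.Np := blk_magic q.x_x q.ep_idem q.ep_x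

/-- evaluation -/
noncomputable def evM (s : ℝ) : Matrix (Fin 2) (Fin 2) ℝ[X] →ₐ[ℝ] Matrix (Fin 2) (Fin 2) ℝ :=
  (Polynomial.aeval s).mapMatrix

theorem evM_apply (s : ℝ) (M : Matrix (Fin 2) (Fin 2) ℝ[X]) (i j : Fin 2) :
    evM s M i j = (M i j).eval s := by
  simp [evM, Polynomial.coe_aeval_eq_eval]

theorem evM_Ep (s c : ℝ) : evM s (Ep c) = !![s, c; 4 * c * s * (1 - s), 1 - s] := by
  ext i j
  rw [evM_apply]
  fin_cases i <;> fin_cases j <;> simp [Ep]

theorem ite_smul_one {M : Type*} [AddCommMonoid M] [Module ℝ M] (p : Prop) [Decidable p] (m : M) :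
    (if p then m else 0) = (if p then (1:ℝ) else 0) • m := by
  split_ifs <;> simp

theorem evM_zero_Np (i j : Λ) : evM 0 (q.Np i j) = q.Mm i j := by
  have h1 : ∀ c, evM 0 (Ep c) = !![0, c; 0, 1] := by
    intro c
    rw [evM_Ep]
    ext i j; fin_cases i <;> fin_cases j <;> simp
  unfold Four.Np blk Four.Mm Four.pe
  rw [map_add, apply_ite (evM 0), apply_ite (evM 0), map_zero, map_sub, map_one,
    ite_smul_one (i = j), ite_smul_one (q.x i = j)]
  by_cases hab : i = q.a ∨ i = q.b
  · have e1 : q.ep i = Ep (1/2) := by unfold Four.ep; rw [if_pos hab]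
    have e2 : q.sg i = 1 := by unfold Four.sg; rw [if_pos hab]
    rw [e1, e2, h1]
    generalize (if i = j then (1:ℝ) else 0) = δ
    generalize (if q.x i = j then (1:ℝ) else 0) = α
    ext r s; fin_cases r <;> fin_cases s <;> simp <;> ring
  · by_cases hde : i = q.d ∨ i = q.e
    · have e1 : q.ep i = Ep (-1/2) := by unfold Four.ep; rw [if_neg hab, if_pos hde]
      have e2 : q.sg i = -1 := by unfold Four.sg; rw [if_neg hab, if_pos hde]
      rw [e1, e2, h1]
      generalize (if i = j then (1:ℝ) else 0) = δ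
      generalize (if q.x i = j then (1:ℝ) else 0) = α
      ext r s; fin_cases r <;> fin_cases s <;> simp <;> ring
    · have e1 : q.ep i = 1 := by unfold Four.ep; rw [if_neg hab, if_neg hde]
      have e2 : q.sg i = 0 := by unfold Four.sg; rw [if_neg hab, if_neg hde]
      have e3 : q.x i = i := q.xo (fun h => hab (Or.inl h)) (fun h => hab (Or.inr h))
        (fun h => hde (Or.inl h)) (fun h => hde (Or.inr h))
      rw [e1, e2, e3, map_one]
      generalize (if i = j then (1:ℝ) else 0) = δ
      ext r s; fin_cases r <;> fin_cases s <;> simp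

/-- rescaling of the basis -/
noncomputable def resc (w : ℝ) (hw : w ≠ 0) :
    Matrix (Fin 2) (Fin 2) ℝ →ₐ[ℝ] Matrix (Fin 2) (Fin 2) ℝ where
  toFun M := !![M 0 0, w * M 0 1; w⁻¹ * M 1 0, M 1 1]
  map_one' := by ext i j; fin_cases i <;> fin_cases j <;> simp
  map_mul' M N := by
    ext i j
    fin_cases i <;> fin_cases j <;> simp [Matrix.mul_apply, Fin.sum_univ_two] <;> field_simp
  map_zero' := by ext i j; fin_cases i <;> fin_cases j <;> simp
  map_add' M N := by
    ext i j
    fin_cases i <;> fin_cases j <;> simp <;> ring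
  commutes' r := by
    ext i j
    fin_cases i <;> fin_cases j <;> simp [Matrix.algebraMap_matrix_apply]

theorem resc_inj {w : ℝ} (hw : w ≠ 0) : Function.Injective (resc w hw) := by
  intro M N h
  have e : ∀ i j, resc w hw M i j = resc w hw N i j := by rw [h]; exact fun _ _ => rfl
  have e00 := e 0 0
  have e01 := e 0 1
  have e10 := e 1 0
  have e11 := e 1 1
  simp only [resc, AlgHom.coe_mk, RingHom.coe_mk, MonoidHom.coe_mk, OneHom.coe_mk,
    Matrix.of_apply, Matrix.cons_val', Matrix.cons_val_zero, Matrix.cons_val_one,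
    Matrix.cons_val_fin_one, Fin.isValue] at e00 e01 e10 e11
  ext i j
  fin_cases i <;> fin_cases j
  · exact e00
  · exact mul_left_cancel₀ hw e01
  · exact mul_left_cancel₀ (inv_ne_zero hw) e10
  · exact e11

end family

section main

variable {Λ : Type*} [DecidableEq Λ] [Fintype Λ] (q : Four Λ)

theorem Four.Mm_entries : ∀ v j : List Λ, v.length = j.length →
    mon q.Mm v j 1 0 = 0 ∧ mon q.Mm v j 1 1 = (if v = j then 1 else 0) ∧
      mon q.Mm v j 0 0 = if v.map q.x = j then 1 else 0
  | [], [], _ => by simp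
  | (i :: v), (l :: j), h => by
    obtain ⟨h1, h2, h3⟩ := Four.Mm_entries v j (by simpa using h)
    simp only [mon_cons, Matrix.mul_apply, Fin.sum_univ_two, h1, h2, h3, Four.Mm,
      Matrix.of_apply, Matrix.cons_val', Matrix.cons_val_zero, Matrix.cons_val_one,
      Matrix.cons_val_fin_one, Fin.isValue, List.map_cons, List.cons.injEq]
    refine ⟨by simp, ?_, ?_⟩
    · by_cases e1 : i = l <;> by_cases e2 : v = j <;> simp [e1, e2]
    · by_cases e1 : q.x i = l <;> by_cases e2 : v.map q.x = j <;> simp [e1, e2]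
  | [], (_ :: _), h => by simp at h
  | (_ :: _), [], h => by simp at h

theorem wsum_matrix_apply (k : ℕ) (X : List Λ → Matrix (Fin 2) (Fin 2) ℝ) (r s : Fin 2) :
    wsum k X r s = wsum k (fun j => X j r s) := by
  simp only [wsum_eq_sum, Matrix.sum_apply]

theorem wsum_matrix_apply' (k : ℕ) (X : List Λ → Matrix (Fin 2) (Fin 2) ℝ[X]) (r s : Fin 2) :
    wsum k X r s = wsum k (fun j => X j r s) := by
  simp only [wsum_eq_sum, Matrix.sum_apply]

/-- the permutations leaving a function invariant -/
def stab (k : ℕ) (F : List Λ → ℝ) : Subgroup (Equiv.Perm Λ) where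
  carrier := {g | ∀ w : List Λ, w.length = k → F (w.map g) = F w}
  mul_mem' := by
    intro g h hg hh w hw
    have := hg (w.map h) (by simpa using hw)
    rw [List.map_map] at this
    rw [← hh w hw, ← this]
    rfl
  one_mem' := by
    intro w _
    simp
  inv_mem' := by
    intro g hg w hw
    have := hg (w.map (g⁻¹ : Equiv.Perm Λ)) (by simpa using hw)
    have e : (w.map (g⁻¹ : Equiv.Perm Λ)).map g = w := by
      rw [List.map_map]
      have : (⇑g ∘ ⇑(g⁻¹ : Equiv.Perm Λ)) = id := by funext i; simp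
      rw [this, List.map_id]
    rw [← this, e]

theorem extF_apply_eq {k : ℕ} (F : List Λ → ℝ) {w : List Λ} (hw : w.length = k) :
    extF k (WithLp.toLp 2 (fun v : Fin k → Λ => F (List.ofFn v))) w = F w := by
  obtain ⟨v, rfl⟩ := exists_ofFn hw
  rw [extF_ofFn]

theorem extF_add (k : ℕ) (f g : EuclideanSpace ℝ (Fin k → Λ)) (w : List Λ) :
    extF k (f + g) w = extF k f w + extF k g w := by
  unfold extF
  split_ifs <;> simp

theorem extF_smul (k : ℕ) (c : ℝ) (f : EuclideanSpace ℝ (Fin k → Λ)) (w : List Λ) :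
    extF k (c • f) w = c * extF k f w := by
  unfold extF
  split_ifs <;> simp

/-- the defect of being fixed -/
noncomputable def defect (N : Λ → Λ → Matrix (Fin 2) (Fin 2) ℝ[X]) (τ : Equiv.Perm Λ) (k : ℕ) :
    EuclideanSpace ℝ (Fin k → Λ) →ₗ[ℝ] (((Fin k → Λ) × (Fin 2 × Fin 2)) → ℝ[X]) where
  toFun f v := (wsum k (fun j => extF k f j • mon N (List.ofFn v.1) j) -
    extF k f ((List.ofFn v.1).map τ) • (1 : Matrix (Fin 2) (Fin 2) ℝ[X])) v.2.1 v.2.2
  map_add' f g := by
    funext v
    simp only [extF_add, add_smul]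
    rw [wsum_add]
    simp only [Matrix.sub_apply, Matrix.add_apply, Pi.add_apply]
    ring
  map_smul' c f := by
    funext v
    simp only [extF_smul, mul_smul]
    rw [wsum_smul, ← smul_sub]
    simp only [Matrix.smul_apply, Pi.smul_apply, RingHom.id_apply]

theorem defect_eval (N : Λ → Λ → Matrix (Fin 2) (Fin 2) ℝ[X]) (τ : Equiv.Perm Λ) (k : ℕ)
    (f : EuclideanSpace ℝ (Fin k → Λ)) (s : ℝ) (v : Fin k → Λ) (r : Fin 2 × Fin 2) :
    (defect N τ k f (v, r)).eval s =
      (wsum k (fun j => extF k f j • mon (fun a b => evM s (N a b)) (List.ofFn v) j) -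
        extF k f ((List.ofFn v).map τ) • (1 : Matrix (Fin 2) (Fin 2) ℝ)) r.1 r.2 := by
  have h : (wsum k (fun j => extF k f j • mon (fun a b => evM s (N a b)) (List.ofFn v) j) -
        extF k f ((List.ofFn v).map τ) • (1 : Matrix (Fin 2) (Fin 2) ℝ)) =
      evM s (wsum k (fun j => extF k f j • mon N (List.ofFn v) j) -
        extF k f ((List.ofFn v).map τ) • (1 : Matrix (Fin 2) (Fin 2) ℝ[X])) := by
    rw [map_sub, map_smul, map_one, map_wsum]
    congr 1
    refine wsum_congr _ (fun j _ => ?_)
    rw [map_smul]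
    congr 1
    exact mon_map (evM s : Matrix (Fin 2) (Fin 2) ℝ[X] →+* Matrix (Fin 2) (Fin 2) ℝ) N _ _
  rw [h, evM_apply]
  rfl

/-- the bad parameters -/
theorem bad_finite (τ : Equiv.Perm Λ)
    (H0 : ∀ k (F : List Λ → ℝ), Inv q (Subgroup.closure {q.x, τ} : Set (Equiv.Perm Λ)) k F →
      TT k F) (k : ℕ) :
    {s : ℝ | ∃ v, v ∉ TTs (Λ := Λ) k ∧ ∀ i, (defect q.Np τ k v i).eval s = 0}.Finite := by
  apply generic_kernel
  · intro f hf
    funext v
    obtain ⟨v, r, t⟩ := v
    have hf' : TT k (extF k f) := hf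
    have h1 : FixedBy q.Np k (extF k f) := hf'.fixed q.Np_magic
    have h2 := h1 (List.ofFn v) (by simp)
    change (wsum k (fun j => extF k f j • mon q.Np (List.ofFn v) j) -
      extF k f ((List.ofFn v).map τ) • (1 : Matrix (Fin 2) (Fin 2) ℝ[X])) r t = 0
    rw [h2, hf'.perm τ _ (by simp), sub_self]
    rfl
  · intro f hf
    have e : ∀ v : Fin k → Λ, wsum k (fun j => extF k f j • mon q.Mm (List.ofFn v) j) =
        extF k f ((List.ofFn v).map τ) • (1 : Matrix (Fin 2) (Fin 2) ℝ) := by
      intro v
      have h : ∀ r t : Fin 2, (wsum k (fun j => extF k f j • mon q.Mm (List.ofFn v) j) -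
        extF k f ((List.ofFn v).map τ) • (1 : Matrix (Fin 2) (Fin 2) ℝ)) r t = 0 := by
        intro r t
        have := hf (v, (r, t))
        rw [defect_eval] at this
        simpa only [evM_zero_Np] using this
      exact sub_eq_zero.mp (Matrix.ext h)
    have e' : ∀ w : List Λ, w.length = k → wsum k (fun j => extF k f j • mon q.Mm w j) =
        extF k f (w.map τ) • (1 : Matrix (Fin 2) (Fin 2) ℝ) := by
      intro w hw
      obtain ⟨v, rfl⟩ := exists_ofFn hw
      exact e v
    have hτ : ∀ w : List Λ, w.length = k → extF k f (w.map τ) = extF k f w := by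
      intro w hw
      have h1 := congrArg (fun M : Matrix (Fin 2) (Fin 2) ℝ => M 1 1) (e' w hw)
      simp only [wsum_matrix_apply, Matrix.smul_apply, Matrix.one_apply_eq, smul_eq_mul,
        mul_one] at h1
      rw [← h1]
      have : wsum k (fun j => extF k f j * mon q.Mm w j 1 1) =
          wsum k (fun j => (if w = j then 1 else 0) * extF k f j) := by
        refine wsum_congr _ (fun j hj => ?_)
        rw [(q.Mm_entries w j (by omega)).2.1, mul_comm]
      rw [this, wsum_ite_eq hw]
    have hfix : FixedBy q.Mm k (extF k f) := by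
      intro w hw
      rw [e' w hw, hτ w hw]
    have hx : ∀ w : List Λ, w.length = k → extF k f (w.map q.x) = extF k f w := by
      intro w hw
      have h1 := congrArg (fun M : Matrix (Fin 2) (Fin 2) ℝ => M 0 0) (hfix w hw)
      simp only [wsum_matrix_apply, Matrix.smul_apply, Matrix.one_apply_eq, smul_eq_mul,
        mul_one] at h1
      rw [← h1]
      have : wsum k (fun j => extF k f j * mon q.Mm w j 0 0) =
          wsum k (fun j => (if w.map q.x = j then 1 else 0) * extF k f j) := by
        refine wsum_congr _ (fun j hj => ?_)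
        rw [(q.Mm_entries w j (by omega)).2.2, mul_comm]
      rw [this, wsum_ite_eq (by simpa using hw)]
    refine H0 k _ ⟨fun g hg => ?_, hfix⟩
    have hle : Subgroup.closure {q.x, τ} ≤ stab k (extF k f) := by
      rw [Subgroup.closure_le]
      rintro g (rfl | rfl)
      · exact hx
      · exact hτ
    exact hle hg

theorem exists_good (τ : Equiv.Perm Λ)
    (H0 : ∀ k (F : List Λ → ℝ), Inv q (Subgroup.closure {q.x, τ} : Set (Equiv.Perm Λ)) k F →
      TT k F) : ∃ s : ℝ, 0 < s ∧ s < 1 ∧ ∀ k (F : List Λ → ℝ),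
      (∀ w : List Λ, w.length = k → wsum k (fun j => F j • mon (fun a b => evM s (q.Np a b)) w j) =
        F (w.map τ) • (1 : Matrix (Fin 2) (Fin 2) ℝ)) → TT k F := by
  have hc : (⋃ k : ℕ, {s : ℝ | ∃ v, v ∉ TTs (Λ := Λ) k ∧
      ∀ i, (defect q.Np τ k v i).eval s = 0}).Countable :=
    Set.countable_iUnion (fun k => (bad_finite q τ H0 k).countable)
  obtain ⟨s, hs, hs'⟩ := (hc.dense_compl ℝ).exists_mem_open (isOpen_Ioo (a := (0:ℝ)) (b := 1))
    ⟨1/2, by norm_num, by norm_num⟩
  refine ⟨s, hs'.1, hs'.2, fun k F hF => ?_⟩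
  rw [Set.mem_compl_iff, Set.mem_iUnion, not_exists] at hs
  have h1 := hs k
  simp only [Set.mem_ofPred_eq, not_exists, not_and, not_forall] at h1
  by_contra hTT
  have h2 : WithLp.toLp 2 (fun v : Fin k → Λ => F (List.ofFn v)) ∉ TTs (Λ := Λ) k := by
    intro h
    apply hTT
    exact TT.congr _ _ h (fun w hw => extF_apply_eq F hw)
  obtain ⟨⟨v, r⟩, h3⟩ := h1 _ h2
  apply h3
  rw [defect_eval]
  have h4 := hF (List.ofFn v) (by simp)
  have h5 : wsum k (fun j => extF k (WithLp.toLp 2 (fun v : Fin k → Λ => F (List.ofFn v))) j •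
      mon (fun a b => evM s (q.Np a b)) (List.ofFn v) j) =
      wsum k (fun j => F j • mon (fun a b => evM s (q.Np a b)) (List.ofFn v) j) :=
    wsum_congr _ (fun j hj => by rw [extF_apply_eq F hj])
  rw [h5, h4, extF_apply_eq F (by simp), sub_self]
  rfl

/-- the generic magic matrix of projections -/
theorem generic (τ : Equiv.Perm Λ)
    (H0 : ∀ k (F : List Λ → ℝ), Inv q (Subgroup.closure {q.x, τ} : Set (Equiv.Perm Λ)) k F →
      TT k F) : ∃ P : Λ → Λ → Matrix (Fin 2) (Fin 2) ℝ, IsMagic P ∧
      (∀ i j, (P i j).transpose = P i j) ∧ ∀ k (F : List Λ → ℝ), FixedBy P k F → TT k F := by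
  obtain ⟨s, hs0, hs1, hs⟩ := exists_good q τ H0
  have hw0 : 0 < 2 * Real.sqrt (s * (1 - s)) := by
    have : 0 < s * (1 - s) := mul_pos hs0 (by linarith)
    positivity
  set w : ℝ := 2 * Real.sqrt (s * (1 - s)) with hw
  have hww : w * w = 4 * s * (1 - s) := by
    have : 0 ≤ s * (1 - s) := mul_nonneg hs0.le (by linarith)
    rw [hw]
    calc 2 * Real.sqrt (s * (1 - s)) * (2 * Real.sqrt (s * (1 - s))) =
        4 * (Real.sqrt (s * (1 - s)) * Real.sqrt (s * (1 - s))) := by ring
      _ = 4 * s * (1 - s) := by rw [Real.mul_self_sqrt this]; ring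
  let ψ : Matrix (Fin 2) (Fin 2) ℝ[X] →ₐ[ℝ] Matrix (Fin 2) (Fin 2) ℝ :=
    (resc w hw0.ne').comp (evM s)
  refine ⟨fun i j => ψ (q.Np (τ⁻¹ i) j), ?_, ?_, ?_⟩
  · exact (q.Np_magic.map (ψ : Matrix (Fin 2) (Fin 2) ℝ[X] →+* Matrix (Fin 2) (Fin 2) ℝ)).shift τ⁻¹
  · intro i j
    have h1 : ∀ c, c * c = 1/4 → (ψ (Ep c)).transpose = ψ (Ep c) := by
      intro c hc
      change (resc w hw0.ne' (evM s (Ep c))).transpose = resc w hw0.ne' (evM s (Ep c))
      rw [evM_Ep]
      have : w⁻¹ * (4 * c * s * (1 - s)) = w * c := by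
        rw [show 4 * c * s * (1 - s) = c * (w * w) by rw [hww]; ring]
        field_simp
      ext a b
      fin_cases a <;> fin_cases b
      · rfl
      · exact this
      · exact this.symm
      · rfl
    have h2 : ∀ i, (ψ (q.ep i)).transpose = ψ (q.ep i) := by
      intro i
      unfold Four.ep
      split_ifs
      · exact h1 _ (by norm_num)
      · exact h1 _ (by norm_num)
      · rw [map_one, Matrix.transpose_one]
    change (ψ (blk q.x q.ep (τ⁻¹ i) j)).transpose = ψ (blk q.x q.ep (τ⁻¹ i) j)
    unfold blk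
    rw [map_add, apply_ite ψ, apply_ite ψ, map_zero, map_sub, map_one, Matrix.transpose_add,
      apply_ite Matrix.transpose, apply_ite Matrix.transpose, Matrix.transpose_zero,
      Matrix.transpose_sub, Matrix.transpose_one, h2]
  · intro k F hF
    apply hs
    intro v hv
    have h1 := hF (v.map τ) (by simpa using hv)
    apply resc_inj hw0.ne'
    rw [map_smul, map_one, ← h1, map_wsum]
    refine wsum_congr _ (fun j _ => ?_)
    rw [map_smul]
    congr 1
    have e1 := mon_shift (τ⁻¹ : Equiv.Perm Λ) (fun a b => ψ (q.Np a b)) (v.map τ) j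
    rw [e1]
    have e2 : (v.map τ).map (τ⁻¹ : Equiv.Perm Λ) = v := by
      rw [List.map_map]
      have : (⇑(τ⁻¹ : Equiv.Perm Λ) ∘ ⇑τ) = id := by funext i; simp
      rw [this, List.map_id]
    rw [e2]
    exact (mon_map (resc w hw0.ne' : Matrix (Fin 2) (Fin 2) ℝ →+* Matrix (Fin 2) (Fin 2) ℝ)
      (fun a b => evM s (q.Np a b)) v j).symm

end main

end Run7.h417
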