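import Pool.Agent.Run7.h417.QPerm

/-!
The star structure on the quantum permutation algebra; Hopf star-algebras; inner faithfulness.
-/

namespace Run7.h417

open scoped TensorProduct ComplexConjugate

/-- The opposite algebra with conjugated scalars: `c` acts as the conjugate of `c`. -/
noncomputable abbrev conjAlg (A : Type) [Ring A] [Algebra ℂ A] : Algebra ℂ Aᵐᵒᵖ :=
  ((algebraMap ℂ Aᵐᵒᵖ).comp (starRingEnd ℂ)).toAlgebra' (fun c x => Algebra.commutes (conj c) x)

namespace QPerm

variable {n : ℕ}

/-- The star as a homomorphism to the opposite algebra with conjugated scalars, mapping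
`u i j` to `u i j`. -/
noncomputable def starHom (n : ℕ) : @AlgHom ℂ (QPerm n) (QPerm n)ᵐᵒᵖ _ _ _ _ (conjAlg (QPerm n)) :=
  @lift n (QPerm n)ᵐᵒᵖ _ (conjAlg (QPerm n)) (fun i j => MulOpposite.op (u i j)) u_magic.op

/-- the star -/
noncomputable def st (a : QPerm n) : QPerm n := MulOpposite.unop (starHom n a)

theorem st_u (i j : Fin n) : st (u i j) = u i j :=
  congrArg MulOpposite.unop (@lift_u n (QPerm n)ᵐᵒᵖ _ (conjAlg (QPerm n))
    (fun i j => MulOpposite.op (u i j)) u_magic.op i j)

theorem st_mul (a b : QPerm n) : st (a * b) = st b * st a := by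
  unfold st
  rw [map_mul]; rfl

theorem st_add (a b : QPerm n) : st (a + b) = st a + st b := by
  unfold st
  rw [map_add]; rfl

theorem st_algebraMap (c : ℂ) : st (algebraMap ℂ (QPerm n) c) = algebraMap ℂ (QPerm n) (conj c) := by
  unfold st
  rw [@AlgHom.commutes ℂ (QPerm n) (QPerm n)ᵐᵒᵖ _ _ _ _ (conjAlg (QPerm n))]; rfl

theorem st_st (a : QPerm n) : st (st a) = a := by
  induction a using QPerm.induction with
  | h0 r => rw [st_algebraMap, st_algebraMap, Complex.conj_conj]
  | h1 i j => rw [st_u, st_u]
  | hm a b ha hb => rw [st_mul, st_mul, ha, hb]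
  | ha a b ha hb => rw [st_add, st_add, ha, hb]

noncomputable instance : StarRing (QPerm n) where
  star := st
  star_involutive := st_st
  star_mul := st_mul
  star_add := st_add

theorem star_u (i j : Fin n) : star (u i j) = u i j := st_u i j

theorem star_algebraMap' (c : ℂ) : star (algebraMap ℂ (QPerm n) c) = algebraMap ℂ (QPerm n) (conj c) :=
  st_algebraMap c

instance : StarModule ℂ (QPerm n) where
  star_smul c a := by
    rw [Algebra.smul_def, star_mul, star_algebraMap', Algebra.smul_def, Algebra.commutes]
    rfl

end QPerm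

/-- A Hopf star-algebra over the complex numbers: a Hopf algebra with a conjugate linear
antimultiplicative involution for which the comultiplication is a star-homomorphism. -/
class HopfStar (A : Type*) [Ring A] [HopfAlgebra ℂ A] [StarRing A] : Prop extends
    StarModule ℂ A where
  comul_star (a : A) : Coalgebra.comul (R := ℂ) (star a) = star (Coalgebra.comul (R := ℂ) a)

instance (n : ℕ) : HopfStar (QPerm n) where
  comul_star a := by
    induction a using QPerm.induction with
    | h0 r =>
      rw [QPerm.star_algebraMap', Bialgebra.comul_algebraMap, Bialgebra.comul_algebraMap,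
        Algebra.algebraMap_eq_smul_one, Algebra.algebraMap_eq_smul_one, star_smul, star_one]
      rfl
    | h1 i j =>
      rw [QPerm.star_u, QPerm.comul_u, star_sum]
      refine Finset.sum_congr rfl (fun k _ => ?_)
      rw [TensorProduct.star_tmul, QPerm.star_u, QPerm.star_u]
    | hm a b ha hb =>
      rw [star_mul, Bialgebra.comul_mul, ha, hb, Bialgebra.comul_mul, star_mul]
    | ha a b ha hb => rw [star_add, map_add, ha, hb, map_add, star_add]

section inner

variable (A : Type) [Ring A] [HopfAlgebra ℂ A] [StarRing A] [HopfStar A]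
variable (B : Type) [Ring B] [HopfAlgebra ℂ B] [StarRing B] [HopfStar B]

/-- Morphisms of Hopf star-algebras. -/
structure HopfStarHom where
  /-- the underlying morphism of bialgebras -/
  hom : A →ₐc[ℂ] B
  map_star : ∀ a, hom (star a) = star (hom a)

variable {A B}

/-- The representation `π` of `A` factors through `q`. -/
def HopfStarHom.Factors (q : HopfStarHom A B) {N : ℕ}
    (π : A →⋆ₐ[ℂ] Matrix (Fin N) (Fin N) ℂ) : Prop :=
  ∃ ρ : B →⋆ₐ[ℂ] Matrix (Fin N) (Fin N) ℂ, ∀ a, ρ (q.hom a) = π a

/-- A representation `π` of a Hopf star-algebra `A` on a finite dimensional Hilbert space is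
inner faithful if its Hopf image is `A`: whenever `q : A → B` is a surjective morphism of Hopf
star-algebras through which `π` factors, `q` is an isomorphism. -/
def InnerFaithful {N : ℕ} (π : A →⋆ₐ[ℂ] Matrix (Fin N) (Fin N) ℂ) : Prop :=
  ∀ (B : Type) [Ring B] [HopfAlgebra ℂ B] [StarRing B] [HopfStar B] (q : HopfStarHom A B),
    Function.Surjective q.hom → q.Factors π → Function.Bijective q.hom

end inner

end Run7.h417
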