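import Pool.Agent.Run7.h417.Gen
import Pool.Agent.Run7.h417.QStar
import Pool.Agent.Run7.h417.Bicomm

/-!
A magic matrix whose fixed functions are all noncrossing gives an inner faithful representation.
-/

namespace Run7.h417

set_option linter.unusedSectionVars false

open scoped TensorProduct ComplexConjugate

section prelim

variable {Λ : Type*} [Fintype Λ] [DecidableEq Λ]

theorem mon_transpose {R : Type*} [CommRing R] (P : Λ → Λ → R) : ∀ i j : List Λ,
    mon (fun a b => P b a) i j = mon P j i
  | [], [] => by simp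
  | (i :: is), (j :: js) => by rw [mon_cons, mon_cons, mon_transpose P is js]
  | [], (_ :: _) => by simp [mon]
  | (_ :: _), [] => by simp [mon]

theorem mon_transpose' {R : Type*} [Ring R] (P : Λ → Λ → R) : ∀ i j : List Λ,
    mon (fun a b => P b a) i j = mon P j i
  | [], [] => by simp
  | (i :: is), (j :: js) => by rw [mon_cons, mon_cons, mon_transpose' P is js]
  | [], (_ :: _) => by simp [mon]
  | (_ :: _), [] => by simp [mon]

theorem mon_inv_row {R : Type*} [Ring R] {P : Λ → Λ → R} (hP : IsMagic P) (q : ℕ)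
    (w w' : List Λ) (hw : w.length = q) (hw' : w'.length = q) :
    wsum q (fun x => mon P w' x * mon P w.reverse x.reverse) = if w' = w then 1 else 0 := by
  have h := mon_inv hP.transpose q w w' hw hw'
  simp only [mon_transpose'] at h
  exact h

/-- noncrossing functions stay noncrossing under extension of scalars -/
theorem TT.ofReal {k : ℕ} {F : List Λ → ℝ} (hF : TT k F) : TT k (fun w => (F w : ℂ)) := by
  induction hF with
  | base F => exact TT.base _
  | @ins k j hj F F' hF h ih =>
    exact TT.ins j hj _ _ ih (fun u i v hu hv => by rw [h u i v hu hv])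
  | @dup k j hj F F' hF h ih =>
    refine TT.dup j hj _ _ ih (fun u i i' v hu hv => ?_)
    rw [h u i i' v hu hv]
    split_ifs <;> simp
  | @add k F G hF hG ihF ihG =>
    exact TT.congr _ _ (TT.add _ _ ihF ihG) (fun w _ => by push_cast; rfl)
  | @smul k c F hF ihF =>
    exact TT.congr _ _ (TT.smul (c : ℂ) _ ihF) (fun w _ => by push_cast; rfl)
  | @congr k F G hF h ihF =>
    exact TT.congr _ _ ihF (fun w hw => by rw [h w hw])

/-- the complexification of a real matrix of size two -/
noncomputable def cx : Matrix (Fin 2) (Fin 2) ℝ →+* Matrix (Fin 2) (Fin 2) ℂ :=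
  Complex.ofRealHom.mapMatrix

theorem cx_apply (M : Matrix (Fin 2) (Fin 2) ℝ) (r s : Fin 2) : cx M r s = (M r s : ℂ) := rfl

theorem wsum_matrix_apply_c (k : ℕ) (X : List Λ → Matrix (Fin 2) (Fin 2) ℂ) (r s : Fin 2) :
    wsum k X r s = wsum k (fun j => X j r s) := by
  simp only [wsum_eq_sum, Matrix.sum_apply]

theorem TT_of_fixed_cx {P : Λ → Λ → Matrix (Fin 2) (Fin 2) ℝ}
    (hfix : ∀ k (F : List Λ → ℝ), FixedBy P k F → TT k F) {k : ℕ} {F : List Λ → ℂ}
    (hF : FixedBy (fun i j => cx (P i j)) k F) : TT k F := by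
  have h1 : ∀ v : List Λ, v.length = k → ∀ r s : Fin 2,
      wsum k (fun j => F j * (mon P v j r s : ℂ)) = F v * ((1 : Matrix (Fin 2) (Fin 2) ℝ) r s : ℂ) := by
    intro v hv r s
    have h := congrArg (fun M : Matrix (Fin 2) (Fin 2) ℂ => M r s) (hF v hv)
    simp only [wsum_matrix_apply_c, Matrix.smul_apply, smul_eq_mul] at h
    have e1 : (1 : Matrix (Fin 2) (Fin 2) ℂ) r s = ((1 : Matrix (Fin 2) (Fin 2) ℝ) r s : ℂ) := by
      rw [← cx_apply, map_one]
    rw [e1] at h
    rw [← h]
    refine wsum_congr _ (fun j _ => ?_)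
    rw [mon_map cx, cx_apply]
  have hre : FixedBy P k (fun w => (F w).re) := by
    intro v hv
    ext r s
    rw [wsum_matrix_apply]
    have h := congrArg Complex.re (h1 v hv r s)
    rw [Complex.re_mul_ofReal] at h
    simp only [Matrix.smul_apply, smul_eq_mul]
    rw [← h, show (wsum k (fun j => F j * (mon P v j r s : ℂ))).re =
      Complex.reAddGroupHom (wsum k (fun j => F j * (mon P v j r s : ℂ))) from rfl, map_wsum]
    refine wsum_congr _ (fun j _ => ?_)
    change _ = (F j * (mon P v j r s : ℂ)).re
    rw [Complex.re_mul_ofReal]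
  have him : FixedBy P k (fun w => (F w).im) := by
    intro v hv
    ext r s
    rw [wsum_matrix_apply]
    have h := congrArg Complex.im (h1 v hv r s)
    rw [Complex.im_mul_ofReal] at h
    simp only [Matrix.smul_apply, smul_eq_mul]
    rw [← h, show (wsum k (fun j => F j * (mon P v j r s : ℂ))).im =
      Complex.imAddGroupHom (wsum k (fun j => F j * (mon P v j r s : ℂ))) from rfl, map_wsum]
    refine wsum_congr _ (fun j _ => ?_)
    change _ = (F j * (mon P v j r s : ℂ)).im
    rw [Complex.im_mul_ofReal]
  have h2 := (hfix k _ hre).ofReal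
  have h3 := (hfix k _ him).ofReal
  refine TT.congr _ _ (TT.add _ _ h2 (TT.smul Complex.I _ h3)) (fun w _ => ?_)
  change ((F w).re : ℂ) + Complex.I * ((F w).im : ℂ) = F w
  rw [mul_comm]
  exact Complex.re_add_im (F w)

end prelim

section hopf

variable {n : ℕ} {B : Type*} [Ring B] [HopfAlgebra ℂ B]

/-- coordinates in a Hopf algebra -/
structure IsCoord (v : Fin n → Fin n → B) : Prop where
  magic : IsMagic v
  comul : ∀ i j, Coalgebra.comul (R := ℂ) (v i j) = ∑ k, v i k ⊗ₜ[ℂ] v k j
  counit : ∀ i j, Coalgebra.counit (R := ℂ) (v i j) = if i = j then 1 else 0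

variable {v : Fin n → Fin n → B}

theorem comul_mon (hv : IsCoord v) : ∀ x y : List (Fin n), x.length = y.length →
    Coalgebra.comul (R := ℂ) (mon v x y) =
      wsum x.length (fun z => mon v x z ⊗ₜ[ℂ] mon v z y)
  | [], [], _ => by simp [Algebra.TensorProduct.one_def]
  | (i :: x), (j :: y), h => by
    rw [mon_cons, Bialgebra.comul_mul, hv.comul, comul_mon hv x y (by simpa using h),
      List.length_cons, wsum_succ, Finset.sum_mul]
    refine Finset.sum_congr rfl (fun k _ => ?_)
    rw [← wsum_mul_left]
    refine wsum_congr _ (fun z _ => ?_)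
    rw [Algebra.TensorProduct.tmul_mul_tmul, mon_cons, mon_cons]
  | [], (_ :: _), h => by simp at h
  | (_ :: _), [], h => by simp at h

theorem counit_mon (hv : IsCoord v) : ∀ x y : List (Fin n), x.length = y.length →
    Coalgebra.counit (R := ℂ) (mon v x y) = if x = y then 1 else 0
  | [], [], _ => by simp
  | (i :: x), (j :: y), h => by
    rw [mon_cons, Bialgebra.counit_mul, hv.counit, counit_mon hv x y (by simpa using h)]
    by_cases h1 : i = j <;> by_cases h2 : x = y <;> simp [h1, h2]
  | [], (_ :: _), h => by simp at h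
  | (_ :: _), [], h => by simp at h

theorem wsum_ite_eq' {Λ M : Type*} [Fintype Λ] [DecidableEq Λ] [AddCommMonoid M] {l : ℕ}
    {u : List Λ} (hu : u.length = l) (f : List Λ → M) :
    wsum l (fun v => if u = v then f v else 0) = f u := by
  obtain ⟨u', rfl⟩ := exists_ofFn hu
  rw [wsum_eq_sum, Finset.sum_eq_single u']
  · simp
  · intro b _ hb
    rw [if_neg (by simpa using (Ne.symm hb))]
  · intro hh; exact absurd (Finset.mem_univ _) hh

theorem antipode_mon (hv : IsCoord v) (x y : List (Fin n)) (h : x.length = y.length) :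
    HopfAlgebra.antipode ℂ (mon v x y) = mon v y.reverse x.reverse := by
  have h1 : ∀ w : List (Fin n), w.length = x.length →
      wsum x.length (fun z => HopfAlgebra.antipode ℂ (mon v x z) * mon v z w) =
        if x = w then 1 else 0 := by
    intro w hw
    have e := HopfAlgebra.mul_antipode_rTensor_comul_apply (R := ℂ) (mon v x w)
    rw [comul_mon hv x w hw.symm, map_wsum, map_wsum, counit_mon hv x w hw.symm] at e
    simp only [LinearMap.rTensor_tmul, LinearMap.mul'_apply] at e
    rw [e]
    split_ifs <;> simp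
  calc HopfAlgebra.antipode ℂ (mon v x y) =
      wsum x.length (fun z => if y = z then HopfAlgebra.antipode ℂ (mon v x z) else 0) := by
        rw [wsum_ite_eq' h.symm]
    _ = wsum x.length (fun z => HopfAlgebra.antipode ℂ (mon v x z) *
          wsum x.length (fun w => mon v z w * mon v y.reverse w.reverse)) := by
        refine wsum_congr _ (fun z hz => ?_)
        rw [mon_inv_row hv.magic x.length y z h.symm hz]
        by_cases hyz : y = z
        · subst hyz; simp
        · rw [if_neg hyz, if_neg (Ne.symm hyz), mul_zero]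
    _ = wsum x.length (fun w => wsum x.length (fun z =>
          HopfAlgebra.antipode ℂ (mon v x z) * mon v z w) * mon v y.reverse w.reverse) := by
        simp only [← wsum_mul_left, ← wsum_mul_right, mul_assoc]
        rw [wsum_comm]
    _ = wsum x.length (fun w => if x = w then mon v y.reverse w.reverse else 0) := by
        refine wsum_congr _ (fun w hw => ?_)
        rw [h1 w hw]
        split_ifs <;> simp
    _ = mon v y.reverse x.reverse := wsum_ite_eq' rfl _

variable [StarRing B]

theorem star_mon (hs : ∀ i j, star (v i j) = v i j) : ∀ x y : List (Fin n),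
    x.length = y.length → star (mon v x y) = mon v x.reverse y.reverse
  | [], [], _ => by simp
  | (i :: x), (j :: y), h => by
    rw [mon_cons, star_mul, hs, star_mon hs x y (by simpa using h), List.reverse_cons,
      List.reverse_cons, mon_append _ _ _ _ _ (by simpa using h)]
    simp
  | [], (_ :: _), h => by simp at h
  | (_ :: _), [], h => by simp at h

end hopf

section main

variable {n : ℕ} {B : Type*} [Ring B] [HopfAlgebra ℂ B] [StarRing B] [StarModule ℂ B]
variable {v : Fin n → Fin n → B}

/-- the matrix of values of a functional on the words of length `m` -/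
noncomputable def matL {A : Type*} [Ring A] [Algebra ℂ A] (v : Fin n → Fin n → A) (m : ℕ) :
    (A →ₗ[ℂ] ℂ) →ₗ[ℂ] Matrix (Fin m → Fin n) (Fin m → Fin n) ℂ where
  toFun g := Matrix.of (fun x y => g (mon v (List.ofFn x) (List.ofFn y)))
  map_add' _ _ := rfl
  map_smul' _ _ := rfl

theorem matL_apply {A : Type*} [Ring A] [Algebra ℂ A] (v : Fin n → Fin n → A) (m : ℕ)
    (g : A →ₗ[ℂ] ℂ) (x y : Fin m → Fin n) :
    matL v m g x y = g (mon v (List.ofFn x) (List.ofFn y)) := rfl

theorem matL_one (hv : IsCoord v) (m : ℕ) :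
    matL v m (Coalgebra.counit (R := ℂ) (A := B)) = 1 := by
  ext x y
  rw [matL_apply, counit_mon hv _ _ (by simp), Matrix.one_apply]
  by_cases h : x = y
  · subst h; simp
  · rw [if_neg h, if_neg (fun h' => h (List.ofFn_injective h'))]

/-- convolution of functionals -/
noncomputable def convL (g h : B →ₗ[ℂ] ℂ) : B →ₗ[ℂ] ℂ :=
  LinearMap.mul' ℂ ℂ ∘ₗ TensorProduct.map g h ∘ₗ Coalgebra.comul

theorem matL_mul (hv : IsCoord v) (m : ℕ) (g h : B →ₗ[ℂ] ℂ) :
    matL v m (convL g h) = matL v m g * matL v m h := by
  ext x y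
  rw [matL_apply, Matrix.mul_apply, convL, LinearMap.comp_apply, LinearMap.comp_apply,
    comul_mon hv _ _ (by simp), map_wsum, map_wsum, List.length_ofFn, wsum_eq_sum]
  refine Finset.sum_congr rfl (fun z _ => ?_)
  rw [TensorProduct.map_tmul, LinearMap.mul'_apply, matL_apply, matL_apply]

/-- the adjoint of a functional -/
noncomputable def adjF (g : B →ₗ[ℂ] ℂ) : B →ₗ[ℂ] ℂ where
  toFun b := conj (g (star (HopfAlgebra.antipode ℂ b)))
  map_add' a b := by rw [map_add, star_add, map_add, map_add]
  map_smul' c a := by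
    rw [map_smul, star_smul, map_smul, smul_eq_mul, map_mul, RingHom.id_apply, smul_eq_mul]
    simp

theorem matL_adj (hv : IsCoord v) (hs : ∀ i j, star (v i j) = v i j) (m : ℕ) (g : B →ₗ[ℂ] ℂ) :
    matL v m (adjF g) = (matL v m g).conjTranspose := by
  ext x y
  rw [Matrix.conjTranspose_apply, matL_apply, matL_apply]
  change conj (g (star (HopfAlgebra.antipode ℂ (mon v (List.ofFn x) (List.ofFn y))))) = _
  rw [antipode_mon hv _ _ (by simp), star_mon hs _ _ (by simp), List.reverse_reverse,
    List.reverse_reverse]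
  rfl

/-- a matrix as a function of two words -/
noncomputable def ext2 {m : ℕ} (T : Matrix (Fin m → Fin n) (Fin m → Fin n) ℂ)
    (x y : List (Fin n)) : ℂ :=
  if h : x.length = m ∧ y.length = m then
    T (fun i => x.get (i.cast h.1.symm)) (fun i => y.get (i.cast h.2.symm)) else 0

theorem ext2_ofFn {m : ℕ} (T : Matrix (Fin m → Fin n) (Fin m → Fin n) ℂ) (x y : Fin m → Fin n) :
    ext2 T (List.ofFn x) (List.ofFn y) = T x y := by
  unfold ext2
  rw [dif_pos ⟨by simp, by simp⟩]
  congr 1
  · funext i; simp
  · funext i; simp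

/-- the function of words attached to a matrix -/
noncomputable def FT {m : ℕ} (T : Matrix (Fin m → Fin n) (Fin m → Fin n) ℂ) : List (Fin n) → ℂ :=
  fun z => ext2 T (z.take m) ((z.drop m).reverse)

theorem FT_append {m : ℕ} (T : Matrix (Fin m → Fin n) (Fin m → Fin n) ℂ) {x y : List (Fin n)}
    (hx : x.length = m) : FT T (x ++ y) = ext2 T x y.reverse := by
  unfold FT
  rw [List.take_left' hx, List.drop_left' hx]

/-- commutation of a scalar matrix with the matrix of words -/
def Comm {m : ℕ} {R : Type*} [Ring R] [Algebra ℂ R] (P : Fin n → Fin n → R)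
    (T : Matrix (Fin m → Fin n) (Fin m → Fin n) ℂ) : Prop :=
  ∀ x y : List (Fin n), x.length = m → y.length = m →
    wsum m (fun z => ext2 T z y • mon P x z) = wsum m (fun z => ext2 T x z • mon P z y)

theorem fixed_of_comm {m : ℕ} {R : Type*} [Ring R] [Algebra ℂ R] {P : Fin n → Fin n → R}
    (hP : IsMagic P) {T : Matrix (Fin m → Fin n) (Fin m → Fin n) ℂ} (hT : Comm P T) :
    FixedBy P (m + m) (FT T) := by
  intro i hi
  obtain ⟨i1, i2, h1, h2⟩ : ∃ i1 i2 : List (Fin n), i1.length = m ∧ i = i1 ++ i2 :=
    ⟨i.take m, i.drop m, by simp; omega, by simp⟩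
  have h3 : i2.length = m := by
    have := congrArg List.length h2
    simp at this; omega
  rw [h2, wsum_append, FT_append T h1, wsum_comm]
  have e1 : ∀ j2 : List (Fin n), j2.length = m → wsum m (fun j1 => FT T (j1 ++ j2) •
      mon P (i1 ++ i2) (j1 ++ j2)) =
      wsum m (fun z => ext2 T i1 z • (mon P z j2.reverse * mon P i2 j2)) := by
    intro j2 hj2
    have e := hT i1 j2.reverse h1 (by simpa using hj2)
    have e' : wsum m (fun z => ext2 T z j2.reverse • mon P i1 z) * mon P i2 j2 =
        wsum m (fun z => ext2 T i1 z • mon P z j2.reverse) * mon P i2 j2 := by rw [e]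
    rw [← wsum_mul_right, ← wsum_mul_right] at e'
    simp only [smul_mul_assoc] at e'
    rw [← e']
    refine wsum_congr _ (fun j1 hj1 => ?_)
    rw [FT_append T hj1, mon_append P _ _ _ _ (by omega)]
  rw [wsum_congr m e1, wsum_comm]
  have e2 : ∀ z : List (Fin n), z.length = m → wsum m (fun j2 => ext2 T i1 z •
      (mon P z j2.reverse * mon P i2 j2)) =
      if i2.reverse = z then ext2 T i1 z • (1 : R) else 0 := by
    intro z hz
    rw [wsum_smul, ← wsum_reverse]
    simp only [List.reverse_reverse]
    have := mon_inv_row hP m i2.reverse z (by simpa using h3) hz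
    rw [List.reverse_reverse] at this
    rw [this]
    by_cases h : z = i2.reverse
    · rw [if_pos h, if_pos h.symm]
    · rw [if_neg h, if_neg (Ne.symm h), smul_zero]
  rw [wsum_congr m e2, wsum_ite_eq' (by simpa using h3)]

theorem comm_of_fixed {m : ℕ} {R : Type*} [Ring R] [Algebra ℂ R] {P : Fin n → Fin n → R}
    (hP : IsMagic P) {T : Matrix (Fin m → Fin n) (Fin m → Fin n) ℂ}
    (hT : FixedBy P (m + m) (FT T)) : Comm P T := by
  intro x y hx hy
  have e := hT.half hP hx (w := y.reverse) (by simpa using hy)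
  have e1 : wsum m (fun z => ext2 T z y • mon P x z) =
      wsum m (fun j1 => FT T (j1 ++ y.reverse) • mon P x j1) := by
    refine wsum_congr _ (fun z hz => ?_)
    rw [FT_append T hz, List.reverse_reverse]
  have e2 : wsum m (fun z => ext2 T x z • mon P z y) =
      wsum m (fun z => FT T (x ++ z) • mon P z.reverse y.reverse.reverse) := by
    rw [← wsum_reverse]
    refine wsum_congr _ (fun z hz => ?_)
    rw [FT_append T hx, List.reverse_reverse]
  rw [e1, e2, e]

theorem comm_iff {m : ℕ} {R : Type*} [Ring R] [Algebra ℂ R] (P : Fin n → Fin n → R)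
    (T : Matrix (Fin m → Fin n) (Fin m → Fin n) ℂ) (x y : Fin m → Fin n) (h : Comm P T) :
    ∑ z, T z y • mon P (List.ofFn x) (List.ofFn z) =
      ∑ z, T x z • mon P (List.ofFn z) (List.ofFn y) := by
  have := h (List.ofFn x) (List.ofFn y) (by simp) (by simp)
  rw [wsum_eq_sum, wsum_eq_sum] at this
  simpa only [ext2_ofFn] using this

theorem comm_of_forall {m : ℕ} {R : Type*} [Ring R] [Algebra ℂ R] {P : Fin n → Fin n → R}
    {T : Matrix (Fin m → Fin n) (Fin m → Fin n) ℂ}
    (h : ∀ x y : Fin m → Fin n, ∑ z, T z y • mon P (List.ofFn x) (List.ofFn z) =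
      ∑ z, T x z • mon P (List.ofFn z) (List.ofFn y)) : Comm P T := by
  intro x y hx hy
  obtain ⟨x', rfl⟩ := exists_ofFn hx
  obtain ⟨y', rfl⟩ := exists_ofFn hy
  rw [wsum_eq_sum, wsum_eq_sum]
  simpa only [ext2_ofFn] using h x' y'

/-- Every matrix of values of a functional on the quantum permutation algebra comes from a
functional on the target of `q`. -/
theorem exists_functional {P : Fin n → Fin n → Matrix (Fin 2) (Fin 2) ℝ} (hP : IsMagic P)
    (hfix : ∀ k (F : List (Fin n) → ℝ), FixedBy P k F → TT k F)
    (hv : IsCoord v) (hs : ∀ i j, star (v i j) = v i j)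
    (ρ : B →ₐ[ℂ] Matrix (Fin 2) (Fin 2) ℂ) (hρ : ∀ i j, ρ (v i j) = cx (P i j))
    (m : ℕ) (f : QPerm n →ₗ[ℂ] ℂ) : ∃ g : B →ₗ[ℂ] ℂ, matL QPerm.u m f = matL v m g := by
  have key : matL QPerm.u m f ∈ LinearMap.range (matL v m) := by
    apply bicomm
    · exact ⟨_, matL_one hv m⟩
    · rintro _ ⟨g, rfl⟩ _ ⟨h, rfl⟩
      exact ⟨_, matL_mul hv m g h⟩
    · rintro _ ⟨g, rfl⟩
      exact ⟨_, matL_adj hv hs m g⟩
    · intro T hT
      have hcomm : Comm (fun i j => cx (P i j)) T := by
        apply comm_of_forall
        intro x y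
        ext r s
        let g : B →ₗ[ℂ] ℂ :=
          { toFun := fun b => ρ b r s
            map_add' := fun a b => by rw [map_add]; rfl
            map_smul' := fun c a => by rw [map_smul]; rfl }
        have hg : ∀ x y : Fin m → Fin n, matL v m g x y =
            mon (fun i j => cx (P i j)) (List.ofFn x) (List.ofFn y) r s := by
          intro x y
          rw [matL_apply]
          change ρ (mon v (List.ofFn x) (List.ofFn y)) r s = _
          rw [← RingHom.coe_coe ρ, ← mon_map (ρ : B →+* Matrix (Fin 2) (Fin 2) ℂ)]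
          simp only [RingHom.coe_coe, hρ]
        have e := congrArg (fun M : Matrix (Fin m → Fin n) (Fin m → Fin n) ℂ => M x y)
          (hT _ ⟨g, rfl⟩)
        simp only [Matrix.mul_apply, hg] at e
        simp only [Matrix.sum_apply, Matrix.smul_apply, smul_eq_mul]
        rw [← e]
        exact Finset.sum_congr rfl (fun z _ => mul_comm _ _)
      have hmag : IsMagic (fun i j => cx (P i j)) := hP.map cx
      have h1 := fixed_of_comm hmag hcomm
      have h2 := TT_of_fixed_cx hfix h1
      have h3 := comm_of_fixed QPerm.u_magic (h2.fixed QPerm.u_magic)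
      ext x y
      rw [Matrix.mul_apply, Matrix.mul_apply]
      have h4 := congrArg f (comm_iff QPerm.u T x y h3)
      rw [map_sum, map_sum] at h4
      simp only [map_smul, smul_eq_mul] at h4
      simp only [matL_apply]
      rw [← h4]
      exact Finset.sum_congr rfl (fun z _ => mul_comm _ _)
  obtain ⟨g, hg⟩ := key
  exact ⟨g, hg.symm⟩

end main

end Run7.h417
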