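import Pool.Agent.Run7.h417.Chain3

/-!
A functional of the right weight which kills the caps and the chain vectors vanishes.
-/

namespace Run7.h417

open FreeAlgebra

theorem scalar_lemma {κ : Type*} [Fintype κ] [Nonempty κ] (L : ℕ) (A D : ℕ → ℝ) (C : κ → ℕ → ℝ)
    (h1 : ∀ t ≤ L, A t + D t + ∑ i, C i t = 0)
    (h2 : ∀ t < L, t % 2 = 0 → A (t+1) = - A t)
    (h2' : ∀ t < L, t % 2 = 1 → D (t+1) = - D t)
    (h3 : ∀ t < L, t % 2 = 0 → ∀ i, A t / 2 - C i t = A (t+1) / 2 - C i (t+1))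
    (h3' : ∀ t < L, t % 2 = 1 → ∀ i, D t / 2 - C i t = D (t+1) / 2 - C i (t+1))
    (h4 : ∀ i, D 0 / 2 - C i 0 = 0)
    (h5 : L % 2 = 0 → ∀ i, A L / 2 - C i L = 0)
    (h5' : L % 2 = 1 → ∀ i, D L / 2 - C i L = 0) :
    ∀ t ≤ L, A t = 0 ∧ D t = 0 ∧ ∀ i, C i t = 0 := by
  obtain ⟨i0⟩ : Nonempty κ := inferInstance
  have hC : ∀ t ≤ L, ∀ i, C i t = C i0 t := by
    intro t
    induction t with
    | zero => intro _ i; have := h4 i; have := h4 i0; linarith
    | succ t ih =>
      intro ht i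
      have e := ih (by omega) i
      rcases Nat.mod_two_eq_zero_or_one t with h | h
      · have := h3 t (by omega) h i; have := h3 t (by omega) h i0; linarith
      · have := h3' t (by omega) h i; have := h3' t (by omega) h i0; linarith
  have hPA : ∀ T ≤ L + 1, ∑ t ∈ Finset.range T, A t * (A t / 2 - C i0 t) =
      if T % 2 = 0 then 0 else A (T-1) * (A (T-1) / 2 - C i0 (T-1)) := by
    intro T
    induction T with
    | zero => simp
    | succ T ih =>
      intro hT
      rw [Finset.sum_range_succ, ih (by omega)]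
      rcases Nat.mod_two_eq_zero_or_one T with h | h
      · rw [if_pos h, if_neg (by omega)]; simp
      · rw [if_neg (by omega), if_pos (by omega)]
        obtain ⟨s, rfl⟩ : ∃ s, T = s + 1 := ⟨T - 1, by omega⟩
        have e1 := h2 s (by omega) (by omega)
        have e2 := h3 s (by omega) (by omega) i0
        simp only [Nat.add_sub_cancel]
        rw [← e2, e1]; ring
  have hPD : ∀ T ≤ L + 1, ∑ t ∈ Finset.range T, D t * (D t / 2 - C i0 t) =
      if T = 0 ∨ T % 2 = 1 then 0 else D (T-1) * (D (T-1) / 2 - C i0 (T-1)) := by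
    intro T
    induction T with
    | zero => simp
    | succ T ih =>
      intro hT
      rw [Finset.sum_range_succ, ih (by omega)]
      rcases Nat.mod_two_eq_zero_or_one T with h | h
      · rcases Nat.eq_zero_or_pos T with h0 | h0
        · subst h0
          rw [if_pos (by omega), if_pos (by omega), h4 i0]; ring
        · rw [if_neg (by omega), if_pos (by omega)]
          obtain ⟨s, rfl⟩ : ∃ s, T = s + 1 := ⟨T - 1, by omega⟩
          have e1 := h2' s (by omega) (by omega)
          have e2 := h3' s (by omega) (by omega) i0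
          simp only [Nat.add_sub_cancel]
          rw [← e2, e1]; ring
      · rw [if_pos (by omega), if_neg (by omega)]; simp
  have hA0 : ∑ t ∈ Finset.range (L+1), A t * (A t / 2 - C i0 t) = 0 := by
    rw [hPA _ le_rfl]
    by_cases h : (L+1) % 2 = 0
    · rw [if_pos h]
    · rw [if_neg h, Nat.add_sub_cancel, h5 (by omega) i0, mul_zero]
  have hD0 : ∑ t ∈ Finset.range (L+1), D t * (D t / 2 - C i0 t) = 0 := by
    rw [hPD _ le_rfl]
    by_cases h : L + 1 = 0 ∨ (L+1) % 2 = 1
    · rw [if_pos h]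
    · rw [if_neg h, Nat.add_sub_cancel, h5' (by omega) i0, mul_zero]
  have hN : (1 : ℝ) ≤ (Fintype.card κ : ℝ) := by
    have : 0 < Fintype.card κ := Fintype.card_pos_iff.mpr ⟨i0⟩
    exact_mod_cast this
  have hsum : ∑ t ∈ Finset.range (L+1), (A t * A t / 2 + D t * D t / 2 +
      (Fintype.card κ : ℝ) * (C i0 t * C i0 t)) = 0 := by
    have hs : ∑ t ∈ Finset.range (L+1), (A t * (A t / 2 - C i0 t) + D t * (D t / 2 - C i0 t)) = 0 := by
      rw [Finset.sum_add_distrib, hA0, hD0, add_zero]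
    rw [← hs]
    refine Finset.sum_congr rfl (fun t ht => ?_)
    have ht' : t ≤ L := by have := Finset.mem_range.mp ht; omega
    have e := h1 t ht'
    have e2 : ∑ i, C i t = (Fintype.card κ : ℝ) * C i0 t := by
      rw [Finset.sum_congr rfl (fun i _ => hC t ht' i)]
      simp
    rw [e2] at e
    have e3 : (Fintype.card κ : ℝ) * C i0 t = - (A t + D t) := by linarith
    have : (Fintype.card κ : ℝ) * (C i0 t * C i0 t) = - (A t + D t) * C i0 t := by
      rw [← mul_assoc, e3]
    rw [this]; ring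
  have hnn : ∀ t ∈ Finset.range (L+1), 0 ≤ (A t * A t / 2 + D t * D t / 2 +
      (Fintype.card κ : ℝ) * (C i0 t * C i0 t)) := by
    intro t _
    have := mul_self_nonneg (A t)
    have := mul_self_nonneg (D t)
    have := mul_self_nonneg (C i0 t)
    positivity
  rw [Finset.sum_eq_zero_iff_of_nonneg hnn] at hsum
  intro t ht
  have e := hsum t (Finset.mem_range.mpr (by omega))
  have p1 := mul_self_nonneg (A t)
  have p2 := mul_self_nonneg (D t)
  have p3 := mul_self_nonneg (C i0 t)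
  have p4 : 0 ≤ (Fintype.card κ : ℝ) * (C i0 t * C i0 t) := by positivity
  have p5 : C i0 t * C i0 t ≤ (Fintype.card κ : ℝ) * (C i0 t * C i0 t) := by nlinarith
  refine ⟨?_, ?_, ?_⟩
  · exact mul_self_eq_zero.mp (by linarith)
  · exact mul_self_eq_zero.mp (by linarith)
  · intro i
    rw [hC t ht i]
    exact mul_self_eq_zero.mp (by linarith)

set_option linter.unusedSectionVars false

section Z

variable {Λ : Type*} [DecidableEq Λ] {q : Four Λ}

theorem sum_four [Fintype Λ] [Fintype {c : Λ // Oth q c}] {M : Type*} [AddCommMonoid M]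
    (f : Λ → M) :
    ∑ i, f i = f q.a + f q.b + f q.d + f q.e + ∑ i : {c : Λ // Oth q c}, f i := by
  classical
  have h : ∀ i, i ∈ (Finset.univ \ {q.a, q.b, q.d, q.e} : Finset Λ) ↔ Oth q i := by
    intro i
    simp only [Finset.mem_sdiff, Finset.mem_univ, true_and, Finset.mem_insert,
      Finset.mem_singleton, not_or]
    exact ⟨fun ⟨h1, h2, h3, h4⟩ => ⟨h1, h2, h3, h4⟩, fun h => ⟨h.a, h.b, h.d, h.e⟩⟩
  rw [← Finset.sum_sdiff (Finset.subset_univ ({q.a, q.b, q.d, q.e} : Finset Λ)),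
    Finset.sum_subtype _ h, add_comm]
  congr 1
  rw [Finset.sum_insert, Finset.sum_insert, Finset.sum_insert, Finset.sum_singleton]
  · abel
  · simp [q.hde]
  · simp [q.hbd, q.hbe]
  · simp [q.hab, q.had, q.hae]

theorem fl_mem (j : ℕ) : q.fl j ∈ Wd (Λ := Λ) 1 := by
  unfold Four.fl Four.be Four.al
  split_ifs
  · exact Submodule.sub_mem _ (Wd_ι _) (Wd_ι _)
  · exact Submodule.sub_mem _ (Wd_ι _) (Wd_ι _)

theorem lw_mem (s m : ℕ) : q.lw s m ∈ Wd (Λ := Λ) m := by
  induction m with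
  | zero => exact Wd_one
  | succ m ih => exact Wd_mul ih (fl_mem _)

theorem Wd_bilin {φ : FreeAlgebra ℝ Λ →ₗ[ℝ] ℝ} {y : FreeAlgebra ℝ Λ} {m m' : ℕ}
    (h : ∀ u v : List Λ, u.length = m → v.length = m' → φ (wd u * y * wd v) = 0)
    {X Y : FreeAlgebra ℝ Λ} (hX : X ∈ Wd (Λ := Λ) m) (hY : Y ∈ Wd (Λ := Λ) m') :
    φ (X * y * Y) = 0 := by
  refine Wd_induction (p := fun X => φ (X * y * Y) = 0) ?_ (by simp) ?_ ?_ hX
  · intro u hu
    refine Wd_induction (p := fun Y => φ (wd u * y * Y) = 0) ?_ (by simp) ?_ ?_ hY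
    · intro v hv; exact h u v hu hv
    · intro a b ha hb; rw [mul_add, map_add, ha, hb, add_zero]
    · intro r a ha; rw [mul_smul_comm, map_smul, ha, smul_zero]
  · intro a b ha hb; rw [add_mul, add_mul, map_add, ha, hb, add_zero]
  · intro r a ha; rw [smul_mul_assoc, smul_mul_assoc, map_smul, ha, smul_zero]

theorem at'_add (L t : ℕ) (x y : FreeAlgebra ℝ Λ) :
    q.at' L t (x + y) = q.at' L t x + q.at' L t y := by
  unfold Four.at'
  split_ifs
  · rw [mul_add, add_mul]
  · simp

theorem at'_smul (L t : ℕ) (r : ℝ) (x : FreeAlgebra ℝ Λ) :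
    q.at' L t (r • x) = r • q.at' L t x := by
  unfold Four.at'
  split_ifs
  · rw [mul_smul_comm, smul_mul_assoc]
  · simp

theorem at'_sub (L t : ℕ) (x y : FreeAlgebra ℝ Λ) :
    q.at' L t (x - y) = q.at' L t x - q.at' L t y := by
  unfold Four.at'
  split_ifs
  · rw [mul_sub, sub_mul]
  · simp

theorem at'_sum {κ : Type*} (s : Finset κ) (L t : ℕ) (x : κ → FreeAlgebra ℝ Λ) :
    q.at' L t (∑ i ∈ s, x i) = ∑ i ∈ s, q.at' L t (x i) := by
  unfold Four.at'
  split_ifs
  · rw [Finset.mul_sum, Finset.sum_mul]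
  · simp

/-- neutral letters -/
noncomputable def Neu (q : Four Λ) : Submodule ℝ (FreeAlgebra ℝ Λ) :=
  Submodule.span ℝ ({q.ab, q.ed} ∪ {y | ∃ c, Oth q c ∧ y = ι ℝ c})

theorem Neu_Hm {y : FreeAlgebra ℝ Λ} (hy : y ∈ Neu q) : Hm q 0 y := by
  induction hy using Submodule.span_induction with
  | mem x hx =>
    rcases hx with (rfl | rfl) | ⟨c, hc, rfl⟩
    · exact Hm.ab
    · exact Hm.ed
    · exact Hm.oth hc
  | zero => exact Hm.zero _
  | add a b _ _ ha hb => exact ha.add hb
  | smul r a _ ha => exact ha.smul r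

theorem letter_decomp (i : Λ) : ∃ y ∈ Neu q, ∃ r r' : ℝ, ι ℝ i = y + r • q.be + r' • q.al := by
  by_cases ha : i = q.a
  · subst ha
    refine ⟨(1/2 : ℝ) • q.ab, Submodule.smul_mem _ _ (Submodule.subset_span (by simp)),
      1/2, 0, ?_⟩
    unfold Four.ab Four.be; module
  by_cases hb : i = q.b
  · subst hb
    refine ⟨(1/2 : ℝ) • q.ab, Submodule.smul_mem _ _ (Submodule.subset_span (by simp)),
      -1/2, 0, ?_⟩
    unfold Four.ab Four.be; module
  by_cases hd : i = q.d
  · subst hd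
    refine ⟨(1/2 : ℝ) • q.ed, Submodule.smul_mem _ _ (Submodule.subset_span (by simp)),
      0, -1/2, ?_⟩
    unfold Four.ed Four.al; module
  by_cases he : i = q.e
  · subst he
    refine ⟨(1/2 : ℝ) • q.ed, Submodule.smul_mem _ _ (Submodule.subset_span (by simp)),
      0, 1/2, ?_⟩
    unfold Four.ed Four.al; module
  refine ⟨ι ℝ i, Submodule.subset_span (Or.inr ⟨i, ⟨ha, hb, hd, he⟩, rfl⟩), 0, 0, ?_⟩
  module

theorem letter_decomp' (i : Λ) (m : ℕ) :
    ∃ y ∈ Neu q, ∃ r r' : ℝ, ι ℝ i = y + r • q.fl (m+1) + r' • q.fl m := by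
  obtain ⟨y, hy, r, r', h⟩ := letter_decomp (q := q) i
  rcases Nat.mod_two_eq_zero_or_one m with hm | hm
  · refine ⟨y, hy, r', r, ?_⟩
    unfold Four.fl
    rw [if_neg (by omega), if_pos hm, h]; abel
  · refine ⟨y, hy, r, r', ?_⟩
    unfold Four.fl
    rw [if_pos (by omega), if_neg (by omega), h]

/-- span of the one-particle vectors -/
noncomputable def Mid (q : Four Λ) (m : ℕ) : Submodule ℝ (FreeAlgebra ℝ Λ) :=
  Submodule.span ℝ {x | ∃ t ≤ m, ∃ y ∈ Neu q, x = q.at' m t y}

/-- the sum of all pieces -/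
noncomputable def Sall (q : Four Λ) (m : ℕ) : Submodule ℝ (FreeAlgebra ℝ Λ) :=
  Submodule.span ℝ {q.lw 0 (m+1)} ⊔ Mid q m ⊔ q.Gl m

theorem Mid_Hm {m : ℕ} {x : FreeAlgebra ℝ Λ} (hx : x ∈ Mid q m) : Hm q m x := by
  induction hx using Submodule.span_induction with
  | mem x hx => obtain ⟨t, _, y, hy, rfl⟩ := hx; exact Hm.at' (Neu_Hm hy)
  | zero => exact Hm.zero _
  | add a b _ _ ha hb => exact ha.add hb
  | smul r a _ ha => exact ha.smul r

theorem Mid_fl {m : ℕ} {x : FreeAlgebra ℝ Λ} (hx : x ∈ Mid q m) :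
    x * q.fl m ∈ Mid q (m+1) := by
  induction hx using Submodule.span_induction with
  | mem x hx =>
    obtain ⟨t, ht, y, hy, rfl⟩ := hx
    refine Submodule.subset_span ⟨t, by omega, y, hy, ?_⟩
    unfold Four.at'
    rw [if_pos ht, if_pos (by omega), show m + 1 - t = (m - t) + 1 by omega, q.lw_succ,
      show t + (m - t) = m by omega]
    simp only [mul_assoc]
  | zero => simp
  | add a b _ _ ha hb => rw [add_mul]; exact Submodule.add_mem _ ha hb
  | smul r a _ ha => rw [smul_mul_assoc]; exact Submodule.smul_mem _ _ ha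

theorem Sall_mul {m : ℕ} {x : FreeAlgebra ℝ Λ} (hx : x ∈ Sall q m) (i : Λ) :
    x * ι ℝ i ∈ Sall q (m+1) := by
  obtain ⟨y, hy, r, r', hi⟩ := letter_decomp' (q := q) i m
  have hG : q.Gl ((m+1 : ℕ) : ℤ) ≤ Sall q (m+1) := le_sup_right
  have hM : Mid q (m+1) ≤ Sall q (m+1) := le_sup_of_le_left le_sup_right
  have hle : q.Gl (m : ℤ) ≤ q.Gl ((m+1 : ℕ) : ℤ) := Gl_mono (by push_cast; omega)
  have hy0 := Neu_Hm hy
  obtain ⟨x', hx', g, hg, rfl⟩ := Submodule.mem_sup.mp hx
  obtain ⟨x1, hx1, x2, hx2, rfl⟩ := Submodule.mem_sup.mp hx'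
  obtain ⟨c, rfl⟩ := Submodule.mem_span_singleton.mp hx1
  rw [hi]
  have e : (c • q.lw 0 (m+1) + x2 + g) * (y + r • q.fl (m+1) + r' • q.fl m) =
      (c * r) • q.lw 0 (m+1+1) + (q.at' (m+1) (m+1) (c • y) + r' • (x2 * q.fl m)) +
      ((c * r') • (q.lw 0 (m+1) * q.fl m) + (x2 * y + r • (x2 * q.fl (m+1))) +
        (g * y + (r • (g * q.fl (m+1)) + r' • (g * q.fl m)))) := by
    unfold Four.at'
    rw [if_pos le_rfl, Nat.sub_self, q.lw_zero, mul_one, q.lw_succ 0 (m+1), zero_add]
    simp only [mul_add, add_mul, mul_smul_comm, smul_mul_assoc, smul_smul]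
    module
  rw [e]
  refine Submodule.add_mem _ (Submodule.add_mem _ ?_ (Submodule.add_mem _ ?_ ?_))
    (Submodule.add_mem _ (Submodule.add_mem _ ?_ (Submodule.add_mem _ ?_ ?_))
      (Submodule.add_mem _ ?_ (Submodule.add_mem _ ?_ ?_)))
  · exact Submodule.smul_mem _ _ (Submodule.mem_sup_left (Submodule.mem_sup_left
      (Submodule.mem_span_singleton_self _)))
  · exact hM (Submodule.subset_span ⟨m+1, le_rfl, _, Submodule.smul_mem _ _ hy, rfl⟩)
  · exact Submodule.smul_mem _ _ (hM (Mid_fl hx2))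
  · refine Submodule.smul_mem _ _ (hG ?_)
    refine ((Hm.lw (m+1)).mul (Hm.fl m)).mem_Gl ?_
    push_cast
    rw [sgz_succ, neg_mul, sgz_sq]; omega
  · exact hG (((Mid_Hm hx2).mul0 hy0).mem_Gl (by push_cast; omega))
  · refine Submodule.smul_mem _ _ (hG ?_)
    refine ((Mid_Hm hx2).mul (Hm.fl (m+1))).mem_Gl ?_
    push_cast
    rw [sgz_succ, mul_neg, sgz_sq]; omega
  · exact hG (hle (Gl_mul0 hg hy0))
  · exact Submodule.smul_mem _ _ (hG (by
      have := Gl_mul1 (sgz_or _) hg (Hm.fl (q := q) (m+1))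
      exact_mod_cast this))
  · exact Submodule.smul_mem _ _ (hG (hle (Gl_raise hg (Hm.fl m))))

theorem wd_mem_Sall {m : ℕ} : ∀ w : List Λ, w.length = m + 1 → wd w ∈ Sall q m := by
  induction m with
  | zero =>
    intro w hw
    obtain ⟨i, rfl⟩ := List.length_eq_one_iff.mp hw
    rw [wd_singleton]
    obtain ⟨y, hy, r, r', hi⟩ := letter_decomp (q := q) i
    rw [hi]
    refine Submodule.add_mem _ (Submodule.add_mem _ ?_ ?_) ?_
    · refine Submodule.mem_sup_left (Submodule.mem_sup_right (Submodule.subset_span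
        ⟨0, le_rfl, y, hy, ?_⟩))
      simp [Four.at']
    · refine Submodule.smul_mem _ _ (Submodule.mem_sup_left (Submodule.mem_sup_left ?_))
      have : q.be = q.lw 0 (0+1) := by simp [Four.lw, Four.fl]
      rw [this]; exact Submodule.mem_span_singleton_self _
    · exact Submodule.smul_mem _ _ (Submodule.mem_sup_right (Hm.al.mem_Gl (by norm_num)))
  | succ m ih =>
    intro w hw
    obtain ⟨w', i, rfl⟩ : ∃ w' i, w = w' ++ [i] := by
      refine ⟨w.dropLast, w.getLast (by rintro rfl; simp at hw), ?_⟩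
      exact (List.dropLast_append_getLast _).symm
    rw [wd_append, wd_singleton]
    exact Sall_mul (ih w' (by simpa using hw)) i

theorem lemZ [Fintype Λ] {φ : FreeAlgebra ℝ Λ →ₗ[ℝ] ℝ} {L : ℕ} (ho : ∃ c, Oth q c)
    (h1 : ∀ u v : List Λ, u.length + v.length = L → φ (wd u * (∑ i, ι ℝ i) * wd v) = 0)
    (h2 : ∀ (u : List Λ) (i : Λ) (v : List Λ), u.length + v.length + 1 = L →
      φ (wd u * (ι ℝ i * ι ℝ i) * wd v) = 0)
    (h3 : ∀ P x, Hm q P x → P ≠ L → φ x = 0)
    (h4 : ∀ c, Oth q c → ∀ m ≤ L + 1, φ (q.z c L m) = 0) :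
    ∀ w : List Λ, w.length = L + 1 → φ (wd w) = 0 := by
  have : Nonempty {c : Λ // Oth q c} := by obtain ⟨c, hc⟩ := ho; exact ⟨⟨c, hc⟩⟩
  have : Fintype {c : Λ // Oth q c} := Fintype.ofFinite _
  have H1 : ∀ t ≤ L, φ (q.at' L t (∑ i, ι ℝ i)) = 0 := by
    intro t ht
    unfold Four.at'
    rw [if_pos ht]
    exact Wd_bilin (fun u v hu hv => h1 u v (by omega)) (lw_mem 0 t) (lw_mem t (L - t))
  have H2 : ∀ i, ∀ t < L, φ (q.lw 0 t * (ι ℝ i * ι ℝ i) * q.lw (t+1) (L - t - 1)) = 0 := by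
    intro i t ht
    exact Wd_bilin (fun u v hu hv => h2 u i v (by omega)) (lw_mem 0 t) (lw_mem (t+1) (L - t - 1))
  have hat1 : ∀ t < L, ∀ y, q.at' L t y = q.lw 0 t * (y * q.fl t) * q.lw (t+1) (L - t - 1) := by
    intro t ht y
    unfold Four.at'
    rw [if_pos (by omega), show L - t = (L - t - 1) + 1 by omega, q.lw_cons,
      Nat.add_sub_cancel]
    simp only [mul_assoc]
  have hat2 : ∀ t < L, ∀ y, q.at' L (t+1) y =
      q.lw 0 t * (q.fl t * y) * q.lw (t+1) (L - t - 1) := by
    intro t ht y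
    unfold Four.at'
    rw [if_pos (by omega), q.lw_succ, zero_add, show L - (t+1) = L - t - 1 by omega]
    simp only [mul_assoc]
  have key := scalar_lemma (κ := {c : Λ // Oth q c}) L (fun t => φ (q.at' L t q.ab))
    (fun t => φ (q.at' L t q.ed)) (fun c t => φ (q.at' L t (ι ℝ c.1))) ?_ ?_ ?_ ?_ ?_ ?_ ?_ ?_
  · -- conclusion
    have hMid : ∀ x ∈ Mid q L, φ x = 0 := by
      intro x hx
      induction hx using Submodule.span_induction with
      | mem x hx =>
        obtain ⟨t, ht, y, hy, rfl⟩ := hx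
        obtain ⟨k1, k2, k3⟩ := key t ht
        induction hy using Submodule.span_induction with
        | mem y hy =>
          rcases hy with (rfl | rfl) | ⟨c, hc, rfl⟩
          · exact k1
          · exact k2
          · exact k3 ⟨c, hc⟩
        | zero =>
          have : q.at' L t (0 : FreeAlgebra ℝ Λ) = 0 := by simp [Four.at']
          rw [this, map_zero]
        | add a b _ _ ha hb => rw [at'_add, map_add, ha, hb, add_zero]
        | smul r a _ ha => rw [at'_smul, map_smul, ha, smul_zero]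
      | zero => simp
      | add a b _ _ ha hb => rw [map_add, ha, hb, add_zero]
      | smul r a _ ha => rw [map_smul, ha, smul_zero]
    have hGl : ∀ x ∈ q.Gl (L : ℤ), φ x = 0 := by
      intro x hx
      induction hx using Submodule.span_induction with
      | mem x hx => obtain ⟨P, hP, hx⟩ := hx; exact h3 P x hx (by omega)
      | zero => simp
      | add a b _ _ ha hb => rw [map_add, ha, hb, add_zero]
      | smul r a _ ha => rw [map_smul, ha, smul_zero]
    intro w hw
    have := wd_mem_Sall (q := q) w hw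
    obtain ⟨x', hx', g, hg, e⟩ := Submodule.mem_sup.mp this
    obtain ⟨x1, hx1, x2, hx2, rfl⟩ := Submodule.mem_sup.mp hx'
    obtain ⟨c, rfl⟩ := Submodule.mem_span_singleton.mp hx1
    rw [← e, map_add, map_add, map_smul, hMid x2 hx2, hGl g hg,
      h3 _ _ (Hm.lw (L+1)) (by push_cast; omega)]
    simp
  · -- h1
    intro t ht
    have := H1 t ht
    rw [sum_four (q := q)] at this
    rw [at'_add, at'_sum, map_add, map_sum] at this
    have e : ι ℝ q.a + ι ℝ q.b + ι ℝ q.d + ι ℝ q.e = q.ab + q.ed := by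
      unfold Four.ab Four.ed; abel
    rw [e, at'_add, map_add] at this
    exact this
  · -- h2
    intro t ht hpar
    have e : q.at' L (t+1) q.ab + q.at' L t q.ab =
        (2 : ℝ) • (q.lw 0 t * (ι ℝ q.a * ι ℝ q.a) * q.lw (t+1) (L - t - 1)) -
        (2 : ℝ) • (q.lw 0 t * (ι ℝ q.b * ι ℝ q.b) * q.lw (t+1) (L - t - 1)) := by
      rw [hat1 t ht, hat2 t ht, ← add_mul, ← mul_add, ← smul_sub, ← sub_mul, ← mul_sub,
        ← smul_mul_assoc, ← mul_smul_comm]
      congr 2
      unfold Four.fl Four.ab Four.be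
      rw [if_pos hpar]
      simp only [mul_add, add_mul, mul_sub, sub_mul]
      module
    have e2 := congrArg φ e
    rw [map_add, map_sub, map_smul, map_smul, H2 _ t ht, H2 _ t ht, smul_zero, sub_zero] at e2
    linarith
  · intro t ht hpar
    have e : q.at' L (t+1) q.ed + q.at' L t q.ed =
        (2 : ℝ) • (q.lw 0 t * (ι ℝ q.e * ι ℝ q.e) * q.lw (t+1) (L - t - 1)) -
        (2 : ℝ) • (q.lw 0 t * (ι ℝ q.d * ι ℝ q.d) * q.lw (t+1) (L - t - 1)) := by
      rw [hat1 t ht, hat2 t ht, ← add_mul, ← mul_add, ← smul_sub, ← sub_mul, ← mul_sub,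
        ← smul_mul_assoc, ← mul_smul_comm]
      congr 2
      unfold Four.fl Four.ed Four.al
      rw [if_neg (by omega)]
      simp only [mul_add, add_mul, mul_sub, sub_mul]
      module
    have e2 := congrArg φ e
    rw [map_add, map_sub, map_smul, map_smul, H2 _ t ht, H2 _ t ht, smul_zero, sub_zero] at e2
    linarith
  · -- h3
    intro t ht hpar c
    have := h4 c.1 c.2 (t+1) (by omega)
    simp only [Four.z, Four.Kp, if_pos hpar, at'_sub, at'_smul, map_sub, map_smul,
      smul_eq_mul] at this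
    linarith
  · intro t ht hpar c
    have := h4 c.1 c.2 (t+1) (by omega)
    simp only [Four.z, Four.Kp, if_neg (show ¬ t % 2 = 0 by omega), at'_sub, at'_smul, map_sub,
      map_smul, smul_eq_mul] at this
    linarith
  · intro c
    have := h4 c.1 c.2 0 (by omega)
    simp only [Four.z, Four.Kp, if_neg (show ¬ 1 % 2 = 0 by omega), at'_sub, at'_smul, map_sub,
      map_smul, smul_eq_mul, map_neg] at this
    linarith
  · intro hpar c
    have := h4 c.1 c.2 (L+1) (by omega)
    simp only [Four.z, Four.Kp, if_pos hpar, at'_sub, at'_smul, map_sub, map_smul,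
      smul_eq_mul, at'_out (show L < L + 1 by omega), map_zero] at this
    linarith
  · intro hpar c
    have := h4 c.1 c.2 (L+1) (by omega)
    simp only [Four.z, Four.Kp, if_neg (show ¬ L % 2 = 0 by omega), at'_sub, at'_smul, map_sub,
      map_smul, smul_eq_mul, at'_out (show L < L + 1 by omega), map_zero] at this
    linarith

end Z

end Run7.h417
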