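import Pool.Agent.Run7.h417.Quad
import Pool.Agent.Run7.h417.LemZ

/-!
The magic matrix describing the skew derivation, and its fixed functions.
-/

namespace Run7.h417

open FreeAlgebra

set_option linter.unusedSectionVars false

section Mm

variable {Λ : Type*} [DecidableEq Λ] (q : Four Λ)

theorem Four.x_x (i : Λ) : q.x (q.x i) = i := by
  rw [← Equiv.Perm.mul_apply, q.xx]; rfl

/-- the sign attached to a letter -/
def Four.sg (i : Λ) : ℝ :=
  if i = q.a ∨ i = q.b then 1 else if i = q.d ∨ i = q.e then -1 else 0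

theorem Four.sg_x (i : Λ) : q.sg (q.x i) = q.sg i := by
  by_cases ha : i = q.a
  · subst ha; rw [q.xa]; simp [Four.sg]
  by_cases hb : i = q.b
  · subst hb; rw [q.xb]; simp [Four.sg]
  by_cases hd : i = q.d
  · subst hd; rw [q.xd]; simp [Four.sg, q.hae.symm, q.hbe.symm, q.had.symm, q.hbd.symm]
  by_cases he : i = q.e
  · subst he; rw [q.xe]; simp [Four.sg, q.hae.symm, q.hbe.symm, q.had.symm, q.hbd.symm]
  rw [q.xo ha hb hd he]

theorem Four.Pe_eq (i : Λ) : q.Pe i = (1/2 * q.sg i) • (ι ℝ i - ι ℝ (q.x i)) := by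
  by_cases ha : i = q.a
  · subst ha; rw [q.xa, q.Pe_a]; simp [Four.sg]
  by_cases hb : i = q.b
  · subst hb; rw [q.xb, q.Pe_b]; simp [Four.sg]
  by_cases hd : i = q.d
  · subst hd; rw [q.xd, q.Pe_d]
    simp only [Four.sg, q.had.symm, q.hbd.symm, or_self, if_false, true_or, if_true]
    module
  by_cases he : i = q.e
  · subst he; rw [q.xe, q.Pe_e]
    simp only [Four.sg, q.hae.symm, q.hbe.symm, or_self, if_false, or_true, if_true]
    module
  rw [q.Pe_o ha hb hd he, q.xo ha hb hd he]
  simp

/-- coefficients of the skew derivation -/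
noncomputable def Four.pe (i j : Λ) : ℝ :=
  1/2 * q.sg i * ((if i = j then 1 else 0) - (if q.x i = j then 1 else 0))

/-- the magic matrix of the skew derivation -/
noncomputable def Four.Mm (i j : Λ) : Matrix (Fin 2) (Fin 2) ℝ :=
  !![if q.x i = j then 1 else 0, q.pe i j; 0, if i = j then 1 else 0]

theorem Four.x_eq_iff (i j : Λ) : q.x i = j ↔ q.x j = i := by
  constructor
  · rintro rfl; exact q.x_x i
  · rintro rfl; exact q.x_x j

theorem Four.pe_symm (i j : Λ) : q.pe i j = q.pe j i := by
  unfold Four.pe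
  by_cases h : i = j
  · subst h; rfl
  · by_cases hx : q.x i = j
    · subst hx
      rw [q.sg_x, q.x_x]
      simp [eq_comm]
    · have hx' : ¬ q.x j = i := fun h' => hx ((q.x_eq_iff j i).mp h')
      simp [h, hx, hx', Ne.symm h]

theorem Four.Mm_symm (i j : Λ) : q.Mm i j = q.Mm j i := by
  unfold Four.Mm
  rw [q.pe_symm i j]
  simp only [q.x_eq_iff i j, eq_comm (a := i) (b := j)]

theorem ut_mul (a b d a' b' d' : ℝ) :
    (!![a, b; 0, d] : Matrix (Fin 2) (Fin 2) ℝ) * !![a', b'; 0, d'] =
      !![a * a', a * b' + b * d'; 0, d * d'] := by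
  ext r s; fin_cases r <;> fin_cases s <;> simp [Matrix.mul_apply, Fin.sum_univ_two]

theorem ind_sq (p : Prop) [Decidable p] :
    (if p then (1:ℝ) else 0) * (if p then 1 else 0) = if p then 1 else 0 := by
  split_ifs <;> simp

theorem ind_mul_zero (p p' : Prop) [Decidable p] [Decidable p'] (h : p → p' → False) :
    (if p then (1:ℝ) else 0) * (if p' then 1 else 0) = 0 := by
  by_cases hp : p
  · rw [if_neg (fun hp' => h hp hp')]; simp
  · rw [if_neg hp]; simp

theorem Four.Mm_magic [Fintype Λ] : IsMagic q.Mm where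
  idem i j := by
    unfold Four.Mm Four.pe
    rw [ut_mul]
    have h1 := ind_sq (q.x i = j)
    have h2 := ind_sq (i = j)
    generalize (if q.x i = j then (1:ℝ) else 0) = α at *
    generalize (if i = j then (1:ℝ) else 0) = δ at *
    rw [h1, h2, show α * (1 / 2 * q.sg i * (δ - α)) + 1 / 2 * q.sg i * (δ - α) * δ =
      1 / 2 * q.sg i * (δ - α) by linear_combination 1/2 * q.sg i * (h2 - h1)]
  row i j k hjk := by
    unfold Four.Mm Four.pe
    rw [ut_mul]
    have h1 := ind_mul_zero (q.x i = j) (q.x i = k) (fun h h' => hjk (h.symm.trans h'))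
    have h2 := ind_mul_zero (i = j) (i = k) (fun h h' => hjk (h.symm.trans h'))
    generalize (if q.x i = j then (1:ℝ) else 0) = α at *
    generalize (if i = j then (1:ℝ) else 0) = δ at *
    generalize (if q.x i = k then (1:ℝ) else 0) = α' at *
    generalize (if i = k then (1:ℝ) else 0) = δ' at *
    rw [h1, h2, show α * (1 / 2 * q.sg i * (δ' - α')) + 1 / 2 * q.sg i * (δ - α) * δ' =
      0 by linear_combination 1/2 * q.sg i * (h2 - h1)]
    ext r s; fin_cases r <;> fin_cases s <;> simp
  col i j k hjk := by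
    unfold Four.Mm Four.pe
    rw [ut_mul]
    have h1 := ind_mul_zero (q.x j = i) (q.x k = i)
      (fun h h' => hjk (q.x.injective (h.trans h'.symm)))
    have h2 := ind_mul_zero (j = i) (k = i) (fun h h' => hjk (h.trans h'.symm))
    have h3 : (q.sg k - q.sg j) * ((if q.x j = i then (1:ℝ) else 0) *
        (if k = i then (1:ℝ) else 0)) = 0 := by
      by_cases h : q.x j = i
      · by_cases h' : k = i
        · rw [h', ← h, q.sg_x, sub_self, zero_mul]
        · rw [if_neg h']; simp
      · rw [if_neg h]; simp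
    generalize (if q.x j = i then (1:ℝ) else 0) = α at *
    generalize (if j = i then (1:ℝ) else 0) = δ at *
    generalize (if q.x k = i then (1:ℝ) else 0) = α' at *
    generalize (if k = i then (1:ℝ) else 0) = δ' at *
    rw [h1, h2, show α * (1 / 2 * q.sg k * (δ' - α')) + 1 / 2 * q.sg j * (δ - α) * δ' =
      0 by linear_combination 1/2 * h3 - 1/2 * q.sg k * h1 + 1/2 * q.sg j * h2]
    ext r s; fin_cases r <;> fin_cases s <;> simp
  rowsum i := by
    ext r s
    rw [Matrix.sum_apply]
    fin_cases r <;> fin_cases s <;> simp [Four.Mm, Four.pe, ← Finset.mul_sum]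
  colsum j := by
    ext r s
    rw [Matrix.sum_apply]
    fin_cases r <;> fin_cases s
    · simp only [Four.Mm]
      have : ∀ i, (q.x i = j) = (i = q.x j) := by
        intro i; rw [q.x_eq_iff]; simp [eq_comm]
      simp [this]
    · simp only [Four.Mm, Four.pe]
      have : ∀ i, (q.x i = j) = (i = q.x j) := by
        intro i; rw [q.x_eq_iff]; simp [eq_comm]
      simp [this, mul_sub, q.sg_x]
    · simp [Four.Mm]
    · simp [Four.Mm]

end Mm

section Inv

variable {Λ : Type*} [DecidableEq Λ] [Fintype Λ] (q : Four Λ)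

/-- functions invariant under a set `G` of permutations and the skew derivation -/
def Inv (G : Set (Equiv.Perm Λ)) (k : ℕ) (F : List Λ → ℝ) : Prop :=
  (∀ g ∈ G, ∀ w : List Λ, w.length = k → F (w.map g) = F w) ∧ FixedBy q.Mm k F

omit [Fintype Λ] in
theorem TT.perm {k : ℕ} {F : List Λ → ℝ} (hF : TT k F) (g : Equiv.Perm Λ) :
    ∀ w : List Λ, w.length = k → F (w.map g) = F w := by
  induction hF with
  | base F =>
    intro w hw
    obtain rfl := List.length_eq_zero_iff.mp hw
    rfl
  | @ins k j hj F F' hF h ih =>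
    intro w hw
    obtain ⟨u, i, v, hu, rfl⟩ := exists_split w j (by omega)
    have hlen : u.length + v.length = k := by simp at hw; omega
    rw [List.map_append, List.map_cons, h u i v hu hlen, h (u.map g) (g i) (v.map g) (by simpa)
      (by simpa), ← List.map_append, ih _ (by simpa using hlen)]
  | @dup k j hj F F' hF h ih =>
    intro w hw
    obtain ⟨u, i, i', v, hu, rfl⟩ := exists_split2 w j (by omega)
    have hlen : u.length + v.length + 1 = k := by simp at hw; omega
    rw [List.map_append, List.map_cons, List.map_cons, h u i i' v hu hlen,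
      h (u.map g) (g i) (g i') (v.map g) (by simpa) (by simpa)]
    by_cases hii : i = i'
    · subst hii
      rw [if_pos rfl, if_pos rfl]
      have := ih (u ++ i :: v) (by simp; omega)
      simpa using this
    · rw [if_neg hii, if_neg (fun h' => hii (g.injective h'))]
  | @add k F G hF hG ihF ihG =>
    intro w hw
    simp only [ihF w hw, ihG w hw]
  | @smul k c F hF ihF =>
    intro w hw
    simp only [ihF w hw]
  | @congr k F G hF h ihF =>
    intro w hw
    rw [← h w hw, ← h _ (by simpa using hw), ihF w hw]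

theorem Inv.good (G : Set (Equiv.Perm Λ)) : Good (Inv q G) where
  tt k F hF := ⟨fun g _ => hF.perm g, hF.fixed q.Mm_magic⟩
  sub k F F' hF hF' := ⟨fun g hg w hw => by simp only [hF.1 g hg w hw, hF'.1 g hg w hw],
    hF.2.sub hF'.2⟩
  congr k F F' hF h := ⟨fun g hg w hw => by
      rw [← h w hw, ← h _ (by simpa using hw), hF.1 g hg w hw], hF.2.congr h⟩
  capS k j F hj hF := by
    refine ⟨fun g hg w hw => ?_, hF.2.capS q.Mm_magic hj⟩
    unfold capS
    rw [← Equiv.sum_comp g]
    refine Finset.sum_congr rfl (fun i _ => ?_)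
    have := hF.1 g hg (w.take j ++ i :: w.drop j) (by simp; omega)
    simpa [List.map_take, List.map_drop] using this
  capD k j F hj hF := by
    refine ⟨fun g hg w hw => ?_, hF.2.capD q.Mm_magic hj⟩
    unfold capD
    have := hF.1 g hg (w.take (j+1) ++ w.drop j) (by simp; omega)
    simpa [List.map_take, List.map_drop] using this

variable {q}

/-- `adjugate` as a linear map -/
def adjL : Matrix (Fin 2) (Fin 2) ℝ →ₗ[ℝ] Matrix (Fin 2) (Fin 2) ℝ where
  toFun X := X.adjugate
  map_add' X Y := by
    simp only [Matrix.adjugate_fin_two, Matrix.add_apply]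
    ext i j; fin_cases i <;> fin_cases j <;> simp <;> ring
  map_smul' r X := by simp [Matrix.adjugate_fin_two]

theorem adjL_Mm (i j : Λ) : adjL (q.Mm i j) = q.Mm (q.x i) j := by
  change (q.Mm i j).adjugate = _
  unfold Four.Mm
  rw [Matrix.adjugate_fin_two_of, q.x_x]
  have : q.pe (q.x i) j = - q.pe i j := by
    unfold Four.pe
    rw [q.x_x, q.sg_x]; ring
  rw [this]
  ext r s; fin_cases r <;> fin_cases s <;> simp

theorem Inv.rev {G : Set (Equiv.Perm Λ)} (hG : q.x ∈ G) {k : ℕ} {F : List Λ → ℝ}
    (hF : Inv q G k F) : Inv q G k (fun w => F w.reverse) := by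
  refine ⟨fun g hg w hw => ?_, ?_⟩
  · simp only [← List.map_reverse]
    exact hF.1 g hg _ (by simpa using hw)
  · have h1 := hF.2.anti adjL (by change (1 : Matrix (Fin 2) (Fin 2) ℝ).adjugate = 1; simp)
      (fun a b => Matrix.adjugate_mul_distrib a b)
    simp only [adjL_Mm] at h1
    have h2 := h1.shift q.x (fun w hw => by
      simp only [← List.map_reverse]
      exact hF.1 q.x hG _ (by simpa using hw))
    simpa only [q.x_x] using h2

theorem Inv.quadr {G : Set (Equiv.Perm Λ)} (hG : q.x ∈ G) {p r : ℕ} {F : List Λ → ℝ}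
    (hF : Inv q G (p + r) F) : Inv q G (p + p) (quad p r F) := by
  refine ⟨fun g hg w hw => ?_, hF.2.quadr q.Mm_magic (hF.rev hG).2⟩
  unfold quad
  rw [← wsum_map g]
  refine wsum_congr _ (fun v hv => ?_)
  have h1 := hF.1 g hg (w.take p ++ v) (by simp; omega)
  have h2 := hF.1 g hg ((w.drop p).reverse ++ v) (by simp; omega)
  rw [List.map_append] at h1 h2
  rw [← List.map_take, ← List.map_drop, ← List.map_reverse, h1, h2]

end Inv

section hat

variable {Λ : Type*} [DecidableEq Λ] [Fintype Λ] (q : Four Λ)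

theorem Four.Phi_ι' (i : Λ) (r s : Fin 2) :
    q.Phi (ι ℝ i) r s = ∑ a, q.Mm i a r s • ι ℝ a := by
  rw [q.Phi_ι]
  fin_cases r <;> fin_cases s
  · simp [Four.Mm, ite_smul]
  · simp [Four.Mm, Four.pe, q.Pe_eq, sub_smul, mul_smul, smul_sub, mul_sub, ite_smul,
      Finset.sum_sub_distrib]
  · simp [Four.Mm]
  · simp [Four.Mm, ite_smul]

theorem Four.Phi_wd (w : List Λ) : ∀ r s : Fin 2, q.Phi (wd w) r s =
    wsum w.length (fun j => mon q.Mm w j r s • wd j) := by
  induction w with
  | nil =>
    intro r s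
    simp [Matrix.one_apply]
  | cons i w ih =>
    intro r s
    rw [wd_cons, map_mul, Matrix.mul_apply, List.length_cons, wsum_succ]
    have : ∀ a : Λ, wsum w.length (fun j => mon q.Mm (i :: w) (a :: j) r s • wd (a :: j)) =
        ∑ t, (q.Mm i a r t • ι ℝ a) * wsum w.length (fun j => mon q.Mm w j t s • wd j) := by
      intro a
      simp only [← wsum_mul_left]
      rw [← wsum_sum_comm]
      refine wsum_congr _ (fun j _ => ?_)
      rw [mon_cons, Matrix.mul_apply, Finset.sum_smul, wd_cons]
      refine Finset.sum_congr rfl (fun t _ => ?_)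
      rw [smul_mul_smul_comm]
    rw [Finset.sum_congr rfl (fun a _ => this a), Finset.sum_comm]
    refine Finset.sum_congr rfl (fun t _ => ?_)
    rw [q.Phi_ι', Finset.sum_mul, ih t s]

theorem Four.Pop_wd (w : List Λ) : q.Pop (wd w) =
    wsum w.length (fun j => mon q.Mm w j 0 1 • wd j) := q.Phi_wd w 0 1

/-- functions supported on words of length `k` -/
def Supp (k : ℕ) (F : List Λ → ℝ) : Prop := ∀ w : List Λ, w.length ≠ k → F w = 0

variable {q}

omit [DecidableEq Λ] in
theorem hat_ext_wd {M : Type*} [AddCommMonoid M] [Module ℝ M] {f g : FreeAlgebra ℝ Λ →ₗ[ℝ] M}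
    (h : ∀ w : List Λ, f (wd w) = g (wd w)) : f = g := by
  refine LinearMap.ext_on_range (v := wd (Λ := Λ)) span_wd h

theorem Inv.hat_Pop {G : Set (Equiv.Perm Λ)} {k : ℕ} {F : List Λ → ℝ}
    (hF : Inv q G k F) (hs : Supp k F) (x : FreeAlgebra ℝ Λ) : hat F (q.Pop x) = 0 := by
  have : (hat F).comp q.Pop = 0 := by
    apply hat_ext_wd
    intro w
    rw [LinearMap.comp_apply, q.Pop_wd, map_wsum, LinearMap.zero_apply]
    by_cases hw : w.length = k
    · have e := congrArg (fun X : Matrix (Fin 2) (Fin 2) ℝ => X 0 1) (hF.2 w hw)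
      simp only [Matrix.smul_apply, Matrix.one_apply] at e
      rw [show (if (0 : Fin 2) = 1 then (1:ℝ) else 0) = 0 by simp, smul_zero] at e
      rw [← e, hw]
      have h2 : ∀ X : List Λ → Matrix (Fin 2) (Fin 2) ℝ, wsum k X 0 1 =
          wsum k (fun j => X j 0 1) := by
        intro X
        simp only [wsum_eq_sum, Matrix.sum_apply]
      rw [h2]
      refine wsum_congr _ (fun j _ => ?_)
      rw [map_smul, hat_wd, Matrix.smul_apply, smul_eq_mul, smul_eq_mul, mul_comm]
    · refine wsum_eq_zero _ (fun j hj => ?_)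
      rw [map_smul, hat_wd, hs j (by omega), smul_zero]
  exact congrArg (fun f => f x) this

theorem Inv.hat_rho {G : Set (Equiv.Perm Λ)} {k : ℕ} {F : List Λ → ℝ}
    (hF : Inv q G k F) (hs : Supp k F) {g : Equiv.Perm Λ} (hg : g ∈ G) (x : FreeAlgebra ℝ Λ) :
    hat F (rho g x) = hat F x := by
  have : (hat F).comp (rho g).toLinearMap = hat F := by
    apply hat_ext_wd
    intro w
    rw [LinearMap.comp_apply, AlgHom.toLinearMap_apply, rho_wd, hat_wd, hat_wd]
    by_cases hw : w.length = k
    · exact hF.1 g hg w hw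
    · rw [hs w hw, hs _ (by simpa using hw)]
  exact congrArg (fun f => f x) this

theorem Pop_self_adjoint (k : ℕ) (f g : List Λ → ℝ) :
    wsum k (fun w => hat f (q.Pop (wd w)) * g w) = wsum k (fun w => f w * hat g (q.Pop (wd w))) := by
  have h : ∀ f g : List Λ → ℝ, wsum k (fun w => hat f (q.Pop (wd w)) * g w) =
      wsum k (fun w => wsum k (fun j => mon q.Mm w j 0 1 * (f j * g w))) := by
    intro f g
    refine wsum_congr _ (fun w hw => ?_)
    rw [q.Pop_wd, map_wsum, ← wsum_mul_right, hw]
    refine wsum_congr _ (fun j hj => ?_)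
    rw [map_smul, hat_wd, smul_eq_mul, mul_assoc]
  have h2 : wsum k (fun w => f w * hat g (q.Pop (wd w))) =
      wsum k (fun w => hat g (q.Pop (wd w)) * f w) :=
    wsum_congr _ (fun w _ => mul_comm _ _)
  rw [h2, h, h, wsum_comm]
  refine wsum_congr _ (fun w hw => wsum_congr _ (fun j hj => ?_))
  rw [mon_symm q.Mm_symm, mul_comm (f w)]

end hat

end Run7.h417
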