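import Pool.Agent.Run7.h417.NC

/-!
Magic matrices over a ring and the action on functions of words.
-/

namespace Run7.h417

variable {Λ : Type*} {𝕜 R : Type*}

/-- `mon P i j = P i₁ j₁ * ⋯ * P iₖ jₖ` for words `i`, `j` of the same length. -/
def mon [Ring R] (P : Λ → Λ → R) : List Λ → List Λ → R
  | [], [] => 1
  | (i :: is), (j :: js) => P i j * mon P is js
  | [], (_ :: _) => 0
  | (_ :: _), [] => 0

section

variable [Ring R] (P : Λ → Λ → R)

@[simp] theorem mon_nil : mon P [] [] = 1 := rfl

@[simp] theorem mon_cons (i j : Λ) (is js : List Λ) :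
    mon P (i :: is) (j :: js) = P i j * mon P is js := rfl

theorem mon_append (i1 i2 j1 j2 : List Λ) (h : i1.length = j1.length) :
    mon P (i1 ++ i2) (j1 ++ j2) = mon P i1 j1 * mon P i2 j2 := by
  induction i1 generalizing j1 with
  | nil =>
    cases j1 with
    | nil => simp
    | cons j js => simp at h
  | cons i is ih =>
    cases j1 with
    | nil => simp at h
    | cons j js =>
      simp only [List.cons_append, mon_cons]
      rw [ih js (by simpa using h), mul_assoc]

end

/-- A magic matrix: idempotent entries, orthogonal along rows and columns, with row and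
column sums equal to one. -/
structure IsMagic [Ring R] [Fintype Λ] (P : Λ → Λ → R) : Prop where
  idem : ∀ i j, P i j * P i j = P i j
  row : ∀ i j k, j ≠ k → P i j * P i k = 0
  col : ∀ i j k, j ≠ k → P j i * P k i = 0
  rowsum : ∀ i, ∑ j, P i j = 1
  colsum : ∀ j, ∑ i, P i j = 1

section fixed

variable [DecidableEq Λ] [Fintype Λ] [CommRing 𝕜] [Ring R] [Algebra 𝕜 R]

/-- `F` is fixed by `P` on words of length `k`. -/
def FixedBy (P : Λ → Λ → R) (k : ℕ) (F : List Λ → 𝕜) : Prop :=
  ∀ i : List Λ, i.length = k → wsum k (fun j => F j • mon P i j) = F i • (1 : R)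

theorem TT.fixed {P : Λ → Λ → R} (hP : IsMagic P) {k : ℕ} {F : List Λ → 𝕜} (hF : TT k F) :
    FixedBy P k F := by
  induction hF with
  | base F =>
    intro i hi
    obtain rfl := List.length_eq_zero_iff.mp hi
    simp
  | @ins k m hm F F' hF h ih =>
    intro i hi
    obtain ⟨i1, a, i2, h1, h2⟩ := exists_split i m (by omega)
    have hlen : i.length = i1.length + i2.length + 1 := by
      have := congrArg List.length h2
      simp at this; omega
    obtain ⟨r, rfl⟩ : ∃ r, k = m + r := ⟨k - m, by omega⟩
    have e := ih (i1 ++ i2) (by simp; omega)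
    rw [h2, h i1 a i2 h1 (by omega), ← e]
    rw [show m + r + 1 = m + (r + 1) by ring, wsum_append, wsum_append]
    refine wsum_congr _ (fun j1 hj1 => ?_)
    rw [wsum_succ, ← wsum_sum_comm]
    refine wsum_congr _ (fun j2 hj2 => ?_)
    have : ∀ b, F' (j1 ++ b :: j2) • mon P (i1 ++ a :: i2) (j1 ++ b :: j2) =
        F (j1 ++ j2) • (mon P i1 j1 * (P a b * mon P i2 j2)) := by
      intro b
      rw [h j1 b j2 hj1 (by omega), mon_append P _ _ _ _ (by omega), mon_cons]
    simp only [this]
    rw [← Finset.smul_sum, ← Finset.mul_sum, ← Finset.sum_mul, hP.rowsum, one_mul,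
      mon_append P _ _ _ _ (by omega)]
  | @dup k m hm F F' hF h ih =>
    intro i hi
    obtain ⟨i1, a, a', i2, h1, h2⟩ := exists_split2 i m (by omega)
    have hlen : i.length = i1.length + i2.length + 2 := by
      have := congrArg List.length h2
      simp at this; omega
    obtain ⟨r, rfl⟩ : ∃ r, k = m + (r + 1) := ⟨k - m - 1, by omega⟩
    have key : wsum (m + (r + 1) + 1) (fun j => F' j • mon P i j) =
        wsum m (fun j1 => ∑ b, wsum r (fun j2 => F (j1 ++ b :: j2) •
          (mon P i1 j1 * (P a b * P a' b * mon P i2 j2)))) := by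
      rw [h2, show m + (r + 1) + 1 = m + (r + 1 + 1) by ring, wsum_append]
      refine wsum_congr _ (fun j1 hj1 => ?_)
      rw [wsum_succ]
      refine Finset.sum_congr rfl (fun b _ => ?_)
      rw [wsum_succ, Finset.sum_eq_single b]
      · refine wsum_congr _ (fun j2 hj2 => ?_)
        rw [h j1 b b j2 hj1 (by omega), if_pos rfl, mon_append P _ _ _ _ (by omega), mon_cons,
          mon_cons, mul_assoc (P a b)]
      · intro b' _ hb
        refine wsum_eq_zero _ (fun j2 hj2 => ?_)
        rw [h j1 b b' j2 hj1 (by omega), if_neg (Ne.symm hb), zero_smul]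
      · intro hh; exact absurd (Finset.mem_univ _) hh
    rw [key]
    by_cases haa : a = a'
    · subst haa
      have e := ih (i1 ++ a :: i2) (by simp; omega)
      rw [h2, h i1 a a i2 h1 (by omega), if_pos rfl, ← e, wsum_append]
      refine wsum_congr _ (fun j1 hj1 => ?_)
      rw [wsum_succ]
      refine Finset.sum_congr rfl (fun b _ => ?_)
      refine wsum_congr _ (fun j2 hj2 => ?_)
      rw [hP.idem, mon_append P _ _ _ _ (by omega), mon_cons]
    · rw [h2, h i1 a a' i2 h1 (by omega), if_neg haa, zero_smul]
      refine wsum_eq_zero _ (fun j1 _ => Finset.sum_eq_zero (fun b _ => ?_))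
      refine wsum_eq_zero _ (fun j2 _ => ?_)
      rw [hP.col b a a' haa, zero_mul, mul_zero, smul_zero]
  | @add k F G hF hG ihF ihG =>
    intro i hi
    simp only [add_smul]
    rw [wsum_add, ihF i hi, ihG i hi]
  | @smul k c F hF ihF =>
    intro i hi
    simp only [mul_smul]
    rw [wsum_smul, ihF i hi]
  | @congr k F G hF h ihF =>
    intro i hi
    rw [← h i hi, ← ihF i hi]
    exact wsum_congr _ (fun j hj => by rw [h j hj])

end fixed

end Run7.h417
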