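import Pool.Agent.Run7.h417.Main5b

/-!
The case of exactly four letters.
-/

namespace Run7.h417

open FreeAlgebra

set_option linter.unusedSectionVars false

section four

variable {Λ : Type*} [DecidableEq Λ] [Fintype Λ] {q : Four Λ}

/-- the ring congruence attached to a functional -/
def cF (F : List Λ → ℝ) : RingCon (FreeAlgebra ℝ Λ) where
  r z z' := ∀ X Y, hat F (X * z * Y) = hat F (X * z' * Y)
  iseqv := ⟨fun _ _ _ => rfl, fun h X Y => (h X Y).symm, fun h h' X Y => (h X Y).trans (h' X Y)⟩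
  add' := by
    intro w x y z h h' X Y
    rw [mul_add, add_mul, map_add, mul_add, add_mul, map_add, h, h']
  mul' := by
    intro w x y z h h' X Y
    have e1 := h X (y * Y)
    have e2 := h' (X * x) Y
    have a1 : X * (w * y) * Y = X * w * (y * Y) := by simp only [mul_assoc]
    have a2 : X * x * (y * Y) = X * x * y * Y := by simp only [mul_assoc]
    have a3 : X * (x * z) * Y = X * x * z * Y := by simp only [mul_assoc]
    rw [a1, e1, a2, e2, a3]

/-- a homomorphism whose kernel is the largest ideal on which the functional vanishes -/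
def IsPf (F : List Λ → ℝ) {Q : Type*} [Ring Q] [Algebra ℝ Q] (π : FreeAlgebra ℝ Λ →ₐ[ℝ] Q) :
    Prop :=
  ∀ x y : FreeAlgebra ℝ Λ, π x = π y ↔ ∀ X Y, hat F (X * x * Y) = hat F (X * y * Y)

theorem exists_pf (F : List Λ → ℝ) : IsPf F ((cF F).mkₐ (α := ℝ)) := fun _ _ => (cF F).eq

variable {Q : Type*} [Ring Q] [Algebra ℝ Q] {π : FreeAlgebra ℝ Λ →ₐ[ℝ] Q}

theorem hat_congr {F : List Λ → ℝ} (hπ : IsPf F π) {x y : FreeAlgebra ℝ Λ} (h : π x = π y) :
    hat F x = hat F y := by
  have := (hπ x y).mp h 1 1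
  simpa using this

variable {k : ℕ} {F : List Λ → ℝ}

theorem pf_S (hπ : IsPf F π) (hc : Cap k F) (hs : Supp k F) : π (∑ i, ι ℝ i) = 0 := by
  rw [← map_zero π, hπ]
  intro X Y
  rw [hat_capS hc hs]; simp

theorem pf_D (hπ : IsPf F π) (hc : Cap k F) (hs : Supp k F) (i : Λ) : π (ι ℝ i) * π (ι ℝ i) = 0 := by
  rw [← map_mul, ← map_zero π, hπ]
  intro X Y
  rw [hat_capD hc hs]; simp

theorem pf_ed (hπ : IsPf F π) (h4 : ∀ i, ¬ Oth q i) (hc : Cap k F) (hs : Supp k F) :
    π q.ed = - π q.ab := by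
  have h := pf_S hπ hc hs
  have : IsEmpty {c : Λ // Oth q c} := ⟨fun c => h4 c.1 c.2⟩
  have : Fintype {c : Λ // Oth q c} := Fintype.ofFinite _
  rw [sum_four (q := q), Finset.univ_eq_empty, Finset.sum_empty, add_zero] at h
  have e : ι ℝ q.a + ι ℝ q.b + ι ℝ q.d + ι ℝ q.e = q.ab + q.ed := by
    unfold Four.ab Four.ed; abel
  rw [e, map_add] at h
  exact eq_neg_of_add_eq_zero_right h

theorem pf_fl_fl (hπ : IsPf F π) (h4 : ∀ i, ¬ Oth q i) (hc : Cap k F) (hs : Supp k F) (t : ℕ) :
    π (q.fl t) * π (q.fl t) = - (π q.ab * π q.ab) := by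
  unfold Four.fl
  split_ifs
  · have ha := pf_D hπ hc hs q.a
    have hb := pf_D hπ hc hs q.b
    unfold Four.be Four.ab
    rw [map_sub, map_add]
    simp only [mul_add, add_mul, mul_sub, sub_mul, ha, hb]
    abel
  · rw [← neg_mul_neg (π q.ab), ← pf_ed hπ h4 hc hs]
    have hd := pf_D hπ hc hs q.d
    have he := pf_D hπ hc hs q.e
    unfold Four.al Four.ed
    rw [map_sub, map_add]
    simp only [mul_add, add_mul, mul_sub, sub_mul, hd, he]
    abel

theorem pf_ab_fl (hπ : IsPf F π) (h4 : ∀ i, ¬ Oth q i) (hc : Cap k F) (hs : Supp k F) (t : ℕ) :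
    π q.ab * π (q.fl t) = - (π (q.fl t) * π q.ab) := by
  unfold Four.fl
  split_ifs
  · have ha := pf_D hπ hc hs q.a
    have hb := pf_D hπ hc hs q.b
    unfold Four.be Four.ab
    rw [map_sub, map_add]
    simp only [mul_add, add_mul, mul_sub, sub_mul, ha, hb]
    abel
  · have h := pf_ed hπ h4 hc hs
    have h' : π q.ab = - π q.ed := by rw [h, neg_neg]
    rw [h']
    have hd := pf_D hπ hc hs q.d
    have he := pf_D hπ hc hs q.e
    unfold Four.al Four.ed
    rw [map_sub, map_add]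
    simp only [mul_add, add_mul, mul_sub, sub_mul, mul_neg, neg_mul, neg_add, neg_sub, hd, he]
    abel

theorem pf_pow_fl (hπ : IsPf F π) (h4 : ∀ i, ¬ Oth q i) (hc : Cap k F) (hs : Supp k F) (t j : ℕ) :
    π q.ab ^ j * π (q.fl t) = ((-1 : ℝ) ^ j) • (π (q.fl t) * π q.ab ^ j) := by
  induction j with
  | zero => simp
  | succ j ih =>
    rw [pow_succ, mul_assoc, pf_ab_fl hπ h4 hc hs, mul_neg, ← mul_assoc, ih, pow_succ (-1 : ℝ),
      mul_neg, mul_one, neg_smul, smul_mul_assoc, mul_assoc]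

theorem neg_one_pow_or (j : ℕ) : (-1 : ℝ) ^ j = 1 ∨ (-1 : ℝ) ^ j = -1 := neg_one_pow_eq_or ℝ j

/-- reduction to normal form -/
theorem red (hπ : IsPf F π) (h4 : ∀ i, ¬ Oth q i) (hc : Cap k F) (hs : Supp k F) (s m j t : ℕ) :
    ∃ c : ℝ, (c = 1 ∨ c = -1) ∧ ∃ s' m' j' : ℕ, m' + j' = m + j + 1 ∧
      π (q.lw s m * q.ab ^ j * q.fl t) = c • π (q.lw s' m' * q.ab ^ j') := by
  have e0 : π (q.lw s m * q.ab ^ j * q.fl t) =
      ((-1 : ℝ) ^ j) • (π (q.lw s m) * π (q.fl t) * π q.ab ^ j) := by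
    rw [map_mul, map_mul, map_pow, mul_assoc, pf_pow_fl hπ h4 hc hs, mul_smul_comm, ← mul_assoc]
  by_cases ht : t % 2 = (s + m) % 2
  · refine ⟨(-1)^j, neg_one_pow_or j, s, m+1, j, by omega, ?_⟩
    rw [e0, q.lw_succ, q.fl_congr ht]
    simp only [map_mul, map_pow]
  · cases m with
    | zero =>
      refine ⟨(-1)^j, neg_one_pow_or j, t, 1, j, by omega, ?_⟩
      rw [e0, q.lw_one, q.lw_zero]
      simp only [map_mul, map_pow, map_one, one_mul]
    | succ m =>
      have hm : t % 2 = (s + m) % 2 := by omega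
      refine ⟨-(-1)^j, ?_, s, m, j + 2, by omega, ?_⟩
      · rcases neg_one_pow_or j with h | h <;> rw [h] <;> norm_num
      · have h2 := pf_fl_fl hπ h4 hc hs (s + m)
        rw [e0, q.lw_succ, q.fl_congr hm, map_mul, mul_assoc (π (q.lw s m)), h2, mul_neg,
          neg_mul, smul_neg, neg_smul, map_mul, map_pow, pow_add, pow_two, mul_assoc,
          ← pow_two, ← pow_add, ← pow_add, add_comm 2 j]

theorem hat_weight {G : Set (Equiv.Perm Λ)} (hF : Inv q G k F) (hs : Supp k F) {P : ℤ}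
    (hP : P ≠ 0) {x : FreeAlgebra ℝ Λ} (hx : Hm q P x) : hat F x = 0 := by
  have h := hF.hat_Pop hs x
  rw [hx.pop, map_smul, smul_eq_mul] at h
  rcases mul_eq_zero.mp h with h1 | h1
  · exact absurd (by exact_mod_cast h1) hP
  · exact h1

theorem lw_Hm (s m : ℕ) : ∃ P : ℤ, (P = m ∨ P = -m) ∧ Hm q P (q.lw s m) := by
  rcases Nat.mod_two_eq_zero_or_one s with h | h
  · have : q.lw s m = q.lw 0 m := by
      induction m with
      | zero => rfl
      | succ m ih => rw [q.lw_succ, q.lw_succ, ih, q.fl_congr (j := s + m) (j' := 0 + m) (by omega)]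
    exact ⟨m, Or.inl rfl, this ▸ Hm.lw m⟩
  · refine ⟨-m, Or.inr rfl, ?_⟩
    induction m with
    | zero => simpa using Hm.one
    | succ m ih =>
      rw [q.lw_succ]
      refine (ih.mul (Hm.fl (s+m))).cast ?_
      push_cast
      rcases Nat.mod_two_eq_zero_or_one m with h' | h'
      · rw [sgz_even (P := -(m:ℤ)) (by omega), sgz_odd (P := (s:ℤ)+m) (by omega)]; ring
      · rw [sgz_odd (P := -(m:ℤ)) (by omega), sgz_even (P := (s:ℤ)+m) (by omega)]; ring

theorem Hm_ab_pow (j : ℕ) : Hm q 0 (q.ab ^ j) := by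
  induction j with
  | zero => simpa using Hm.one
  | succ j ih => rw [pow_succ]; exact ih.mul0 Hm.ab

theorem hat_nf {G : Set (Equiv.Perm Λ)} (hF : Inv q G k F) (hs : Supp k F) (s j : ℕ) {m : ℕ}
    (hm : m ≠ 0) : hat F (q.lw s m * q.ab ^ j) = 0 := by
  obtain ⟨P, hP, h⟩ := lw_Hm (q := q) s m
  exact hat_weight hF hs (by rcases hP with rfl | rfl <;> omega) (h.mul0 (Hm_ab_pow j))

theorem claim1 {G : Set (Equiv.Perm Λ)} (hπ : IsPf F π) (h4 : ∀ i, ¬ Oth q i) (hF : Inv q G k F)
    (hc : Cap k F) (hs : Supp k F) (r : ℕ) : ∀ s m j : ℕ, m + j + r = k →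
    |hat F (q.lw s m * q.ab ^ j * (q.be - q.al) ^ r)| ≤ 2 ^ r * |hat F (q.ab ^ k)| := by
  induction r with
  | zero =>
    intro s m j h
    rw [pow_zero, mul_one, pow_zero, one_mul]
    rcases Nat.eq_zero_or_pos m with hm | hm
    · subst hm
      rw [q.lw_zero, one_mul, show j = k by omega]
    · rw [hat_nf hF hs s j (by omega), abs_zero]; exact abs_nonneg _
  | succ r ih =>
    intro s m j h
    have step : ∀ t, |hat F (q.lw s m * q.ab ^ j * q.fl t * (q.be - q.al) ^ r)| ≤
        2 ^ r * |hat F (q.ab ^ k)| := by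
      intro t
      obtain ⟨c, hc', s', m', j', hj, e⟩ := red hπ h4 hc hs s m j t
      have e2 : hat F (q.lw s m * q.ab ^ j * q.fl t * (q.be - q.al) ^ r) =
          hat F ((c • (q.lw s' m' * q.ab ^ j')) * (q.be - q.al) ^ r) := by
        apply hat_congr hπ
        rw [map_mul, e, ← map_smul, ← map_mul]
      rw [e2, smul_mul_assoc, map_smul, smul_eq_mul, abs_mul]
      have : |c| = 1 := by rcases hc' with rfl | rfl <;> simp
      rw [this, one_mul]
      exact ih s' m' j' (by omega)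
    have e3 : q.lw s m * q.ab ^ j * (q.be - q.al) ^ (r+1) =
        q.lw s m * q.ab ^ j * q.fl 0 * (q.be - q.al) ^ r -
        q.lw s m * q.ab ^ j * q.fl 1 * (q.be - q.al) ^ r := by
      have h0 : q.fl 0 = q.be := by simp [Four.fl]
      have h1 : q.fl 1 = q.al := by simp [Four.fl]
      rw [h0, h1, pow_succ', ← mul_assoc, mul_sub, sub_mul]
    rw [e3, map_sub]
    have h0 := step 0
    have h1 := step 1
    calc |_ - _| ≤ |_| + |_| := abs_sub _ _
      _ ≤ 2 ^ r * |hat F (q.ab ^ k)| + 2 ^ r * |hat F (q.ab ^ k)| := add_le_add h0 h1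
      _ = 2 ^ (r+1) * |hat F (q.ab ^ k)| := by ring

theorem claim2 {G : Set (Equiv.Perm Λ)} (hπ : IsPf F π) (h4 : ∀ i, ¬ Oth q i) (hF : Inv q G k F)
    (hc : Cap k F) (hs : Supp k F) (hk : k ≠ 0) (r : ℕ) : ∀ m : ℕ, m + r = k →
    |hat F (q.lw 0 m * (q.be - q.al) ^ r)| ≤ (2 ^ r - 1) * |hat F (q.ab ^ k)| := by
  induction r with
  | zero =>
    intro m h
    have := hat_nf hF hs 0 0 (m := m) (by omega)
    rw [pow_zero, mul_one] at this
    rw [pow_zero, mul_one, this]
    simp
  | succ r ih =>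
    intro m h
    have h2 : |hat F (q.lw 0 m * q.fl (m+1) * (q.be - q.al) ^ r)| ≤
        2 ^ r * |hat F (q.ab ^ k)| := by
      obtain ⟨c, hc', s', m', j', hj, e⟩ := red hπ h4 hc hs 0 m 0 (m+1)
      have e2 : hat F (q.lw 0 m * q.fl (m+1) * (q.be - q.al) ^ r) =
          hat F ((c • (q.lw s' m' * q.ab ^ j')) * (q.be - q.al) ^ r) := by
        apply hat_congr hπ
        rw [pow_zero, mul_one] at e
        rw [map_mul, e, ← map_smul, ← map_mul]
      rw [e2, smul_mul_assoc, map_smul, smul_eq_mul, abs_mul]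
      have : |c| = 1 := by rcases hc' with rfl | rfl <;> simp
      rw [this, one_mul]
      exact claim1 hπ h4 hF hc hs r s' m' j' (by omega)
    have h1 : |hat F (q.lw 0 m * q.fl m * (q.be - q.al) ^ r)| ≤
        (2 ^ r - 1) * |hat F (q.ab ^ k)| := by
      have := ih (m+1) (by omega)
      rwa [q.lw_succ, zero_add] at this
    have e3 : |hat F (q.lw 0 m * (q.be - q.al) ^ (r+1))| =
        |hat F (q.lw 0 m * q.fl m * (q.be - q.al) ^ r) -
        hat F (q.lw 0 m * q.fl (m+1) * (q.be - q.al) ^ r)| := by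
      rcases Nat.mod_two_eq_zero_or_one m with h' | h'
      · have h0 : q.fl m = q.be := by simp [Four.fl, h']
        have h1 : q.fl (m+1) = q.al := by
          unfold Four.fl
          rw [if_neg (by omega)]
        rw [h0, h1, pow_succ', ← mul_assoc, mul_sub, sub_mul, map_sub]
      · have h0 : q.fl m = q.al := by
          unfold Four.fl
          rw [if_neg (by omega)]
        have h1 : q.fl (m+1) = q.be := by
          unfold Four.fl
          rw [if_pos (by omega)]
        rw [h0, h1, pow_succ', ← mul_assoc, mul_sub, sub_mul, map_sub, abs_sub_comm]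
    rw [e3]
    calc |_ - _| ≤ |_| + |_| := abs_sub _ _
      _ ≤ (2 ^ r - 1) * |hat F (q.ab ^ k)| + 2 ^ r * |hat F (q.ab ^ k)| := add_le_add h1 h2
      _ = (2 ^ (r+1) - 1) * |hat F (q.ab ^ k)| := by ring

theorem claim3 {G : Set (Equiv.Perm Λ)} (hπ : IsPf F π) (h4 : ∀ i, ¬ Oth q i) (hF : Inv q G k F)
    (hc : Cap k F) (hs : Supp k F) (hk : k ≠ 0) {g : Equiv.Perm Λ} (hg : g ∈ G)
    (hga : g q.a = q.a) (hgb : g q.b = q.d) : hat F (q.ab ^ k) = 0 := by
  have h1 : hat F (rho g (q.ab ^ k)) = hat F (q.ab ^ k) := hF.hat_rho hs hg _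
  have h2 : π (rho g q.ab) = (1/2 : ℝ) • π (q.be - q.al) := by
    have e := pf_ed hπ h4 hc hs
    unfold Four.ab Four.ed Four.be Four.al at *
    rw [map_add, rho_ι, rho_ι, hga, hgb]
    simp only [map_add, map_sub] at *
    have e' : π (ι ℝ q.e) = - (π (ι ℝ q.a) + π (ι ℝ q.b)) - π (ι ℝ q.d) := by
      rw [← e]; abel
    rw [e']
    module
  have h3 : hat F (rho g (q.ab ^ k)) = (1/2 : ℝ) ^ k * hat F ((q.be - q.al) ^ k) := by
    rw [← smul_eq_mul, ← map_smul]
    apply hat_congr hπ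
    rw [map_pow, map_pow, h2, map_smul, map_pow, smul_pow]
  have h4' := claim2 hπ h4 hF hc hs hk k 0 (by omega)
  rw [q.lw_zero, one_mul] at h4'
  have h5 : |hat F (q.ab ^ k)| = (1/2 : ℝ) ^ k * |hat F ((q.be - q.al) ^ k)| := by
    rw [← h1, h3, abs_mul, abs_of_nonneg (by positivity)]
  have h6 : (2:ℝ) ^ k * |hat F (q.ab ^ k)| = |hat F ((q.be - q.al) ^ k)| := by
    rw [h5, ← mul_assoc, ← mul_pow]; norm_num
  have h7 : |hat F (q.ab ^ k)| ≤ 0 := by linarith
  exact abs_eq_zero.mp (le_antisymm h7 (abs_nonneg _))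

/-- normal forms -/
noncomputable def NF (q : Four Λ) (m : ℕ) : Submodule ℝ (FreeAlgebra ℝ Λ) :=
  Submodule.span ℝ {x | ∃ s m' j : ℕ, m' + j = m ∧ x = q.lw s m' * q.ab ^ j}

theorem claim4 (hπ : IsPf F π) (h4 : ∀ i, ¬ Oth q i) (hc : Cap k F) (hs : Supp k F) {m : ℕ} :
    ∀ w : List Λ, w.length = m → ∃ y ∈ NF q m, π (wd w) = π y := by
  induction m with
  | zero =>
    intro w hw
    obtain rfl := List.length_eq_zero_iff.mp hw
    exact ⟨1, Submodule.subset_span ⟨0, 0, 0, rfl, by simp⟩, by simp⟩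
  | succ m ih =>
    intro w hw
    obtain ⟨w', i, rfl⟩ : ∃ w' i, w = w' ++ [i] := by
      refine ⟨w.dropLast, w.getLast (by rintro rfl; simp at hw), ?_⟩
      exact (List.dropLast_append_getLast _).symm
    obtain ⟨y, hy, e⟩ := ih w' (by simpa using hw)
    have hlet : ∃ r r' r'' : ℝ, π (ι ℝ i) = π (r • q.ab + r' • q.fl 0 + r'' • q.fl 1) := by
      have h0 : q.fl 0 = q.be := by simp [Four.fl]
      have h1 : q.fl 1 = q.al := by simp [Four.fl]
      have e := pf_ed hπ h4 hc hs
      rw [h0, h1]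
      by_cases ha : i = q.a
      · subst ha
        refine ⟨1/2, 1/2, 0, congrArg _ ?_⟩
        unfold Four.ab Four.be; module
      by_cases hb : i = q.b
      · subst hb
        refine ⟨1/2, -1/2, 0, congrArg _ ?_⟩
        unfold Four.ab Four.be; module
      by_cases hd : i = q.d
      · subst hd
        refine ⟨-1/2, 0, -1/2, ?_⟩
        rw [map_add, map_add, map_smul, map_smul, map_smul]
        have : π q.ab = - π q.ed := by rw [e, neg_neg]
        rw [this]
        unfold Four.ed Four.al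
        rw [map_add, map_sub]; module
      by_cases he : i = q.e
      · subst he
        refine ⟨-1/2, 0, 1/2, ?_⟩
        rw [map_add, map_add, map_smul, map_smul, map_smul]
        have : π q.ab = - π q.ed := by rw [e, neg_neg]
        rw [this]
        unfold Four.ed Four.al
        rw [map_add, map_sub]; module
      exact absurd ⟨ha, hb, hd, he⟩ (h4 i)
    obtain ⟨r, r', r'', hl⟩ := hlet
    have key : ∀ y ∈ NF q m, ∃ y' ∈ NF q (m+1),
        π y * π (r • q.ab + r' • q.fl 0 + r'' • q.fl 1) = π y' := by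
      intro y hy
      induction hy using Submodule.span_induction with
      | mem x hx =>
        obtain ⟨s, m', j, hmj, rfl⟩ := hx
        have hfl : ∀ t, ∃ y' ∈ NF q (m+1), π (q.lw s m' * q.ab ^ j) * π (q.fl t) =
            π y' := by
          intro t
          obtain ⟨c, _, s', m'', j', hj, e⟩ := red hπ h4 hc hs s m' j t
          refine ⟨c • (q.lw s' m'' * q.ab ^ j'), Submodule.smul_mem _ _
            (Submodule.subset_span ⟨s', m'', j', by omega, rfl⟩), ?_⟩
          rw [← map_mul, e, map_smul]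
        obtain ⟨y0, hy0, e0⟩ := hfl 0
        obtain ⟨y1, hy1, e1⟩ := hfl 1
        refine ⟨r • (q.lw s m' * q.ab ^ (j+1)) + r' • y0 + r'' • y1,
          Submodule.add_mem _ (Submodule.add_mem _ (Submodule.smul_mem _ _
            (Submodule.subset_span ⟨s, m', j+1, by omega, rfl⟩)) (Submodule.smul_mem _ _ hy0))
            (Submodule.smul_mem _ _ hy1), ?_⟩
        rw [map_add, map_add, map_smul, map_smul, map_smul, mul_add, mul_add, mul_smul_comm,
          mul_smul_comm, mul_smul_comm, e0, e1, map_add, map_add, map_smul, map_smul, map_smul,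
          ← map_mul, mul_assoc, ← pow_succ]
      | zero => exact ⟨0, Submodule.zero_mem _, by simp⟩
      | add a b _ _ ha hb =>
        obtain ⟨a', ha', ea⟩ := ha
        obtain ⟨b', hb', eb⟩ := hb
        exact ⟨a' + b', Submodule.add_mem _ ha' hb', by rw [map_add, add_mul, ea, eb, map_add]⟩
      | smul c a _ ha =>
        obtain ⟨a', ha', ea⟩ := ha
        exact ⟨c • a', Submodule.smul_mem _ _ ha', by
          rw [map_smul, smul_mul_assoc, ea, map_smul]⟩
    obtain ⟨y', hy', e'⟩ := key y hy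
    refine ⟨y', hy', ?_⟩
    rw [wd_append, wd_singleton, map_mul, e, hl, e']

/-- Invariant functions on words in four letters are noncrossing. -/
theorem main4 {G : Set (Equiv.Perm Λ)} (h4 : ∀ i, ¬ Oth q i) {g : Equiv.Perm Λ} (hg : g ∈ G)
    (hga : g q.a = q.a) (hgb : g q.b = q.d) : ∀ k (F : List Λ → ℝ), Inv q G k F → TT k F := by
  apply TT_of_capless (Inv.good q G)
  intro k ih F hF hc w hw
  have hg' := Inv.good q G
  rw [← restr_eq (k := k+1) F hw]
  have hF' : Inv q G (k+1) (restr (k+1) F) :=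
    hg'.congr _ _ _ hF (fun w hw => (restr_eq F hw).symm)
  have hs := restr_supp (k+1) F
  have hc' := restr_cap hc
  have h0 := claim3 (exists_pf _) h4 hF' hc' hs (by omega) hg hga hgb
  obtain ⟨y, hy, e⟩ := claim4 (q := q) (exists_pf _) h4 hc' hs w hw
  rw [← hat_wd (restr (k+1) F) w, hat_congr (exists_pf _) e]
  clear e
  induction hy using Submodule.span_induction with
  | mem x hx =>
    obtain ⟨s, m', j, hmj, rfl⟩ := hx
    rcases Nat.eq_zero_or_pos m' with hm | hm
    · subst hm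
      rw [q.lw_zero, one_mul, show j = k + 1 by omega]
      exact h0
    · exact hat_nf hF' hs s j (by omega)
  | zero => simp
  | add a b _ _ ha hb => rw [map_add, ha, hb, add_zero]
  | smul c a _ ha => rw [map_smul, ha, smul_zero]

end four

end Run7.h417
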