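import Pool.Agent.Run7.h417.Form

/-!
Invariant functions are noncrossing, when there is a fifth letter.
-/

namespace Run7.h417

open FreeAlgebra

set_option linter.unusedSectionVars false

section rad

variable {Λ : Type*} [DecidableEq Λ] [Fintype Λ] {q : Four Λ}

/-- right radical of the form -/
noncomputable def NR (F : List Λ → ℝ) : Submodule ℝ (FreeAlgebra ℝ Λ) where
  carrier := {y | ∀ x, Bf F x y = 0}
  add_mem' := by
    intro a b ha hb x
    rw [← BR_apply, map_add, BR_apply, BR_apply, ha x, hb x, add_zero]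
  zero_mem' := by
    intro x; rw [← BR_apply, map_zero]
  smul_mem' := by
    intro r a ha x
    rw [← BR_apply, map_smul, BR_apply, ha x, smul_zero]

/-- left radical of the form -/
noncomputable def NL (F : List Λ → ℝ) : Submodule ℝ (FreeAlgebra ℝ Λ) where
  carrier := {x | ∀ y, Bf F x y = 0}
  add_mem' := by
    intro a b ha hb x
    rw [← BL_apply, map_add, BL_apply, BL_apply, ha x, hb x, add_zero]
  zero_mem' := by
    intro x; rw [← BL_apply, map_zero]
  smul_mem' := by
    intro r a ha x
    rw [← BL_apply, map_smul, BL_apply, ha x, smul_zero]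

variable {k : ℕ} {F : List Λ → ℝ}

theorem NR_Pop (hF : Inv q Set.univ k F) (hs : Supp k F) : ∀ x ∈ NR F, q.Pop x ∈ NR F := by
  intro y hy x
  rw [← Bf_Pop hF hs]; exact hy _

theorem NL_Pop (hF : Inv q Set.univ k F) (hs : Supp k F) : ∀ x ∈ NL F, q.Pop x ∈ NL F := by
  intro y hy x
  rw [Bf_Pop hF hs]; exact hy _

theorem NR_rho (hF : Inv q Set.univ k F) (hs : Supp k F) (g : Equiv.Perm Λ) :
    ∀ x ∈ NR F, rho g x ∈ NR F := by
  intro y hy x
  rw [← Bf_rho hF hs (g := g⁻¹) (Set.mem_univ _), rho_rho]
  simpa using hy _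

theorem NL_rho (hF : Inv q Set.univ k F) (hs : Supp k F) (g : Equiv.Perm Λ) :
    ∀ x ∈ NL F, rho g x ∈ NL F := by
  intro y hy x
  rw [← Bf_rho hF hs (g := g⁻¹) (Set.mem_univ _), rho_rho]
  simpa using hy _

theorem BR_wd_of_length {F : List Λ → ℝ} {p r : ℕ} (hs : Supp (p + r) F) {x : List Λ}
    (hx : x.length ≠ p) (m : ℕ) (hm : m = r) : Bf F (wd x) (q.lw 0 m) = 0 := by
  subst hm
  rw [Bf_wd_lw]
  refine wsum_eq_zero _ (fun u hu => ?_)
  rw [Bf_wd, hs _ (by simp; omega), mul_zero]

theorem BL_wd_of_length {F : List Λ → ℝ} {p r : ℕ} (hs : Supp (p + r) F) {x : List Λ}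
    (hx : x.length ≠ r) (m : ℕ) (hm : m = p) : Bf F (q.lw 0 m) (wd x) = 0 := by
  subst hm
  rw [Bf_lw_wd]
  refine wsum_eq_zero _ (fun u hu => ?_)
  rw [Bf_wd, hs _ (by simp; omega), mul_zero]

/-- the values of the coefficients of the alternating word give a nonzero capless function -/
theorem cl_ne (p : ℕ) {r : ℝ} (h : ∀ u : List Λ, u.length = p → r * q.cl 0 u = 0) : r = 0 := by
  have h1 : wsum p (fun u => r * (q.cl 0 u * q.cl 0 u)) = 0 := by
    refine wsum_eq_zero _ (fun u hu => ?_)
    rw [← mul_assoc, h u hu, zero_mul]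
  rw [wsum_mul_left, q.cl_norm] at h1
  rcases mul_eq_zero.mp h1 with h2 | h2
  · exact h2
  · exact absurd h2 (pow_ne_zero _ two_ne_zero)

/-- the final vanishing argument -/
theorem quad_final {p r : ℕ} {F : List Λ → ℝ}
    (h : ∀ u : List Λ, u.length = p → quad p r F (u.reverse ++ u) = 0) :
    ∀ w : List Λ, w.length = p + r → F w = 0 := by
  intro w hw
  obtain ⟨w1, w2, h1, h2⟩ : ∃ w1 w2 : List Λ, w1.length = p ∧ w = w1 ++ w2 :=
    ⟨w.take p, w.drop p, by simp; omega, by simp⟩
  have h3 : w2.length = r := by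
    have := congrArg List.length h2
    simp at this; omega
  have h4 := h w1.reverse (by simpa using h1)
  rw [List.reverse_reverse, quad_apply F h1, List.reverse_reverse] at h4
  rw [h2]
  exact eq_zero_of_wsum_sq (f := fun w => F (w1 ++ w)) r h4 w2 h3

/-- the part of the argument common to both parities: the noncrossing part `T` of the quadratic
function pairs trivially with slices of `F` -/
theorem pair_zero {p r : ℕ} {F T : List Λ → ℝ} (hT : TT (p + p) T)
    (h1 : ∀ u : List Λ, u.length = p → wsum p (fun v => T (u.reverse ++ v) * q.cl 0 v) = 0)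
    (hF : Cap (p + r) F) :
    wsum p (fun u => wsum p (fun v => T (u.reverse ++ v) * quad p r F (u.reverse ++ v))) = 0 := by
  obtain ⟨c, hc⟩ := hT.pairing.1 p p le_rfl rfl
  have hc0 : c = 0 := by
    apply cl_ne (q := q) p
    intro u hu
    rw [← h1 u hu, hc u hu _ (q.cl_cap 0 p), if_pos rfl]
  rw [norm_quad]
  refine wsum_eq_zero _ (fun w hw => wsum_eq_zero _ (fun u hu => ?_))
  have := hc u hu _ (slice_cap hF hw)
  rw [if_pos rfl, hc0, zero_mul] at this
  rw [this, mul_zero]

theorem odd_case (ho : ∃ c, Oth q c) {l : ℕ} {F : List Λ → ℝ}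
    (hF : Inv q Set.univ (l + (l+1)) F) (hs : Supp (l + (l+1)) F) (hc : Cap (l + (l+1)) F)
    (ih : ∀ G, Inv q Set.univ (l+l) G → TT (l+l) G) :
    ∀ w : List Λ, w.length = l + (l+1) → F w = 0 := by
  have hN : q.lw 0 (l+1) ∈ NR F := by
    intro x
    have : BL F (q.lw 0 (l+1)) = 0 := by
      apply hat_ext_wd
      intro w
      rw [BL_apply, LinearMap.zero_apply]
      by_cases hw : w.length = l
      · have h1 := wd_mem_Gl (q := q) w hw
        rw [← BL_apply]
        generalize wd w = x at h1 ⊢
        induction h1 using Submodule.span_induction with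
        | mem x hx =>
          obtain ⟨P, hP, hx⟩ := hx
          exact Bf_weight hF hs hx (Hm.lw (l+1)) (by push_cast; omega)
        | zero => simp
        | add a b _ _ ha hb => rw [map_add, ha, hb, add_zero]
        | smul r a _ ha => rw [map_smul, ha, smul_zero]
      · exact BR_wd_of_length (q := q) (p := l) (r := l+1) hs hw _ rfl
    have h2 := congrArg (fun f => f x) this
    exact h2
  have hφ : ∀ w : List Λ, w.length = l + 1 → BR F (q.lw 0 l) (wd w) = 0 := by
    refine lemZ (q := q) ho ?_ ?_ ?_ ?_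
    · intro u v _
      rw [BR_apply, Bf, ← mul_assoc, ← mul_assoc]
      exact hat_capS hc hs _ _
    · intro u i v _
      rw [BR_apply, Bf, ← mul_assoc, ← mul_assoc]
      exact hat_capD hc hs _ _ _
    · intro P x hx hP
      rw [BR_apply]
      exact Bf_weight hF hs (Hm.lw l) hx (Ne.symm hP)
    · intro c hc m hm
      rw [BR_apply]
      exact chain hc (NR_Pop hF hs) (NR_rho hF hs) hN m hm _
  have hφ' : ∀ w : List Λ, w.length = l + 1 →
      wsum l (fun v => q.cl 0 v * F (v.reverse ++ w)) = 0 := by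
    intro w hw
    rw [← hφ w hw, BR_apply, Bf_lw_wd]
    refine wsum_congr _ (fun v _ => ?_)
    rw [Bf_wd]
  have hT := ih _ (hF.quadr (Set.mem_univ _))
  have h0 := pair_zero (q := q) (F := F) hT ?_ hc
  · have h1 := eq_zero_of_wsum_eq_zero l
      (fun u _ => wsum_nonneg l (fun v _ => mul_self_nonneg _)) h0
    refine quad_final (p := l) (r := l+1) (fun u hu => ?_)
    exact eq_zero_of_wsum_sq l (h1 u hu) u hu
  · intro u hu
    rw [quad_pair F _ hu]
    refine wsum_eq_zero _ (fun w hw => ?_)
    rw [hφ' w hw, mul_zero]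

end rad

section Om

variable {Λ : Type*} [DecidableEq Λ] [Fintype Λ]

/-- the indicator function of the nested pairing -/
def Om (l : ℕ) : List Λ → ℝ :=
  fun w => if w.length = l + l ∧ (w.take l).reverse = w.drop l then 1 else 0

theorem Om_apply {l : ℕ} {u v : List Λ} (hu : u.length = l) (hv : v.length = l) :
    Om l (u.reverse ++ v) = if u = v then 1 else 0 := by
  have h1 : (u.reverse ++ v).take l = u.reverse := by
    rw [List.take_left' (by simpa using hu)]
  have h2 : (u.reverse ++ v).drop l = v := by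
    rw [List.drop_left' (by simpa using hu)]
  unfold Om
  rw [h1, h2, List.reverse_reverse]
  have h3 : (u.reverse ++ v).length = l + l := by simp; omega
  simp only [h3, true_and]

theorem Om_supp (l : ℕ) : Supp (l + l) (Om (Λ := Λ) l) := by
  intro w hw
  unfold Om
  rw [if_neg (fun h => hw h.1)]

theorem Om_TT (l : ℕ) : TT (l + l) (Om (Λ := Λ) l) := by
  induction l with
  | zero => exact TT.base _
  | succ l ih =>
    have h1 : TT (l + l + 1) (insF l (Om (Λ := Λ) l)) := ih.insF (by omega)
    have h2 : TT (l + l + 1 + 1) (Om (Λ := Λ) (l+1)) := by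
      refine TT.dup l (by omega) _ _ h1 (fun u i i' v hu hv => ?_)
      have e1 : Om (l+1) (u ++ i :: i' :: v) = if i :: u.reverse = i' :: v then 1 else 0 := by
        have := Om_apply (l := l+1) (u := i :: u.reverse) (v := i' :: v) (by simpa using hu)
          (by simp; omega)
        simpa using this
      have e2 : Om l (u ++ v) = if u.reverse = v then 1 else 0 := by
        have := Om_apply (l := l) (u := u.reverse) (v := v) (by simpa using hu) (by omega)
        simpa using this
      rw [e1, insF_apply _ hu, e2]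
      by_cases h : i = i'
      · subst h; simp
      · simp [h]
    have e : l + 1 + (l + 1) = l + l + 1 + 1 := by ring
    rw [e]; exact h2

variable {q : Four Λ}

theorem Bf_sub_smul (F G : List Λ → ℝ) (c : ℝ) (x y : FreeAlgebra ℝ Λ) :
    Bf (fun w => F w - c * G w) x y = Bf F x y - c * Bf G x y := by
  have : hat (fun w => F w - c * G w) = hat F - c • hat G := by
    apply hat_ext_wd
    intro w
    rw [LinearMap.sub_apply, LinearMap.smul_apply, hat_wd, hat_wd, hat_wd, smul_eq_mul]
  unfold Bf
  rw [this]; rfl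

theorem wsum_ite_eq {l : ℕ} {u : List Λ} (hu : u.length = l) (f : List Λ → ℝ) :
    wsum l (fun v => (if u = v then 1 else 0) * f v) = f u := by
  obtain ⟨u', rfl⟩ := exists_ofFn hu
  rw [wsum_eq_sum, Finset.sum_eq_single u']
  · simp
  · intro b _ hb
    rw [if_neg (by simpa using (Ne.symm hb)), zero_mul]
  · intro hh; exact absurd (Finset.mem_univ _) hh

theorem Bf_Om_wd {l : ℕ} {u : List Λ} (hu : u.length = l) (f : List Λ → ℝ) :
    Bf (Om l) (wd u) (wsum l (fun v => f v • wd v)) = f u := by
  rw [← BR_apply, map_wsum, ← wsum_ite_eq hu f]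
  refine wsum_congr _ (fun v hv => ?_)
  rw [map_smul, BR_apply, Bf_wd, Om_apply hu hv, smul_eq_mul, mul_comm]

theorem Bf_Om_letters (L : ℕ) (i j : Λ) :
    Bf (Om (L+1)) (ι ℝ i * q.lw 0 L) (ι ℝ j * q.lw 0 L) = if i = j then 2 ^ L else 0 := by
  have h1 : ∀ i : Λ, ι ℝ i * q.lw 0 L = wsum L (fun v => q.cl 0 v • wd (i :: v)) := by
    intro i
    rw [q.lw_eq, ← wsum_mul_left]
    refine wsum_congr _ (fun v _ => ?_)
    rw [wd_cons, mul_smul_comm]
  rw [h1 i, h1 j, ← BL_apply, map_wsum]
  have h2 : ∀ u : List Λ, u.length = L → (BL (Om (L+1)) (wsum L (fun v => q.cl 0 v • wd (j :: v))))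
      (q.cl 0 u • wd (i :: u)) = if i = j then q.cl 0 u * q.cl 0 u else 0 := by
    intro u hu
    rw [map_smul, BL_apply, ← BR_apply, map_wsum]
    have h3 : wsum L (fun v => (BR (Om (L+1)) (wd (i :: u))) (q.cl 0 v • wd (j :: v))) =
        wsum L (fun v => (if u = v then 1 else 0) * (if i = j then q.cl 0 v else 0)) := by
      refine wsum_congr _ (fun v hv => ?_)
      rw [map_smul, BR_apply, Bf_wd, Om_apply (by simpa using hu) (by simpa using hv)]
      by_cases h : i = j
      · subst h
        by_cases h' : u = v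
        · subst h'; simp
        · simp [h']
      · simp [h]
    rw [h3, wsum_ite_eq hu]
    split_ifs <;> simp
  rw [wsum_congr L h2]
  split_ifs with h
  · exact q.cl_norm L 0
  · exact wsum_zero L

end Om

end Run7.h417
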