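import Pool.Agent.Run7.h417.Main5

/-!
The even case, and the main statement with a fifth letter.
-/

namespace Run7.h417

open FreeAlgebra

set_option linter.unusedSectionVars false

section even

variable {Λ : Type*} [DecidableEq Λ] [Fintype Λ] {q : Four Λ}

theorem Supp.sub_smul {k : ℕ} {F G : List Λ → ℝ} (hF : Supp k F) (hG : Supp k G) (c : ℝ) :
    Supp k (fun w => F w - c * G w) := by
  intro w hw
  simp only [hF w hw, hG w hw, mul_zero, sub_zero]

theorem Kp_mem {c : Λ} (j : ℕ) : q.Kp c j ∈ Wd (Λ := Λ) 1 := by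
  unfold Four.Kp Four.ab Four.ed
  split_ifs
  · exact Submodule.sub_mem _ (Submodule.smul_mem _ _ (Submodule.add_mem _ (Wd_ι _) (Wd_ι _)))
      (Wd_ι _)
  · exact Submodule.sub_mem _ (Submodule.smul_mem _ _ (Submodule.add_mem _ (Wd_ι _) (Wd_ι _)))
      (Wd_ι _)

theorem at'_mem {L t : ℕ} {x : FreeAlgebra ℝ Λ} (hx : x ∈ Wd (Λ := Λ) 1) :
    q.at' L t x ∈ Wd (Λ := Λ) (L+1) := by
  unfold Four.at'
  split_ifs with h
  · have := Wd_mul (Wd_mul (lw_mem (q := q) 0 t) hx) (lw_mem (q := q) t (L - t))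
    rwa [show t + 1 + (L - t) = L + 1 by omega] at this
  · exact Submodule.zero_mem _

theorem z_mem (c : Λ) (L m : ℕ) : q.z c L m ∈ Wd (Λ := Λ) (L+1) := by
  cases m with
  | zero => exact Submodule.neg_mem _ (at'_mem (Kp_mem _))
  | succ m => exact Submodule.sub_mem _ (at'_mem (Kp_mem _)) (at'_mem (Kp_mem _))

theorem word_weight {L : ℕ} {w : List Λ} (hw : w.length = L + 1) :
    ∃ (r : ℝ) (g : FreeAlgebra ℝ Λ), wd w = r • q.lw 0 (L+1) + g ∧ g ∈ q.Gl ((L:ℤ)+1) := by
  have h := wd_mem_Sall (q := q) w hw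
  obtain ⟨x', hx', g, hg, e⟩ := Submodule.mem_sup.mp h
  obtain ⟨x1, hx1, x2, hx2, rfl⟩ := Submodule.mem_sup.mp hx'
  obtain ⟨c, rfl⟩ := Submodule.mem_span_singleton.mp hx1
  refine ⟨c, x2 + g, by rw [← e, add_assoc], Submodule.add_mem _ ?_ (Gl_mono (by omega) hg)⟩
  exact (Mid_Hm hx2).mem_Gl (by omega)

theorem BL_Gl {k : ℕ} {F : List Λ → ℝ} (hF : Inv q Set.univ k F) (hs : Supp k F) {m : ℤ}
    {g y : FreeAlgebra ℝ Λ} (hg : g ∈ q.Gl m) (hy : Hm q m y) : Bf F g y = 0 := by
  rw [← BL_apply]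
  induction hg using Submodule.span_induction with
  | mem x hx =>
    obtain ⟨P, hP, hx⟩ := hx
    exact Bf_weight hF hs hx hy (by omega)
  | zero => simp
  | add a b _ _ ha hb => rw [map_add, ha, hb, add_zero]
  | smul r a _ ha => rw [map_smul, ha, smul_zero]

theorem BR_Gl {k : ℕ} {F : List Λ → ℝ} (hF : Inv q Set.univ k F) (hs : Supp k F) {m : ℤ}
    {g y : FreeAlgebra ℝ Λ} (hg : g ∈ q.Gl m) (hy : Hm q m y) : Bf F y g = 0 := by
  rw [← BR_apply]
  induction hg using Submodule.span_induction with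
  | mem x hx =>
    obtain ⟨P, hP, hx⟩ := hx
    exact Bf_weight hF hs hy hx (by omega)
  | zero => simp
  | add a b _ _ ha hb => rw [map_add, ha, hb, add_zero]
  | smul r a _ ha => rw [map_smul, ha, smul_zero]

/-- the vector representing a functional of a given weight has this weight -/
theorem repr_Hm {k : ℕ} {P : ℤ} {φ : FreeAlgebra ℝ Λ →ₗ[ℝ] ℝ}
    (h1 : ∀ y, φ (q.Pop y) = P * φ y) (h2 : ∀ y, φ (rho q.x y) = sgz P * φ y) :
    Hm q P (wsum k (fun w => φ (wd w) • wd w)) := by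
  constructor
  · rw [map_wsum]
    have e1 : ∀ w : List Λ, w.length = k → q.Pop (φ (wd w) • wd w) =
        wsum k (fun j => (φ (wd w) * mon q.Mm w j 0 1) • wd j) := by
      intro w hw
      rw [map_smul, q.Pop_wd, hw, ← wsum_smul]
      refine wsum_congr _ (fun j _ => ?_)
      rw [smul_smul]
    rw [wsum_congr k e1, wsum_comm, ← wsum_smul]
    refine wsum_congr _ (fun j hj => ?_)
    rw [wsum_smul_right, smul_smul, ← h1, q.Pop_wd, map_wsum, hj]
    congr 1
    refine wsum_congr _ (fun w hw => ?_)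
    rw [map_smul, smul_eq_mul, mon_symm q.Mm_symm, mul_comm]
  · rw [map_wsum, ← wsum_smul]
    rw [← wsum_map q.x]
    refine wsum_congr _ (fun w hw => ?_)
    rw [map_smul, smul_smul, ← h2, rho_wd, rho_wd]
    have : (w.map q.x).map q.x = w := by
      rw [List.map_map]
      conv_rhs => rw [← List.map_id w]
      congr 1
      funext i
      exact q.x_x i
    rw [this, ← rho_wd, h2]

theorem even_v (ho : ∃ c, Oth q c) {L : ℕ} {F : List Λ → ℝ}
    (hF : Inv q Set.univ ((L+1) + (L+1)) F) (hs : Supp ((L+1) + (L+1)) F)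
    (hc : Cap ((L+1) + (L+1)) F) : q.lw 0 (L+1) ∈ NR F ∧ q.lw 0 (L+1) ∈ NL F := by
  obtain ⟨c0, hc0⟩ := ho
  set c : ℝ := Bf F (q.lw 0 (L+1)) (q.lw 0 (L+1)) / 2 ^ (L+1) with hcdef
  set F' : List Λ → ℝ := fun w => F w - c * Om (L+1) w with hF'def
  have hF' : Inv q Set.univ ((L+1) + (L+1)) F' :=
    (Inv.good q Set.univ).sub _ _ _ hF ((Inv.good q Set.univ).tt _ _ (TT.smul c _ (Om_TT (L+1))))
  have hs' : Supp ((L+1) + (L+1)) F' := hs.sub_smul (Om_supp (L+1)) c
  have hB : ∀ x y, Bf F' x y = Bf F x y - c * Bf (Om (L+1)) x y := Bf_sub_smul F _ c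
  have hOm : Bf (Om (L+1)) (q.lw 0 (L+1)) (q.lw 0 (L+1)) = 2 ^ (L+1) := by
    rw [Bf_lw_wd, ← q.cl_norm (L+1) 0]
    refine wsum_congr _ (fun u hu => ?_)
    rw [q.lw_eq, Bf_Om_wd hu]
  have hvv : Bf F' (q.lw 0 (L+1)) (q.lw 0 (L+1)) = 0 := by
    rw [hB, hOm, hcdef]
    field_simp
    ring
  have hR : q.lw 0 (L+1) ∈ NR F' := by
    intro x
    have : BL F' (q.lw 0 (L+1)) = 0 := by
      apply hat_ext_wd
      intro w
      rw [BL_apply, LinearMap.zero_apply]
      by_cases hw : w.length = L + 1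
      · obtain ⟨r, g, e, hg⟩ := word_weight (q := q) hw
        rw [e, Bf_add_left, Bf_smul_left, hvv, mul_zero, zero_add]
        exact BL_Gl hF' hs' hg ((Hm.lw (L+1)).cast (by push_cast; ring))
      · exact BR_wd_of_length (q := q) (p := L+1) (r := L+1) hs' hw _ rfl
    exact congrArg (fun f => f x) this
  have hL : q.lw 0 (L+1) ∈ NL F' := by
    intro x
    have : BR F' (q.lw 0 (L+1)) = 0 := by
      apply hat_ext_wd
      intro w
      rw [LinearMap.zero_apply]
      by_cases hw : w.length = L + 1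
      · obtain ⟨r, g, e, hg⟩ := word_weight (q := q) hw
        rw [e, map_add, map_smul, BR_apply, BR_apply, hvv, smul_zero, zero_add]
        exact BR_Gl hF' hs' hg ((Hm.lw (L+1)).cast (by push_cast; ring))
      · exact BL_wd_of_length (q := q) (p := L+1) (r := L+1) hs' hw _ rfl
    exact congrArg (fun f => f x) this
  have hzR : ∀ c' , Oth q c' → ∀ m ≤ L + 1, ∀ x,
      Bf F x (q.z c' L m) = c * Bf (Om (L+1)) x (q.z c' L m) := by
    intro c' hc' m hm x
    have := chain hc' (NR_Pop hF' hs') (NR_rho hF' hs') hR m hm x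
    rw [hB] at this
    linarith
  have hzL : ∀ c' , Oth q c' → ∀ m ≤ L + 1, ∀ x,
      Bf F (q.z c' L m) x = c * Bf (Om (L+1)) (q.z c' L m) x := by
    intro c' hc' m hm x
    have := chain hc' (NL_Pop hF' hs') (NL_rho hF' hs') hL m hm x
    rw [hB] at this
    linarith
  set x0 : FreeAlgebra ℝ Λ := ι ℝ c0 * q.lw 0 L with hx0
  have hx0H : Hm q L x0 := by
    refine ((Hm.oth hc0).mul (Hm.lw L)).cast ?_
    rw [sgz_even (by norm_num)]; ring
  have hx0m : x0 ∈ Wd (Λ := Λ) (L+1) := by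
    have := Wd_mul (Wd_ι c0) (lw_mem (q := q) 0 L)
    rwa [add_comm] at this
  set φ := BR F x0 with hφ
  set y0 : FreeAlgebra ℝ Λ := wsum (L+1) (fun w => φ (wd w) • wd w) with hy0
  have hφP : ∀ y, φ (q.Pop y) = ((L : ℤ) : ℝ) * φ y := by
    intro y
    rw [hφ, BR_apply, ← Bf_Pop hF hs, hx0H.pop, Bf_smul_left, BR_apply]
  have hφr : ∀ y, φ (rho q.x y) = (sgz L : ℝ) * φ y := by
    intro y
    rw [hφ, BR_apply, BR_apply]
    have h1 := Bf_rho hF hs (Set.mem_univ q.x) (rho q.x x0) y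
    rw [rho_x_x, hx0H.rho, Bf_smul_left] at h1
    exact h1
  have hy0H : Hm q L y0 := repr_Hm hφP hφr
  have hOmy : ∀ z ∈ Wd (Λ := Λ) (L+1), Bf (Om (L+1)) z y0 = φ z := by
    intro z hz
    rw [← BL_apply]
    refine Wd_ext (f := BL (Om (L+1)) y0) (g := φ) (fun w hw => ?_) hz
    rw [BL_apply, hy0, Bf_Om_wd hw]
  have hψ : ∀ w : List Λ, w.length = L + 1 → (BL F y0 - c • φ) (wd w) = 0 := by
    refine lemZ (q := q) ⟨c0, hc0⟩ ?_ ?_ ?_ ?_
    · intro u v _
      have h1 : Bf F (wd u * (∑ i, ι ℝ i) * wd v) y0 = 0 := by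
        rw [Bf, star_mul, star_mul, star_sum]
        simp only [star_ι]
        rw [← mul_assoc, mul_assoc _ (star (wd u))]
        exact hat_capS hc hs _ _
      have h2 : Bf F x0 (wd u * (∑ i, ι ℝ i) * wd v) = 0 := by
        rw [Bf, ← mul_assoc, ← mul_assoc]
        exact hat_capS hc hs _ _
      rw [LinearMap.sub_apply, LinearMap.smul_apply, BL_apply, h1, hφ, BR_apply, h2]
      simp
    · intro u i v _
      have h1 : Bf F (wd u * (ι ℝ i * ι ℝ i) * wd v) y0 = 0 := by
        rw [Bf, star_mul, star_mul, star_mul, star_ι]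
        rw [← mul_assoc, mul_assoc _ (star (wd u))]
        exact hat_capD hc hs _ _ _
      have h2 : Bf F x0 (wd u * (ι ℝ i * ι ℝ i) * wd v) = 0 := by
        rw [Bf, ← mul_assoc, ← mul_assoc]
        exact hat_capD hc hs _ _ _
      rw [LinearMap.sub_apply, LinearMap.smul_apply, BL_apply, h1, hφ, BR_apply, h2]
      simp
    · intro P x hx hP
      rw [LinearMap.sub_apply, LinearMap.smul_apply, BL_apply, hφ, BR_apply,
        Bf_weight hF hs hx hy0H hP, Bf_weight hF hs hx0H hx (Ne.symm hP)]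
      simp
    · intro c' hc' m hm
      rw [LinearMap.sub_apply, LinearMap.smul_apply, BL_apply, hzL c' hc' m hm,
        hOmy _ (z_mem c' L m), smul_eq_mul, sub_self]
  have hψ0 : (BL F y0 - c • φ) x0 = 0 := by
    have := Wd_ext (f := BL F y0 - c • φ) (g := 0) (fun w hw => by
      rw [hψ w hw, LinearMap.zero_apply]) hx0m
    rw [this, LinearMap.zero_apply]
  have hx00 : φ x0 = 0 := by
    rw [hφ, BR_apply, hx0, Bf, star_mul, star_ι]
    have : star (q.lw 0 L) * ι ℝ c0 * (ι ℝ c0 * q.lw 0 L) =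
        star (q.lw 0 L) * (ι ℝ c0 * ι ℝ c0) * q.lw 0 L := by
      simp only [mul_assoc]
    rw [mul_assoc, ← mul_assoc (ι ℝ c0), ← mul_assoc]
    exact hat_capD hc hs _ _ _
  have hφ0 : ∀ w : List Λ, w.length = L + 1 → φ (wd w) = 0 := by
    apply eq_zero_of_wsum_sq
    rw [LinearMap.sub_apply, LinearMap.smul_apply, hx00, smul_zero, sub_zero, BL_apply,
      ← BR_apply, ← hφ, hy0, map_wsum] at hψ0
    rw [← hψ0]
    refine wsum_congr _ (fun w hw => ?_)
    rw [map_smul, smul_eq_mul]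
  have hc00 : c = 0 := by
    have h1 : φ (q.z c0 L 0) = 0 := by
      have := Wd_ext (f := φ) (g := 0) (fun w hw => by
        rw [hφ0 w hw, LinearMap.zero_apply]) (z_mem (q := q) c0 L 0)
      rw [this, LinearMap.zero_apply]
    rw [hφ, BR_apply, hzR c0 hc0 0 (by omega)] at h1
    have h2 : q.z c0 L 0 = (-1/2 : ℝ) • (ι ℝ q.d * q.lw 0 L) + (-1/2 : ℝ) • (ι ℝ q.e * q.lw 0 L) +
        ι ℝ c0 * q.lw 0 L := by
      unfold Four.z Four.at' Four.Kp Four.ed
      rw [if_pos (by omega), if_neg (by norm_num), q.lw_zero, one_mul, Nat.sub_zero]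
      simp only [sub_mul, add_mul, smul_mul_assoc, smul_add]
      module
    have h3 : Bf (Om (L+1)) x0 (q.z c0 L 0) = 2 ^ L := by
      rw [h2, ← BR_apply, map_add, map_add, map_smul, map_smul, BR_apply, BR_apply, BR_apply, hx0,
        Bf_Om_letters, Bf_Om_letters, Bf_Om_letters, if_neg hc0.d, if_neg hc0.e, if_pos rfl]
      simp
    rw [h3] at h1
    rcases mul_eq_zero.mp h1 with h4 | h4
    · exact h4
    · exact absurd h4 (pow_ne_zero _ two_ne_zero)
  have hBB : ∀ x y, Bf F' x y = Bf F x y := by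
    intro x y
    rw [hB, hc00]; ring
  exact ⟨fun x => by rw [← hBB]; exact hR x, fun x => by rw [← hBB]; exact hL x⟩

/-- restriction to words of length `k` -/
def restr (k : ℕ) (F : List Λ → ℝ) : List Λ → ℝ := fun w => if w.length = k then F w else 0

theorem restr_supp (k : ℕ) (F : List Λ → ℝ) : Supp k (restr k F) := by
  intro w hw
  unfold restr
  rw [if_neg hw]

theorem restr_eq {k : ℕ} (F : List Λ → ℝ) {w : List Λ} (hw : w.length = k) :
    restr k F w = F w := by
  unfold restr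
  rw [if_pos hw]

theorem restr_cap {k : ℕ} {F : List Λ → ℝ} (h : Cap k F) : Cap k (restr k F) := by
  constructor
  · intro u v huv
    rw [← h.1 u v huv]
    refine Finset.sum_congr rfl (fun i _ => ?_)
    rw [restr_eq F (by simp; omega)]
  · intro u i v huv
    rw [restr_eq F (by simp; omega)]
    exact h.2 u i v huv

theorem even_case (ho : ∃ c, Oth q c) {L : ℕ} {F : List Λ → ℝ}
    (hF : Inv q Set.univ ((L+1) + (L+1)) F) (hs : Supp ((L+1) + (L+1)) F)
    (hc : Cap ((L+1) + (L+1)) F) (ih : ∀ G, Inv q Set.univ (L+1+L) G → TT (L+1+L) G) :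
    ∀ w : List Λ, w.length = (L+1) + (L+1) → F w = 0 := by
  have hQ : Inv q Set.univ (L+1+L+1) (quad (L+1) (L+1) F) := hF.quadr (Set.mem_univ _)
  obtain ⟨FT, F0, h1, h2, h3, h4, h5⟩ := decomp (Inv.good q Set.univ) ih hQ
  have h1' : TT ((L+1) + (L+1)) FT := h1
  have h2' : Inv q Set.univ ((L+1) + (L+1)) F0 := h2
  have h3' : Cap ((L+1) + (L+1)) F0 := h3
  have hv := (even_v ho hF hs hc).2
  have hv0 := (even_v (F := restr ((L+1) + (L+1)) F0) ho
    ((Inv.good q Set.univ).congr _ _ _ h2' (fun w hw => (restr_eq F0 hw).symm))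
    (restr_supp _ _) (restr_cap h3')).1
  have e1 : ∀ u : List Λ, u.length = L + 1 →
      wsum (L+1) (fun v => FT (u.reverse ++ v) * q.cl 0 v) = 0 := by
    intro u hu
    have e2 : wsum (L+1) (fun v => F0 (u.reverse ++ v) * q.cl 0 v) = 0 := by
      have := hv0 (wd u)
      rw [Bf_wd_lw] at this
      rw [← this]
      refine wsum_congr _ (fun v hv => ?_)
      rw [Bf_wd, restr_eq F0 (by simp; omega), mul_comm]
    have e3 : wsum (L+1) (fun v => quad (L+1) (L+1) F (u.reverse ++ v) * q.cl 0 v) = 0 := by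
      rw [quad_pair F _ hu]
      refine wsum_eq_zero _ (fun w hw => ?_)
      have := hv (wd w)
      rw [Bf_lw_wd] at this
      have e4 : wsum (L+1) (fun v => q.cl 0 v * F (v.reverse ++ w)) = 0 := by
        rw [← this]
        refine wsum_congr _ (fun v hv => ?_)
        rw [Bf_wd]
      rw [e4, mul_zero]
    have e5 : wsum (L+1) (fun v => quad (L+1) (L+1) F (u.reverse ++ v) * q.cl 0 v) =
        wsum (L+1) (fun v => FT (u.reverse ++ v) * q.cl 0 v) +
        wsum (L+1) (fun v => F0 (u.reverse ++ v) * q.cl 0 v) := by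
      rw [← wsum_add]
      refine wsum_congr _ (fun v hv => ?_)
      rw [h4]; ring
    rw [e3, e2, add_zero] at e5
    exact e5.symm
  have e2 := pair_zero (q := q) (F := F) h1' e1 hc
  have e3 : wsum ((L+1) + (L+1)) (fun w => FT w * quad (L+1) (L+1) F w) = 0 := by
    rw [wsum_append, ← wsum_reverse]
    exact e2
  have e4 : wsum ((L+1) + (L+1)) (fun w => FT w * FT w) = 0 := by
    have h6 := h5 FT h1
    have h7 : wsum ((L+1) + (L+1)) (fun w => FT w * quad (L+1) (L+1) F w) =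
        wsum ((L+1) + (L+1)) (fun w => FT w * FT w) +
        wsum ((L+1) + (L+1)) (fun w => FT w * F0 w) := by
      rw [← wsum_add]
      refine wsum_congr _ (fun v hv => ?_)
      rw [h4]; ring
    have h8 : wsum ((L+1) + (L+1)) (fun w => FT w * F0 w) = 0 := h6
    rw [e3, h8, add_zero] at h7
    exact h7.symm
  have e5 := eq_zero_of_wsum_sq _ e4
  refine quad_final (p := L+1) (r := L+1) (fun u hu => ?_)
  rw [h4, e5 _ (by simp; omega), zero_add]
  cases u with
  | nil => simp at hu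
  | cons i u =>
    have := h3'.2 u.reverse i u (by simp at hu ⊢; omega)
    simpa using this

/-- Invariant functions are noncrossing when there is a fifth letter. -/
theorem main5 (ho : ∃ c, Oth q c) : ∀ k (F : List Λ → ℝ), Inv q Set.univ k F → TT k F := by
  apply TT_of_capless (Inv.good q Set.univ)
  intro k ih F hF hc w hw
  have hg := Inv.good q (Set.univ : Set (Equiv.Perm Λ))
  rw [← restr_eq (k := k+1) F hw]
  have hF' : Inv q Set.univ (k+1) (restr (k+1) F) :=
    hg.congr _ _ _ hF (fun w hw => (restr_eq F hw).symm)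
  rcases Nat.even_or_odd' k with ⟨l, rfl | rfl⟩
  · have e : 2 * l + 1 = l + (l+1) := by ring
    rw [e] at hF' hc hw ⊢
    exact odd_case ho hF' (restr_supp _ _) (restr_cap hc) (fun G hG => ih (l+l) (by omega) G hG)
      w hw
  · have e : 2 * l + 1 + 1 = (l+1) + (l+1) := by ring
    rw [e] at hF' hc hw ⊢
    exact even_case ho hF' (restr_supp _ _) (restr_cap hc)
      (fun G hG => ih (l+1+l) (by omega) G hG) w hw

end even

end Run7.h417
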