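import Pool.Agent.Run7.h417.Words

/-!
The span of the noncrossing partition functions, defined recursively.
-/

namespace Run7.h417

variable {Λ : Type*}

theorem exists_split (w : List Λ) (j : ℕ) (h : j < w.length) :
    ∃ u i v, u.length = j ∧ w = u ++ i :: v := by
  refine ⟨w.take j, w[j], w.drop (j+1), by simp; omega, ?_⟩
  simp

theorem exists_split2 (w : List Λ) (j : ℕ) (h : j + 1 < w.length) :
    ∃ u i i' v, u.length = j ∧ w = u ++ i :: i' :: v := by
  obtain ⟨u, i, v, hu, hw⟩ := exists_split w j (by omega)
  cases v with
  | nil =>
    exfalso
    rw [hw] at h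
    simp at h
    omega
  | cons i' v => exact ⟨u, i, i', v, hu, hw⟩

section TT

variable [DecidableEq Λ] {𝕜 : Type*} [CommRing 𝕜]

/-- `TT k F` : on words of length `k`, the function `F` is a linear combination of indicator
functions of noncrossing partitions; these are generated by inserting a free letter at some
position, and by doubling a letter. -/
inductive TT : ℕ → (List Λ → 𝕜) → Prop
  | base (F : List Λ → 𝕜) : TT 0 F
  | ins {k : ℕ} (j : ℕ) (hj : j ≤ k) (F F' : List Λ → 𝕜) (hF : TT k F)
      (h : ∀ u i v, List.length u = j → u.length + v.length = k → F' (u ++ i :: v) = F (u ++ v)) :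
      TT (k+1) F'
  | dup {k : ℕ} (j : ℕ) (hj : j < k) (F F' : List Λ → 𝕜) (hF : TT k F)
      (h : ∀ u i i' v, List.length u = j → u.length + v.length + 1 = k →
        F' (u ++ i :: i' :: v) = if i = i' then F (u ++ i :: v) else 0) :
      TT (k+1) F'
  | add {k : ℕ} (F G : List Λ → 𝕜) (hF : TT k F) (hG : TT k G) : TT k (fun w => F w + G w)
  | smul {k : ℕ} (c : 𝕜) (F : List Λ → 𝕜) (hF : TT k F) : TT k (fun w => c * F w)
  | congr {k : ℕ} (F G : List Λ → 𝕜) (hF : TT k F) (h : ∀ w : List Λ, w.length = k → F w = G w) :
      TT k G

theorem TT.zero (k : ℕ) : TT k (fun _ : List Λ => (0 : 𝕜)) := by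
  induction k with
  | zero => exact TT.base _
  | succ k ih => exact TT.ins 0 (Nat.zero_le _) _ _ ih (fun _ _ _ _ _ => rfl)

theorem TT.sub {k : ℕ} {F G : List Λ → 𝕜} (hF : TT k F) (hG : TT k G) :
    TT k (fun w => F w - G w) := by
  refine TT.congr _ _ (TT.add _ _ hF (TT.smul (-1) _ hG)) (fun w _ => by ring)

theorem TT.sum {k : ℕ} {ι : Type*} (s : Finset ι) (F : ι → List Λ → 𝕜)
    (h : ∀ a ∈ s, TT k (F a)) : TT k (fun w => ∑ a ∈ s, F a w) := by
  classical
  induction s using Finset.induction_on with
  | empty => simpa using TT.zero k
  | insert a s ha ih =>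
    have h1 := TT.add _ _ (h a (Finset.mem_insert_self _ _))
      (ih (fun b hb => h b (Finset.mem_insert_of_mem hb)))
    refine TT.congr _ _ h1 (fun w _ => ?_)
    rw [Finset.sum_insert ha]

/-- Capless functions on words of length `k`. -/
def Cap [Fintype Λ] (k : ℕ) (G : List Λ → 𝕜) : Prop :=
  (∀ u v : List Λ, u.length + v.length + 1 = k → ∑ i, G (u ++ i :: v) = 0) ∧
  (∀ (u : List Λ) (i : Λ) (v : List Λ), u.length + v.length + 2 = k → G (u ++ i :: i :: v) = 0)

theorem Cap.slice [Fintype Λ] {k : ℕ} {G : List Λ → 𝕜} (h : Cap (k+1) G) (i : Λ) :
    Cap k (fun v => G (i :: v)) := by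
  constructor
  · intro u v huv
    have := h.1 (i :: u) v (by simp; omega)
    simpa using this
  · intro u i' v huv
    have := h.2 (i :: u) i' v (by simp; omega)
    simpa using this

theorem wsum_insert_zero [Fintype Λ] (q m : ℕ) (hm : m < q) (f : List Λ → 𝕜)
    (h : ∀ v1 v2 : List Λ, v1.length = m → v1.length + v2.length + 1 = q →
      ∑ i, f (v1 ++ i :: v2) = 0) : wsum q f = 0 := by
  obtain ⟨r, rfl⟩ : ∃ r, q = m + (r + 1) := ⟨q - m - 1, by omega⟩
  rw [wsum_append]
  refine wsum_eq_zero _ (fun v1 h1 => ?_)
  rw [wsum_succ, ← wsum_sum_comm]
  refine wsum_eq_zero _ (fun v2 h2 => ?_)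
  exact h v1 v2 h1 (by omega)

/-- The two claims about how elements of `TT` pair with capless functions. -/
theorem TT.pairing [Fintype Λ] {k : ℕ} {F : List Λ → 𝕜} (hF : TT k F) :
    (∀ p q : ℕ, p ≤ q → p + q = k → ∃ r : 𝕜, ∀ u : List Λ, u.length = p →
      ∀ y : List Λ → 𝕜, Cap q y →
        wsum q (fun v => F (u.reverse ++ v) * y v) = if p = q then r * y u else 0) ∧
    (∀ p q : ℕ, p ≤ q → p + q + 1 = k → ∃ r : 𝕜, ∀ (u : List Λ) (i : Λ), u.length = p →
      ∀ y : List Λ → 𝕜, Cap (q+1) y →
        wsum q (fun v => F (u.reverse ++ i :: v) * y (i :: v)) =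
          if p = q then r * y (i :: u) else 0) := by
  induction hF with
  | base F =>
    constructor
    · intro p q hpq h
      obtain rfl : p = 0 := by omega
      obtain rfl : q = 0 := by omega
      refine ⟨F [], fun u hu y _ => ?_⟩
      obtain rfl := List.length_eq_zero_iff.mp hu
      simp
    · intro p q _ h
      omega
  | @ins k j hj F F' hF h ih =>
    obtain ⟨ihA, ihB⟩ := ih
    constructor
    · intro p q hpq hk
      by_cases hjp : j < p
      · refine ⟨0, fun u hu y hy => ?_⟩
        obtain ⟨r, hr⟩ := ihA (p-1) q (by omega) (by omega)
        obtain ⟨w1, i, w2, h1, h2⟩ := exists_split u.reverse j (by simp; omega)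
        have hlen : u.length = w1.length + w2.length + 1 := by
          have := congrArg List.length h2
          simp at this; omega
        have e := hr (w1 ++ w2).reverse (by simp; omega) y hy
        rw [if_neg (by omega)] at e
        rw [zero_mul, ite_self, ← e]
        refine wsum_congr _ (fun v hv => ?_)
        rw [h2, List.reverse_reverse, List.append_assoc, List.cons_append, List.append_assoc,
          h w1 i (w2 ++ v) h1 (by simp; omega)]
      · refine ⟨0, fun u hu y hy => ?_⟩
        rw [zero_mul, ite_self]
        refine wsum_insert_zero q (j - p) (by omega) _ (fun v1 v2 h1 h2 => ?_)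
        have : ∀ i, F' (u.reverse ++ (v1 ++ i :: v2)) = F (u.reverse ++ (v1 ++ v2)) := by
          intro i
          rw [← List.append_assoc, h (u.reverse ++ v1) i v2 (by simp; omega) (by simp; omega),
            List.append_assoc]
        simp only [this]
        rw [← Finset.mul_sum, hy.1 v1 v2 (by omega), mul_zero]
    · intro p q hpq hk
      rcases lt_trichotomy j p with hjp | hjp | hjp
      · refine ⟨0, fun u i hu y hy => ?_⟩
        obtain ⟨r, hr⟩ := ihB (p-1) q (by omega) (by omega)
        obtain ⟨w1, i1, w2, h1, h2⟩ := exists_split u.reverse j (by simp; omega)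
        have hlen : u.length = w1.length + w2.length + 1 := by
          have := congrArg List.length h2
          simp at this; omega
        have e := hr (w1 ++ w2).reverse i (by simp; omega) y hy
        rw [if_neg (by omega)] at e
        rw [zero_mul, ite_self, ← e]
        refine wsum_congr _ (fun v hv => ?_)
        rw [h2, List.reverse_reverse, List.append_assoc, List.cons_append, List.append_assoc,
          h w1 i1 (w2 ++ i :: v) h1 (by simp; omega)]
      · subst hjp
        obtain ⟨r, hr⟩ := ihA j q hpq (by omega)
        refine ⟨r, fun u i hu y hy => ?_⟩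
        rw [← hr u hu (fun v => y (i :: v)) (hy.slice i)]
        refine wsum_congr _ (fun v hv => ?_)
        rw [h u.reverse i v (by simp; omega) (by simp; omega)]
      · refine ⟨0, fun u i hu y hy => ?_⟩
        rw [zero_mul, ite_self]
        refine wsum_insert_zero q (j - p - 1) (by omega) _ (fun v1 v2 h1 h2 => ?_)
        have : ∀ a, F' (u.reverse ++ i :: (v1 ++ a :: v2)) = F (u.reverse ++ i :: (v1 ++ v2)) := by
          intro a
          have := h (u.reverse ++ i :: v1) a v2 (by simp; omega) (by simp; omega)
          simpa using this
        simp only [this]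
        rw [← Finset.mul_sum]
        have := hy.1 (i :: v1) v2 (by simp; omega)
        simp only [List.cons_append] at this
        rw [this, mul_zero]
  | @dup k j hj F F' hF h ih =>
    obtain ⟨ihA, ihB⟩ := ih
    constructor
    · intro p q hpq hk
      rcases lt_trichotomy (j+1) p with hjp | hjp | hjp
      · refine ⟨0, fun u hu y hy => ?_⟩
        obtain ⟨r, hr⟩ := ihA (p-1) q (by omega) (by omega)
        obtain ⟨w1, i, i', w2, h1, h2⟩ := exists_split2 u.reverse j (by simp; omega)
        have hlen : u.length = w1.length + w2.length + 2 := by
          have := congrArg List.length h2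
          simp at this; omega
        rw [zero_mul, ite_self]
        by_cases hii : i = i'
        · have e := hr (w1 ++ i :: w2).reverse (by simp; omega) y hy
          rw [if_neg (by omega)] at e
          rw [← e]
          refine wsum_congr _ (fun v hv => ?_)
          rw [h2, List.reverse_reverse, List.append_assoc, List.cons_append, List.cons_append,
            List.append_assoc, List.cons_append,
            h w1 i i' (w2 ++ v) h1 (by simp; omega), if_pos hii]
        · refine wsum_eq_zero _ (fun v hv => ?_)
          rw [h2, List.append_assoc, List.cons_append, List.cons_append,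
            h w1 i i' (w2 ++ v) h1 (by simp; omega), if_neg hii, zero_mul]
      · obtain ⟨p', rfl⟩ : ∃ p', p = p' + 1 := ⟨p - 1, by omega⟩
        obtain ⟨q', rfl⟩ : ∃ q', q = q' + 1 := ⟨q - 1, by omega⟩
        obtain rfl : j = p' := by omega
        obtain ⟨r, hr⟩ := ihB j q' (by omega) (by omega)
        refine ⟨r, fun u hu y hy => ?_⟩
        cases u with
        | nil => simp at hu
        | cons i0 u0 =>
          simp only [List.length_cons, Nat.add_right_cancel_iff] at hu
          have e := hr u0 i0 hu y hy
          simp only [Nat.add_right_cancel_iff]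
          rw [← e, wsum_succ]
          rw [Finset.sum_eq_single i0]
          · refine wsum_congr _ (fun v hv => ?_)
            rw [List.reverse_cons, List.append_assoc, List.singleton_append,
              h u0.reverse i0 i0 v (by simp; omega) (by simp; omega), if_pos rfl]
          · intro b _ hb
            refine wsum_eq_zero _ (fun v hv => ?_)
            rw [List.reverse_cons, List.append_assoc, List.singleton_append,
              h u0.reverse i0 b v (by simp; omega) (by simp; omega), if_neg (Ne.symm hb), zero_mul]
          · intro hh; exact absurd (Finset.mem_univ _) hh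
      · refine ⟨0, fun u hu y hy => ?_⟩
        rw [zero_mul, ite_self]
        refine wsum_eq_zero _ (fun v hv => ?_)
        obtain ⟨v1, i, i', v2, h1, h2⟩ := exists_split2 v (j - p) (by omega)
        have hlen : v.length = v1.length + v2.length + 2 := by
          have := congrArg List.length h2
          simp at this; omega
        rw [h2, ← List.append_assoc, h (u.reverse ++ v1) i i' v2 (by simp; omega) (by simp; omega)]
        by_cases hii : i = i'
        · subst hii
          rw [hy.2 v1 i v2 (by omega), mul_zero]
        · rw [if_neg hii, zero_mul]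
    · intro p q hpq hk
      rcases lt_trichotomy (j+1) p with hjp | hjp | hjp
      · refine ⟨0, fun u i0 hu y hy => ?_⟩
        obtain ⟨r, hr⟩ := ihB (p-1) q (by omega) (by omega)
        obtain ⟨w1, i, i', w2, h1, h2⟩ := exists_split2 u.reverse j (by simp; omega)
        have hlen : u.length = w1.length + w2.length + 2 := by
          have := congrArg List.length h2
          simp at this; omega
        rw [zero_mul, ite_self]
        by_cases hii : i = i'
        · have e := hr (w1 ++ i :: w2).reverse i0 (by simp; omega) y hy
          rw [if_neg (by omega)] at e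
          rw [← e]
          refine wsum_congr _ (fun v hv => ?_)
          rw [h2, List.reverse_reverse, List.append_assoc, List.cons_append, List.cons_append,
            List.append_assoc, List.cons_append,
            h w1 i i' (w2 ++ i0 :: v) h1 (by simp; omega), if_pos hii]
        · refine wsum_eq_zero _ (fun v hv => ?_)
          rw [h2, List.append_assoc, List.cons_append, List.cons_append,
            h w1 i i' (w2 ++ i0 :: v) h1 (by simp; omega), if_neg hii, zero_mul]
      · obtain ⟨p', rfl⟩ : ∃ p', p = p' + 1 := ⟨p - 1, by omega⟩
        obtain rfl : j = p' := by omega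
        obtain ⟨r, hr⟩ := ihB j q (by omega) (by omega)
        refine ⟨0, fun u i hu y hy => ?_⟩
        rw [zero_mul, ite_self]
        cases u with
        | nil => simp at hu
        | cons i0 u0 =>
          simp only [List.length_cons, Nat.add_right_cancel_iff] at hu
          by_cases hii : i0 = i
          · subst hii
            have e := hr u0 i0 hu y hy
            rw [if_neg (by omega)] at e
            rw [← e]
            refine wsum_congr _ (fun v hv => ?_)
            rw [List.reverse_cons, List.append_assoc, List.singleton_append,
              h u0.reverse i0 i0 v (by simp; omega) (by simp; omega), if_pos rfl]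
          · refine wsum_eq_zero _ (fun v hv => ?_)
            rw [List.reverse_cons, List.append_assoc, List.singleton_append,
              h u0.reverse i0 i v (by simp; omega) (by simp; omega), if_neg hii, zero_mul]
      · refine ⟨0, fun u i0 hu y hy => ?_⟩
        rw [zero_mul, ite_self]
        refine wsum_eq_zero _ (fun v hv => ?_)
        rcases Nat.lt_or_ge p j with hpj | hpj
        · obtain ⟨v1, i, i', v2, h1, h2⟩ := exists_split2 v (j - p - 1) (by omega)
          have hlen : v.length = v1.length + v2.length + 2 := by
            have := congrArg List.length h2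
            simp at this; omega
          have e := h (u.reverse ++ i0 :: v1) i i' v2 (by simp; omega) (by simp; omega)
          simp only [List.append_assoc, List.cons_append] at e
          rw [h2, e]
          by_cases hii : i = i'
          · subst hii
            have e2 := hy.2 (i0 :: v1) i v2 (by simp; omega)
            simp only [List.cons_append] at e2
            rw [e2, mul_zero]
          · rw [if_neg hii, zero_mul]
        · obtain rfl : j = p := by omega
          cases v with
          | nil => simp at hv; omega
          | cons i1 v1 =>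
            simp only [List.length_cons] at hv
            rw [h u.reverse i0 i1 v1 (by simp; omega) (by simp; omega)]
            by_cases hii : i0 = i1
            · subst hii
              have e2 := hy.2 [] i0 v1 (by simp; omega)
              simp only [List.nil_append] at e2
              rw [e2, mul_zero]
            · rw [if_neg hii, zero_mul]
  | @add k F G hF hG ihF ihG =>
    constructor
    · intro p q hpq hk
      obtain ⟨r1, h1⟩ := ihF.1 p q hpq hk
      obtain ⟨r2, h2⟩ := ihG.1 p q hpq hk
      refine ⟨r1 + r2, fun u hu y hy => ?_⟩
      simp only [add_mul]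
      rw [wsum_add, h1 u hu y hy, h2 u hu y hy]
      split_ifs <;> ring
    · intro p q hpq hk
      obtain ⟨r1, h1⟩ := ihF.2 p q hpq hk
      obtain ⟨r2, h2⟩ := ihG.2 p q hpq hk
      refine ⟨r1 + r2, fun u i hu y hy => ?_⟩
      simp only [add_mul]
      rw [wsum_add, h1 u i hu y hy, h2 u i hu y hy]
      split_ifs <;> ring
  | @smul k c F hF ihF =>
    constructor
    · intro p q hpq hk
      obtain ⟨r1, h1⟩ := ihF.1 p q hpq hk
      refine ⟨c * r1, fun u hu y hy => ?_⟩
      simp only [mul_assoc]
      rw [wsum_mul_left, h1 u hu y hy]
      split_ifs <;> ring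
    · intro p q hpq hk
      obtain ⟨r1, h1⟩ := ihF.2 p q hpq hk
      refine ⟨c * r1, fun u i hu y hy => ?_⟩
      simp only [mul_assoc]
      rw [wsum_mul_left, h1 u i hu y hy]
      split_ifs <;> ring
  | @congr k F G hF h ihF =>
    constructor
    · intro p q hpq hk
      obtain ⟨r1, h1⟩ := ihF.1 p q hpq hk
      refine ⟨r1, fun u hu y hy => ?_⟩
      rw [← h1 u hu y hy]
      refine wsum_congr _ (fun v hv => ?_)
      rw [h _ (by simp; omega)]
    · intro p q hpq hk
      obtain ⟨r1, h1⟩ := ihF.2 p q hpq hk
      refine ⟨r1, fun u i hu y hy => ?_⟩
      rw [← h1 u i hu y hy]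
      refine wsum_congr _ (fun v hv => ?_)
      rw [h _ (by simp; omega)]

end TT
end Run7.h417
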