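import Pool.Agent.Run7.h417.Magic

/-!
The Hopf star-algebra of the quantum permutation group.
-/

namespace Run7.h417

open scoped TensorProduct

/-- The homomorphism from the quotient of an algebra by a relation induced by a homomorphism
compatible with the relation. -/
noncomputable def quotLift {F A : Type*} [Semiring F] [Algebra ℂ F] [Semiring A] [Algebra ℂ A]
    {r : F → F → Prop} (f : F →ₐ[ℂ] A) (h : ∀ ⦃x y⦄, r x y → f x = f y) :
    RingQuot r →ₐ[ℂ] A :=
  RingQuot.liftAlgHom ℂ ⟨f, h⟩

theorem quotLift_mk {F A : Type*} [Semiring F] [Algebra ℂ F] [Semiring A] [Algebra ℂ A]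
    {r : F → F → Prop} (f : F →ₐ[ℂ] A) (h : ∀ ⦃x y⦄, r x y → f x = f y) (x : F) :
    quotLift f h (RingQuot.mkAlgHom ℂ r x) = f x :=
  RingQuot.liftAlgHom_mkAlgHom_apply ℂ _ _ _

/-- coassociativity of an algebra homomorphism `A → A ⊗ A` -/
def Coassoc {A : Type*} [Ring A] [Algebra ℂ A] (Δ : A →ₐ[ℂ] A ⊗[ℂ] A) : Prop :=
  (Algebra.TensorProduct.assoc ℂ ℂ ℂ A A A).toAlgHom.comp
      ((Algebra.TensorProduct.map Δ (.id ℂ A)).comp Δ) =
    (Algebra.TensorProduct.map (.id ℂ A) Δ).comp Δ

/-- the left counit law -/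
def CounitLeft {A : Type*} [Ring A] [Algebra ℂ A] (Δ : A →ₐ[ℂ] A ⊗[ℂ] A) (ε : A →ₐ[ℂ] ℂ) : Prop :=
  (Algebra.TensorProduct.map ε (.id ℂ A)).comp Δ = (Algebra.TensorProduct.lid ℂ A).symm

/-- the right counit law -/
def CounitRight {A : Type*} [Ring A] [Algebra ℂ A] (Δ : A →ₐ[ℂ] A ⊗[ℂ] A) (ε : A →ₐ[ℂ] ℂ) : Prop :=
  (Algebra.TensorProduct.map (.id ℂ A) ε).comp Δ = (Algebra.TensorProduct.rid ℂ ℂ A).symm

/-- The bialgebra with comultiplication `Δ` and counit `ε`. -/
noncomputable abbrev mkBialgebra {A : Type*} [Ring A] [Algebra ℂ A] (Δ : A →ₐ[ℂ] A ⊗[ℂ] A)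
    (ε : A →ₐ[ℂ] ℂ) (h : Coassoc Δ) (hl : CounitLeft Δ ε) (hr : CounitRight Δ ε) :
    Bialgebra ℂ A :=
  Bialgebra.ofAlgHom Δ ε h hl hr

/-- `m (S ⊗ id) Δ = η ε` -/
def AntipodeLeft {A : Type*} [Ring A] [Bialgebra ℂ A] (S : A →ₗ[ℂ] A) : Prop :=
  ∀ a : A, LinearMap.mul' ℂ A (S.rTensor A (Coalgebra.comul a)) =
    algebraMap ℂ A (Coalgebra.counit a)

/-- `m (id ⊗ S) Δ = η ε` -/
def AntipodeRight {A : Type*} [Ring A] [Bialgebra ℂ A] (S : A →ₗ[ℂ] A) : Prop :=
  ∀ a : A, LinearMap.mul' ℂ A (S.lTensor A (Coalgebra.comul a)) =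
    algebraMap ℂ A (Coalgebra.counit a)

/-- The Hopf algebra with antipode `S`. -/
noncomputable abbrev mkHopfAlgebra {A : Type*} [Ring A] [Bialgebra ℂ A] (S : A →ₗ[ℂ] A)
    (hl : AntipodeLeft S) (hr : AntipodeRight S) : HopfAlgebra ℂ A where
  antipode := S
  mul_antipode_rTensor_comul := LinearMap.ext hl
  mul_antipode_lTensor_comul := LinearMap.ext hr

/-- An algebra homomorphism to the opposite algebra as a linear map. -/
noncomputable def ofOp {A : Type*} [Ring A] [Algebra ℂ A] (f : A →ₐ[ℂ] Aᵐᵒᵖ) : A →ₗ[ℂ] A :=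
  (MulOpposite.opLinearEquiv ℂ).symm.toLinearMap ∘ₗ f.toLinearMap

/-- The defining relations of Wang's quantum permutation algebra: the generators `(i, j)` are
idempotents, they are pairwise orthogonal along every row and every column, and every row and
every column sums to one. -/
inductive QRel (n : ℕ) :
    FreeAlgebra ℂ (Fin n × Fin n) → FreeAlgebra ℂ (Fin n × Fin n) → Prop
  | idem (i j : Fin n) : QRel n (FreeAlgebra.ι ℂ (i, j) * FreeAlgebra.ι ℂ (i, j))
      (FreeAlgebra.ι ℂ (i, j))
  | row (i j k : Fin n) (h : j ≠ k) : QRel n (FreeAlgebra.ι ℂ (i, j) * FreeAlgebra.ι ℂ (i, k)) 0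
  | col (i j k : Fin n) (h : j ≠ k) : QRel n (FreeAlgebra.ι ℂ (j, i) * FreeAlgebra.ι ℂ (k, i)) 0
  | rowsum (i : Fin n) : QRel n (∑ j, FreeAlgebra.ι ℂ (i, j)) 1
  | colsum (j : Fin n) : QRel n (∑ i, FreeAlgebra.ι ℂ (i, j)) 1

/-- The algebra of the quantum permutation group on `n` points: the complex algebra with
generators `(i, j)` and the relations `QRel n`. -/
def QPerm (n : ℕ) : Type := RingQuot (QRel n)

/-- the ring structure of the quotient -/
noncomputable def qpermRing (n : ℕ) : Ring (QPerm n) := RingQuot.instRing (QRel n)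

noncomputable instance (n : ℕ) : Ring (QPerm n) := qpermRing n

/-- the algebra structure of the quotient -/
noncomputable def qpermAlgebra (n : ℕ) : Algebra ℂ (QPerm n) := RingQuot.instAlgebra (QRel n)

noncomputable instance (n : ℕ) : Algebra ℂ (QPerm n) := qpermAlgebra n

namespace QPerm

variable {n : ℕ}

/-- the projection from the free algebra -/
noncomputable def mk (n : ℕ) : FreeAlgebra ℂ (Fin n × Fin n) →ₐ[ℂ] QPerm n :=
  RingQuot.mkAlgHom ℂ (QRel n)

theorem mk_surjective (n : ℕ) : Function.Surjective (mk n) :=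
  RingQuot.mkAlgHom_surjective ℂ (QRel n)

theorem mk_rel {x y : FreeAlgebra ℂ (Fin n × Fin n)} (h : QRel n x y) : mk n x = mk n y :=
  RingQuot.mkAlgHom_rel ℂ h

/-- the coordinates -/
noncomputable def u (i j : Fin n) : QPerm n := mk n (FreeAlgebra.ι ℂ (i, j))

theorem u_magic : IsMagic (u (n := n)) where
  idem i j := by unfold u; rw [← map_mul, mk_rel (QRel.idem i j)]
  row i j k h := by unfold u; rw [← map_mul, mk_rel (QRel.row i j k h), map_zero]
  col i j k h := by unfold u; rw [← map_mul, mk_rel (QRel.col i j k h), map_zero]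
  rowsum i := by unfold u; rw [← map_sum, mk_rel (QRel.rowsum i), map_one]
  colsum j := by unfold u; rw [← map_sum, mk_rel (QRel.colsum j), map_one]

section lift

variable {A : Type*} [Ring A] [Algebra ℂ A]

/-- the homomorphism from the free algebra given by a matrix -/
noncomputable def free (P : Fin n → Fin n → A) : FreeAlgebra ℂ (Fin n × Fin n) →ₐ[ℂ] A :=
  FreeAlgebra.lift ℂ (fun p => P p.1 p.2)

theorem free_ι (P : Fin n → Fin n → A) (p : Fin n × Fin n) :
    free P (FreeAlgebra.ι ℂ p) = P p.1 p.2 := by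
  simp [free]

theorem free_rel {P : Fin n → Fin n → A} (hP : IsMagic P) ⦃x y : FreeAlgebra ℂ (Fin n × Fin n)⦄
    (h : QRel n x y) : free P x = free P y := by
  cases h with
  | idem i j => simp [free_ι, hP.idem]
  | row i j k h => simp [free_ι, hP.row i j k h]
  | col i j k h => simp [free_ι, hP.col i j k h]
  | rowsum i => simp [free_ι, hP.rowsum]
  | colsum j => simp [free_ι, hP.colsum]

/-- The universal property: a magic matrix `P` over an algebra `A` gives a homomorphism
from `QPerm n` to `A` mapping `u i j` to `P i j`. -/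
noncomputable def lift (P : Fin n → Fin n → A) (hP : IsMagic P) : QPerm n →ₐ[ℂ] A :=
  quotLift (free P) (free_rel hP)

theorem lift_u (P : Fin n → Fin n → A) (hP : IsMagic P) (i j : Fin n) :
    lift P hP (u i j) = P i j :=
  (quotLift_mk _ _ _).trans (free_ι P (i, j))

theorem induction {p : QPerm n → Prop} (h0 : ∀ r : ℂ, p (algebraMap ℂ _ r))
    (h1 : ∀ i j, p (u i j)) (hm : ∀ a b, p a → p b → p (a * b))
    (ha : ∀ a b, p a → p b → p (a + b)) (a : QPerm n) : p a := by
  obtain ⟨x, rfl⟩ := mk_surjective n a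
  induction x using FreeAlgebra.induction with
  | grade0 r => rw [AlgHom.commutes]; exact h0 r
  | grade1 x => exact h1 x.1 x.2
  | mul a b iha ihb => rw [map_mul]; exact hm _ _ iha ihb
  | add a b iha ihb => rw [map_add]; exact ha _ _ iha ihb

theorem hom_ext {f g : QPerm n →ₐ[ℂ] A} (h : ∀ i j, f (u i j) = g (u i j)) : f = g := by
  ext a
  induction a using QPerm.induction with
  | h0 r => rw [AlgHom.commutes, AlgHom.commutes]
  | h1 i j => exact h i j
  | hm a b ha hb => rw [map_mul, map_mul, ha, hb]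
  | ha a b ha hb => rw [map_add, map_add, ha, hb]

end lift

section magics

variable {A B : Type*} [Ring A] [Ring B]

omit [Ring A] [Ring B] in
theorem _root_.Run7.h417.IsMagic.one' {R : Type*} [Ring R] {Λ : Type*} [Fintype Λ]
    [DecidableEq Λ] : IsMagic (fun i j : Λ => if i = j then (1 : R) else 0) where
  idem i j := by split_ifs <;> simp
  row i j k h := by
    by_cases h1 : i = j
    · have : ¬ i = k := fun h2 => h (h1.symm.trans h2)
      rw [if_neg this, mul_zero]
    · rw [if_neg h1, zero_mul]
  col i j k h := by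
    by_cases h1 : j = i
    · have : ¬ k = i := fun h2 => h (h1.trans h2.symm)
      rw [if_neg this, mul_zero]
    · rw [if_neg h1, zero_mul]
  rowsum i := by simp
  colsum j := by simp

theorem _root_.Run7.h417.IsMagic.tensor [Algebra ℂ A] [Algebra ℂ B] {Λ : Type*} [Fintype Λ]
    {P : Λ → Λ → A} {Q : Λ → Λ → B} (hP : IsMagic P) (hQ : IsMagic Q) :
    IsMagic (fun i j => ∑ k, P i k ⊗ₜ[ℂ] Q k j) where
  idem i j := by
    classical
    rw [Finset.sum_mul]
    refine Finset.sum_congr rfl (fun k _ => ?_)
    rw [Finset.mul_sum, Finset.sum_eq_single k]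
    · rw [Algebra.TensorProduct.tmul_mul_tmul, hP.idem, hQ.idem]
    · intro l _ hl
      rw [Algebra.TensorProduct.tmul_mul_tmul, hP.row i k l (Ne.symm hl), TensorProduct.zero_tmul]
    · intro h; exact absurd (Finset.mem_univ _) h
  row i j j' h := by
    classical
    rw [Finset.sum_mul]
    refine Finset.sum_eq_zero (fun k _ => ?_)
    rw [Finset.mul_sum]
    refine Finset.sum_eq_zero (fun l _ => ?_)
    rw [Algebra.TensorProduct.tmul_mul_tmul]
    by_cases hkl : k = l
    · subst hkl; rw [hQ.row k j j' h, TensorProduct.tmul_zero]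
    · rw [hP.row i k l hkl, TensorProduct.zero_tmul]
  col j i i' h := by
    classical
    rw [Finset.sum_mul]
    refine Finset.sum_eq_zero (fun k _ => ?_)
    rw [Finset.mul_sum]
    refine Finset.sum_eq_zero (fun l _ => ?_)
    rw [Algebra.TensorProduct.tmul_mul_tmul]
    by_cases hkl : k = l
    · subst hkl; rw [hP.col k i i' h, TensorProduct.zero_tmul]
    · rw [hQ.col j k l hkl, TensorProduct.tmul_zero]
  rowsum i := by
    rw [Finset.sum_comm]
    simp only [← TensorProduct.tmul_sum, hQ.rowsum, ← TensorProduct.sum_tmul, hP.rowsum]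
    rfl
  colsum j := by
    rw [Finset.sum_comm]
    simp only [← TensorProduct.sum_tmul, hP.colsum, ← TensorProduct.tmul_sum, hQ.colsum]
    rfl

theorem _root_.Run7.h417.IsMagic.op {Λ : Type*} [Fintype Λ] {P : Λ → Λ → A} (hP : IsMagic P) :
    IsMagic (fun i j => MulOpposite.op (P i j)) where
  idem i j := by rw [← MulOpposite.op_mul, hP.idem]
  row i j k h := by rw [← MulOpposite.op_mul, hP.row i k j (Ne.symm h), MulOpposite.op_zero]
  col i j k h := by rw [← MulOpposite.op_mul, hP.col i k j (Ne.symm h), MulOpposite.op_zero]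
  rowsum i := by rw [← Finset.op_sum, hP.rowsum, MulOpposite.op_one]
  colsum j := by rw [← Finset.op_sum, hP.colsum, MulOpposite.op_one]

theorem _root_.Run7.h417.IsMagic.transpose {Λ : Type*} [Fintype Λ] {P : Λ → Λ → A}
    (hP : IsMagic P) : IsMagic (fun i j => P j i) where
  idem i j := hP.idem j i
  row i j k h := hP.col i j k h
  col i j k h := hP.row i j k h
  rowsum i := hP.colsum i
  colsum j := hP.rowsum j

end magics

/-! ### The bialgebra structure -/

/-- comultiplication -/
noncomputable def comulHom (n : ℕ) : QPerm n →ₐ[ℂ] QPerm n ⊗[ℂ] QPerm n :=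
  lift (fun i j => ∑ k, u i k ⊗ₜ[ℂ] u k j) (u_magic.tensor u_magic)

theorem comulHom_u (i j : Fin n) : comulHom n (u i j) = ∑ k, u i k ⊗ₜ[ℂ] u k j := lift_u _ _ i j

/-- counit -/
noncomputable def counitHom (n : ℕ) : QPerm n →ₐ[ℂ] ℂ :=
  lift (fun i j => if i = j then (1 : ℂ) else 0) IsMagic.one'

theorem counitHom_u (i j : Fin n) : counitHom n (u i j) = if i = j then 1 else 0 := lift_u _ _ i j

theorem coassoc_aux : Coassoc (comulHom n) := by
  unfold Coassoc
  apply hom_ext
  intro i j
  simp only [AlgHom.coe_comp, Function.comp_apply, comulHom_u, map_sum,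
    Algebra.TensorProduct.map_tmul, TensorProduct.sum_tmul, TensorProduct.tmul_sum]
  rw [Finset.sum_comm]
  simp

theorem rTensor_aux : CounitLeft (comulHom n) (counitHom n) := by
  unfold CounitLeft
  apply hom_ext
  intro i j
  simp only [AlgHom.coe_comp, Function.comp_apply, comulHom_u, map_sum,
    Algebra.TensorProduct.map_tmul, counitHom_u]
  simp [TensorProduct.ite_tmul]

theorem lTensor_aux : CounitRight (comulHom n) (counitHom n) := by
  unfold CounitRight
  apply hom_ext
  intro i j
  simp only [AlgHom.coe_comp, Function.comp_apply, comulHom_u, map_sum,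
    Algebra.TensorProduct.map_tmul, counitHom_u]
  simp [TensorProduct.tmul_ite]

/-- The bialgebra structure of the quantum permutation algebra, with
`Δ (u i j) = ∑ k, u i k ⊗ u k j` and `ε (u i j) = δ i j`. -/
noncomputable instance : Bialgebra ℂ (QPerm n) :=
  mkBialgebra (comulHom n) (counitHom n) coassoc_aux rTensor_aux lTensor_aux

theorem comul_u (i j : Fin n) :
    Coalgebra.comul (R := ℂ) (u i j) = ∑ k, u i k ⊗ₜ[ℂ] u k j := comulHom_u i j

theorem counit_u (i j : Fin n) :
    Coalgebra.counit (R := ℂ) (u i j) = if i = j then 1 else 0 := counitHom_u i j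

/-! ### The antipode -/

/-- the antipode as a homomorphism to the opposite algebra -/
noncomputable def antiHom (n : ℕ) : QPerm n →ₐ[ℂ] (QPerm n)ᵐᵒᵖ :=
  lift (fun i j => MulOpposite.op (u j i)) u_magic.transpose.op

/-- the antipode -/
noncomputable def anti (n : ℕ) : QPerm n →ₗ[ℂ] QPerm n := ofOp (antiHom n)

theorem anti_apply (a : QPerm n) : anti n a = MulOpposite.unop (antiHom n a) := rfl

theorem anti_u (i j : Fin n) : anti n (u i j) = u j i := by
  rw [anti_apply, antiHom, lift_u]; rfl

theorem anti_mul (a b : QPerm n) : anti n (a * b) = anti n b * anti n a := by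
  rw [anti_apply, map_mul]; rfl

theorem anti_one : anti n 1 = 1 := by
  rw [anti_apply, map_one]; rfl

theorem anti_left (s t : QPerm n ⊗[ℂ] QPerm n) (c : ℂ)
    (h : LinearMap.mul' ℂ (QPerm n) ((anti n).rTensor _ s) = algebraMap ℂ _ c) :
    LinearMap.mul' ℂ (QPerm n) ((anti n).rTensor _ (s * t)) =
      c • LinearMap.mul' ℂ (QPerm n) ((anti n).rTensor _ t) := by
  induction t with
  | zero => simp
  | tmul z w =>
    have key : ∀ s : QPerm n ⊗[ℂ] QPerm n,
        LinearMap.mul' ℂ (QPerm n) ((anti n).rTensor _ (s * (z ⊗ₜ w))) =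
          anti n z * LinearMap.mul' ℂ (QPerm n) ((anti n).rTensor _ s) * w := by
      intro s
      induction s with
      | zero => simp
      | tmul x y =>
        simp only [Algebra.TensorProduct.tmul_mul_tmul, LinearMap.rTensor_tmul,
          LinearMap.mul'_apply, anti_mul, mul_assoc]
      | add a b ha hb => rw [add_mul, map_add, map_add, ha, hb, map_add, map_add, mul_add, add_mul]
    rw [key, h, LinearMap.rTensor_tmul, LinearMap.mul'_apply, ← Algebra.commutes, mul_assoc,
      Algebra.smul_def]
  | add a b ha hb => rw [mul_add, map_add, map_add, ha, hb, map_add, map_add, smul_add]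

theorem anti_right (s t : QPerm n ⊗[ℂ] QPerm n) (c : ℂ)
    (h : LinearMap.mul' ℂ (QPerm n) ((anti n).lTensor _ t) = algebraMap ℂ _ c) :
    LinearMap.mul' ℂ (QPerm n) ((anti n).lTensor _ (s * t)) =
      c • LinearMap.mul' ℂ (QPerm n) ((anti n).lTensor _ s) := by
  induction s with
  | zero => simp
  | tmul x y =>
    have key : ∀ t : QPerm n ⊗[ℂ] QPerm n,
        LinearMap.mul' ℂ (QPerm n) ((anti n).lTensor _ ((x ⊗ₜ y) * t)) =
          x * LinearMap.mul' ℂ (QPerm n) ((anti n).lTensor _ t) * anti n y := by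
      intro t
      induction t with
      | zero => simp
      | tmul z w =>
        simp only [Algebra.TensorProduct.tmul_mul_tmul, LinearMap.lTensor_tmul,
          LinearMap.mul'_apply, anti_mul, mul_assoc]
      | add a b ha hb => rw [mul_add, map_add, map_add, ha, hb, map_add, map_add, mul_add, add_mul]
    rw [key, h, LinearMap.lTensor_tmul, LinearMap.mul'_apply, ← Algebra.commutes, mul_assoc,
      Algebra.smul_def]
  | add a b ha hb => rw [add_mul, map_add, map_add, ha, hb, map_add, map_add, smul_add]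

theorem anti_left_comul : AntipodeLeft (anti n) := by
  intro a
  induction a using QPerm.induction with
  | h0 r =>
    rw [Bialgebra.comul_algebraMap, Bialgebra.counit_algebraMap,
      Algebra.TensorProduct.algebraMap_apply, LinearMap.rTensor_tmul, LinearMap.mul'_apply, mul_one,
      Algebra.algebraMap_eq_smul_one, map_smul, anti_one]
  | h1 i j =>
    rw [comul_u, counit_u, map_sum, map_sum]
    simp only [LinearMap.rTensor_tmul, LinearMap.mul'_apply, anti_u]
    by_cases h : i = j
    · subst h
      simp only [u_magic.idem, u_magic.colsum, if_pos, map_one]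
    · rw [if_neg h, map_zero]
      exact Finset.sum_eq_zero (fun k _ => u_magic.row k i j h)
  | hm a b ha hb =>
    rw [Bialgebra.comul_mul, anti_left _ _ _ ha, hb, Bialgebra.counit_mul, map_mul,
      Algebra.smul_def]
  | ha a b ha hb => rw [map_add, map_add, map_add, ha, hb, map_add, map_add]

theorem anti_right_comul : AntipodeRight (anti n) := by
  intro a
  induction a using QPerm.induction with
  | h0 r =>
    rw [Bialgebra.comul_algebraMap, Bialgebra.counit_algebraMap,
      Algebra.TensorProduct.algebraMap_apply, LinearMap.lTensor_tmul, LinearMap.mul'_apply,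
      anti_one, mul_one]
  | h1 i j =>
    rw [comul_u, counit_u, map_sum, map_sum]
    simp only [LinearMap.lTensor_tmul, LinearMap.mul'_apply, anti_u]
    by_cases h : i = j
    · subst h
      simp only [u_magic.idem, u_magic.rowsum, if_pos, map_one]
    · rw [if_neg h, map_zero]
      exact Finset.sum_eq_zero (fun k _ => u_magic.col k i j h)
  | hm a b ha hb =>
    rw [Bialgebra.comul_mul, anti_right _ _ _ hb, ha, Bialgebra.counit_mul, map_mul,
      Algebra.smul_def, Algebra.commutes]
  | ha a b ha hb => rw [map_add, map_add, map_add, ha, hb, map_add, map_add]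

/-- The Hopf algebra structure of the quantum permutation algebra; the antipode maps
`u i j` to `u j i`. -/
noncomputable instance : HopfAlgebra ℂ (QPerm n) :=
  mkHopfAlgebra (anti n) anti_left_comul anti_right_comul

theorem antipode_u (i j : Fin n) : HopfAlgebra.antipode ℂ (u i j) = u j i := anti_u i j

end QPerm

end Run7.h417
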