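import Pool.Agent.Run7.h417.Decomp

/-!
The quadratic function attached to a fixed function, and reversal.
-/

namespace Run7.h417

set_option linter.unusedSectionVars false

section quad

variable {Λ : Type*} [Fintype Λ] [DecidableEq Λ] {𝕜 R : Type*} [CommRing 𝕜] [Ring R] [Algebra 𝕜 R]

/-- the quadratic function: contraction of two copies of `F` along the last `q` letters -/
def quad (p q : ℕ) (F : List Λ → 𝕜) : List Λ → 𝕜 :=
  fun z => wsum q (fun w => F (z.take p ++ w) * F ((z.drop p).reverse ++ w))

theorem quad_apply {p q : ℕ} (F : List Λ → 𝕜) {u v : List Λ} (hu : u.length = p) :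
    quad p q F (u ++ v) = wsum q (fun w => F (u ++ w) * F (v.reverse ++ w)) := by
  subst hu
  simp [quad]

theorem mon_inv {P : Λ → Λ → R} (hP : IsMagic P) (q : ℕ) : ∀ w w' : List Λ, w.length = q →
    w'.length = q → wsum q (fun x => mon P x w' * mon P x.reverse w.reverse) =
      if w' = w then 1 else 0 := by
  induction q with
  | zero =>
    intro w w' hw hw'
    obtain rfl := List.length_eq_zero_iff.mp hw
    obtain rfl := List.length_eq_zero_iff.mp hw'
    simp
  | succ q ih =>
    intro w w' hw hw'
    cases w with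
    | nil => simp at hw
    | cons b w =>
    cases w' with
    | nil => simp at hw'
    | cons a w' =>
    simp only [List.length_cons, Nat.add_right_cancel_iff] at hw hw'
    rw [wsum_succ]
    have h1 : ∀ i, wsum q (fun x => mon P (i :: x) (a :: w') *
        mon P (i :: x).reverse (b :: w).reverse) =
        P i a * (if w' = w then 1 else 0) * P i b := by
      intro i
      rw [← ih w w' hw hw', ← wsum_mul_left, ← wsum_mul_right]
      refine wsum_congr _ (fun x hx => ?_)
      rw [mon_cons, List.reverse_cons, List.reverse_cons, mon_append P _ _ _ _ (by simp; omega)]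
      simp [mul_assoc]
    rw [Finset.sum_congr rfl (fun i _ => h1 i)]
    by_cases h : w' = w
    · subst h
      simp only [if_true, mul_one]
      by_cases hab : a = b
      · subst hab
        simp only [hP.idem]
        rw [if_pos trivial]
        exact hP.colsum a
      · rw [if_neg (by simpa using hab)]
        exact Finset.sum_eq_zero (fun i _ => hP.row i a b hab)
    · rw [if_neg h, if_neg (show ¬ (a :: w' = b :: w) by simp [h])]
      simp

theorem FixedBy.half {P : Λ → Λ → R} (hP : IsMagic P) {p q : ℕ} {F : List Λ → 𝕜}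
    (hF : FixedBy P (p+q) F) {i1 w : List Λ} (hi : i1.length = p) (hw : w.length = q) :
    wsum p (fun j1 => F (j1 ++ w) • mon P i1 j1) =
      wsum q (fun x => F (i1 ++ x) • mon P x.reverse w.reverse) := by
  have h1 : ∀ x : List Λ, x.length = q → F (i1 ++ x) • mon P x.reverse w.reverse =
      wsum q (fun w' => wsum p (fun j1 => F (j1 ++ w') •
        (mon P i1 j1 * (mon P x w' * mon P x.reverse w.reverse)))) := by
    intro x hx
    have e := hF (i1 ++ x) (by simp; omega)
    have : F (i1 ++ x) • mon P x.reverse w.reverse =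
        (F (i1 ++ x) • (1 : R)) * mon P x.reverse w.reverse := by simp
    rw [this, ← e, wsum_append, ← wsum_mul_right, wsum_comm q p]
    refine wsum_congr _ (fun j1 hj1 => ?_)
    rw [← wsum_mul_right]
    refine wsum_congr _ (fun w' hw' => ?_)
    rw [mon_append P _ _ _ _ (by omega), smul_mul_assoc, mul_assoc]
  rw [wsum_congr q h1, wsum_comm]
  have h2 : ∀ w' : List Λ, w'.length = q → wsum q (fun x => wsum p (fun j1 => F (j1 ++ w') •
        (mon P i1 j1 * (mon P x w' * mon P x.reverse w.reverse)))) =
      wsum p (fun j1 => F (j1 ++ w') • (mon P i1 j1 * (if w' = w then 1 else 0))) := by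
    intro w' hw'
    rw [wsum_comm]
    refine wsum_congr _ (fun j1 hj1 => ?_)
    rw [wsum_smul, wsum_mul_left, mon_inv hP q w w' hw hw']
  rw [wsum_congr q h2]
  obtain ⟨v, rfl⟩ := exists_ofFn hw
  rw [wsum_eq_sum q, Finset.sum_eq_single v]
  · refine wsum_congr _ (fun j1 _ => ?_)
    rw [if_pos rfl, mul_one]
  · intro v' _ hv'
    refine wsum_eq_zero _ (fun j1 _ => ?_)
    rw [if_neg (by simpa using hv'), mul_zero, smul_zero]
  · intro hh; exact absurd (Finset.mem_univ _) hh

theorem FixedBy.quadr {P : Λ → Λ → R} (hP : IsMagic P) {p q : ℕ} {F : List Λ → 𝕜}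
    (hF : FixedBy P (p+q) F) (hF' : FixedBy P (p+q) (fun w => F w.reverse)) :
    FixedBy P (p+p) (quad p q F) := by
  intro i hi
  obtain ⟨i1, i2, h1, h2⟩ : ∃ i1 i2 : List Λ, i1.length = p ∧ i = i1 ++ i2 :=
    ⟨i.take p, i.drop p, by simp; omega, by simp⟩
  have h3 : i2.length = p := by
    have := congrArg List.length h2
    simp at this; omega
  rw [h2, wsum_append, quad_apply F h1]
  have e1 : ∀ j1 : List Λ, j1.length = p → wsum p (fun j2 => quad p q F (j1 ++ j2) •
      mon P (i1 ++ i2) (j1 ++ j2)) = wsum q (fun w => wsum p (fun j2 =>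
        (F (j1 ++ w) • mon P i1 j1) * (F (j2.reverse ++ w) • mon P i2 j2))) := by
    intro j1 hj1
    rw [wsum_comm q p]
    refine wsum_congr _ (fun j2 hj2 => ?_)
    rw [quad_apply F hj1, mon_append P _ _ _ _ (by omega), ← wsum_smul_right]
    refine wsum_congr _ (fun w hw => ?_)
    rw [smul_mul_smul_comm]
  rw [wsum_congr p e1, wsum_comm]
  have e2 : ∀ w : List Λ, w.length = q → wsum p (fun j1 => wsum p (fun j2 =>
        (F (j1 ++ w) • mon P i1 j1) * (F (j2.reverse ++ w) • mon P i2 j2))) =
      wsum q (fun x => F (i1 ++ x) • wsum p (fun j2 => F (j2.reverse ++ w) •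
        mon P (x.reverse ++ i2) (w.reverse ++ j2))) := by
    intro w hw
    rw [wsum_comm]
    have : ∀ j2 : List Λ, j2.length = p → wsum p (fun j1 =>
        (F (j1 ++ w) • mon P i1 j1) * (F (j2.reverse ++ w) • mon P i2 j2)) =
        wsum q (fun x => F (i1 ++ x) • (F (j2.reverse ++ w) •
          mon P (x.reverse ++ i2) (w.reverse ++ j2))) := by
      intro j2 hj2
      rw [wsum_mul_right, hF.half hP h1 hw, ← wsum_mul_right]
      refine wsum_congr _ (fun x hx => ?_)
      rw [mon_append P _ _ _ _ (by simp; omega), smul_mul_assoc, mul_smul_comm]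
    rw [wsum_congr p this, wsum_comm]
    refine wsum_congr _ (fun x hx => ?_)
    rw [wsum_smul]
  rw [wsum_congr q e2, wsum_comm, ← wsum_smul_right]
  refine wsum_congr _ (fun x hx => ?_)
  rw [wsum_smul, mul_smul]
  congr 1
  have e3 := hF' (x.reverse ++ i2) (by simp; omega)
  simp only [List.reverse_append, List.reverse_reverse] at e3
  rw [← e3, add_comm p q, wsum_append, ← wsum_reverse q]
  refine wsum_congr _ (fun w hw => wsum_congr _ (fun j2 hj2 => ?_))
  rw [List.reverse_reverse, List.reverse_append]

end quad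

section transfer

variable {Λ : Type*} [Fintype Λ] [DecidableEq Λ] {𝕜 R R' : Type*} [CommRing 𝕜] [Ring R]
  [Algebra 𝕜 R] [Ring R'] [Algebra 𝕜 R']

theorem mon_anti (θ : R → R') (h1 : θ 1 = 1) (hm : ∀ a b, θ (a * b) = θ b * θ a)
    (P : Λ → Λ → R) : ∀ i j : List Λ, i.length = j.length →
      mon (fun a b => θ (P a b)) i.reverse j.reverse = θ (mon P i j)
  | [], [], _ => by simp [h1]
  | (i :: is), (j :: js), h => by
    rw [mon_cons, hm, ← mon_anti θ h1 hm P is js (by simpa using h), List.reverse_cons,
      List.reverse_cons, mon_append _ _ _ _ _ (by simpa using h)]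
    simp
  | [], (_ :: _), h => by simp at h
  | (_ :: _), [], h => by simp at h

theorem FixedBy.anti (θ : R →ₗ[𝕜] R') (h1 : θ 1 = 1) (hm : ∀ a b, θ (a * b) = θ b * θ a)
    {P : Λ → Λ → R} {k : ℕ} {F : List Λ → 𝕜} (hF : FixedBy P k F) :
    FixedBy (fun a b => θ (P a b)) k (fun w => F w.reverse) := by
  intro i hi
  have e := congrArg θ (hF i.reverse (by simpa using hi))
  rw [map_smul, h1, map_wsum] at e
  rw [← e, ← wsum_reverse k]
  refine wsum_congr _ (fun j hj => ?_)
  simp only [List.reverse_reverse]
  rw [map_smul, ← mon_anti θ h1 hm P _ _ (by simp; omega), List.reverse_reverse]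

theorem mon_map (φ : R →+* R') (P : Λ → Λ → R) : ∀ i j : List Λ,
      mon (fun a b => φ (P a b)) i j = φ (mon P i j)
  | [], [] => by simp
  | (i :: is), (j :: js) => by
    rw [mon_cons, mon_cons, map_mul, mon_map φ P is js]
  | [], (_ :: _) => by simp [mon]
  | (_ :: _), [] => by simp [mon]

theorem FixedBy.map (φ : R →ₐ[𝕜] R') {P : Λ → Λ → R} {k : ℕ} {F : List Λ → 𝕜}
    (hF : FixedBy P k F) : FixedBy (fun a b => φ (P a b)) k F := by
  intro i hi
  have e := congrArg φ (hF i hi)
  rw [map_smul, map_one, map_wsum] at e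
  rw [← e]
  refine wsum_congr _ (fun j hj => ?_)
  rw [map_smul]
  congr 1
  exact mon_map (φ : R →+* R') P i j

theorem mon_shift (g : Λ → Λ) (P : Λ → Λ → R) : ∀ i j : List Λ,
      mon (fun a b => P (g a) b) i j = mon P (i.map g) j
  | [], [] => by simp
  | (i :: is), (j :: js) => by
    rw [mon_cons, List.map_cons, mon_cons, mon_shift g P is js]
  | [], (_ :: _) => by simp [mon]
  | (_ :: _), [] => by simp [mon]

theorem FixedBy.shift (g : Λ → Λ) {P : Λ → Λ → R} {k : ℕ} {F : List Λ → 𝕜}
    (hF : FixedBy P k F) (hg : ∀ w : List Λ, w.length = k → F (w.map g) = F w) :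
    FixedBy (fun a b => P (g a) b) k F := by
  intro i hi
  have e := hF (i.map g) (by simpa using hi)
  rw [hg i hi] at e
  rw [← e]
  refine wsum_congr _ (fun j hj => ?_)
  rw [mon_shift]

theorem mon_symm {P : Λ → Λ → R} (h : ∀ i j, P i j = P j i) : ∀ i j : List Λ,
      mon P i j = mon P j i
  | [], [] => by simp
  | (i :: is), (j :: js) => by
    rw [mon_cons, mon_cons, mon_symm h is js, h]
  | [], (_ :: _) => by simp [mon]
  | (_ :: _), [] => by simp [mon]

end transfer

end Run7.h417
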