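import Pool.Agent.Run7.h417.Main4

/-!
At most three letters: permutation invariant functions are noncrossing.
-/

namespace Run7.h417

set_option linter.unusedSectionVars false

/-- functions invariant under a set of permutations -/
def PInv {Λ : Type*} (G : Set (Equiv.Perm Λ)) (k : ℕ) (F : List Λ → ℝ) : Prop :=
  ∀ g ∈ G, ∀ w : List Λ, w.length = k → F (w.map g) = F w

theorem PInv.good {Λ : Type*} [Fintype Λ] [DecidableEq Λ] (G : Set (Equiv.Perm Λ)) :
    Good (PInv G) where
  tt k F hF := fun g _ => hF.perm g
  sub k F F' hF hF' := fun g hg w hw => by simp only [hF g hg w hw, hF' g hg w hw]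
  congr k F F' hF h := fun g hg w hw => by
      rw [← h w hw, ← h _ (by simpa using hw), hF g hg w hw]
  capS k j F hj hF := by
    refine fun g hg w hw => ?_
    unfold capS
    rw [← Equiv.sum_comp g]
    refine Finset.sum_congr rfl (fun i _ => ?_)
    have := hF g hg (w.take j ++ i :: w.drop j) (by simp; omega)
    simpa [List.map_take, List.map_drop] using this
  capD k j F hj hF := by
    refine fun g hg w hw => ?_
    unfold capD
    have := hF g hg (w.take (j+1) ++ w.drop j) (by simp; omega)
    simpa [List.map_take, List.map_drop] using this

theorem small0 (k : ℕ) (F : List (Fin 0) → ℝ) (hF : PInv Set.univ k F) : TT k F := by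
  revert k F
  apply TT_of_capless (PInv.good _)
  intro k _ F _ _ w hw
  cases w with
  | nil => simp at hw
  | cons i w => exact i.elim0

theorem small1 (k : ℕ) (F : List (Fin 1) → ℝ) (hF : PInv Set.univ k F) : TT k F := by
  revert k F
  apply TT_of_capless (PInv.good _)
  intro k _ F _ hc w hw
  cases w with
  | nil => simp at hw
  | cons i w =>
    have := hc.1 [] w (by simpa using hw)
    rw [Finset.univ_unique, Finset.sum_singleton] at this
    rw [Subsingleton.elim i default]
    exact this

theorem small2 (k : ℕ) (F : List (Fin 2) → ℝ) (hF : PInv Set.univ k F) : TT k F := by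
  revert k F
  apply TT_of_capless (PInv.good _)
  intro k _ F hF hc w hw
  cases w with
  | nil => simp at hw
  | cons i w =>
    cases w with
    | nil =>
      have h1 := hc.1 [] [] (by simpa using hw)
      rw [Fin.sum_univ_two] at h1
      have h2 := hF (Equiv.swap 0 1) (Set.mem_univ _) [0] (by simpa using hw)
      simp only [List.nil_append] at h1
      simp only [List.map_cons, List.map_nil, Equiv.swap_apply_left] at h2
      fin_cases i
      · simp only [Fin.zero_eta, Fin.isValue]; linarith
      · simp only [Fin.mk_one, Fin.isValue]; linarith
    | cons j w =>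
      have h1 := hc.1 [] (j :: w) (by simpa using hw)
      have h2 := hc.2 [] j w (by simpa using hw)
      rw [Fin.sum_univ_two] at h1
      simp only [List.nil_append] at h1 h2
      fin_cases i <;> fin_cases j <;>
        simp only [Fin.zero_eta, Fin.mk_one, Fin.isValue] at * <;> linarith

theorem small3 (k : ℕ) (F : List (Fin 3) → ℝ) (hF : PInv Set.univ k F) : TT k F := by
  revert k F
  apply TT_of_capless (PInv.good _)
  intro k _ F hF hc w hw
  cases w with
  | nil => simp at hw
  | cons i w =>
    cases w with
    | nil =>
      have h1 := hc.1 [] [] (by simpa using hw)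
      rw [Fin.sum_univ_three] at h1
      have h2 := hF (Equiv.swap 0 1) (Set.mem_univ _) [0] (by simpa using hw)
      have h3 := hF (Equiv.swap 0 2) (Set.mem_univ _) [0] (by simpa using hw)
      simp only [List.nil_append] at h1
      simp only [List.map_cons, List.map_nil, Equiv.swap_apply_left] at h2 h3
      fin_cases i
      · simp only [Fin.zero_eta, Fin.isValue]; linarith
      · simp only [Fin.mk_one, Fin.isValue]; linarith
      · simp only [Fin.reduceFinMk, Fin.isValue]; linarith
    | cons j w =>
      cases w with
      | nil =>
        have h1 := hc.1 [i] [] (by simpa using hw)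
        have h2 := hc.2 [] i [] (by simpa using hw)
        rw [Fin.sum_univ_three] at h1
        have e1 := hF (Equiv.swap 1 2) (Set.mem_univ _) [0, 1] (by simpa using hw)
        have e2 := hF (Equiv.swap 0 2) (Set.mem_univ _) [1, 0] (by simpa using hw)
        have e3 := hF (Equiv.swap 0 1) (Set.mem_univ _) [2, 0] (by simpa using hw)
        have s1 : (Equiv.swap (1 : Fin 3) 2) 0 = 0 := by decide
        have s2 : (Equiv.swap (0 : Fin 3) 2) 1 = 1 := by decide
        have s3 : (Equiv.swap (0 : Fin 3) 1) 2 = 2 := by decide
        simp only [List.map_cons, List.map_nil, Equiv.swap_apply_left, s1, s2, s3] at e1 e2 e3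
        simp only [List.nil_append, List.cons_append] at h1 h2
        fin_cases i <;> fin_cases j <;>
          simp only [Fin.zero_eta, Fin.mk_one, Fin.isValue, Fin.reduceFinMk] at * <;> linarith
      | cons l w =>
        have h1 : ∀ x z : Fin 3, F (x :: 0 :: z :: w) + F (x :: 1 :: z :: w) +
            F (x :: 2 :: z :: w) = 0 := by
          intro x z
          have := hc.1 [x] (z :: w) (by simp at hw ⊢; omega)
          rw [Fin.sum_univ_three] at this
          simpa using this
        have h2 : ∀ x y : Fin 3, F (x :: y :: 0 :: w) + F (x :: y :: 1 :: w) +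
            F (x :: y :: 2 :: w) = 0 := by
          intro x y
          have := hc.1 [x, y] w (by simp at hw ⊢; omega)
          rw [Fin.sum_univ_three] at this
          simpa using this
        have h3 : ∀ x y : Fin 3, F (x :: x :: y :: w) = 0 := by
          intro x y
          have := hc.2 [] x (y :: w) (by simp at hw ⊢; omega)
          simpa using this
        have h4 : ∀ x y : Fin 3, F (x :: y :: y :: w) = 0 := by
          intro x y
          have := hc.2 [x] y w (by simp at hw ⊢; omega)
          simpa using this
        have a1 := h1 0 1
        have a2 := h1 0 2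
        have a3 := h1 1 0
        have a4 := h1 1 2
        have a5 := h1 2 0
        have a6 := h1 2 1
        have b1 := h2 0 1
        have b2 := h2 0 2
        have b3 := h2 1 0
        have b4 := h2 1 2
        have b5 := h2 2 0
        have b6 := h2 2 1
        simp only [h3, h4] at a1 a2 a3 a4 a5 a6 b1 b2 b3 b4 b5 b6
        fin_cases i <;> fin_cases j <;> fin_cases l <;>
          simp only [Fin.zero_eta, Fin.mk_one, Fin.isValue, Fin.reduceFinMk, h3, h4] <;> linarith

end Run7.h417
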