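import Mathlib

/-!
Sums over words of a fixed length.
-/

namespace Run7.h417

section sums

variable {Λ : Type*} [Fintype Λ] {M : Type*} [AddCommMonoid M]

/-- `wsum q f` is the sum of `f w` over all words `w` of length `q`. -/
def wsum : ℕ → (List Λ → M) → M
  | 0, f => f []
  | (q+1), f => ∑ i, wsum q (fun w => f (i :: w))

@[simp] theorem wsum_zero' (f : List Λ → M) : wsum 0 f = f [] := rfl

theorem wsum_succ (q : ℕ) (f : List Λ → M) :
    wsum (q+1) f = ∑ i, wsum q (fun w => f (i :: w)) := rfl

theorem wsum_eq_sum (q : ℕ) (f : List Λ → M) :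
    wsum q f = ∑ w : Fin q → Λ, f (List.ofFn w) := by
  induction q generalizing f with
  | zero => simp [wsum]
  | succ q ih =>
    rw [wsum_succ]
    simp_rw [ih]
    rw [← Fintype.sum_prod_type']
    refine Fintype.sum_equiv (Fin.consEquiv (fun _ => Λ)) _ _ ?_
    rintro ⟨i, w⟩
    simp [Fin.consEquiv, List.ofFn_succ]

theorem wsum_congr (q : ℕ) {f g : List Λ → M} (h : ∀ w : List Λ, w.length = q → f w = g w) :
    wsum q f = wsum q g := by
  rw [wsum_eq_sum, wsum_eq_sum]
  exact Finset.sum_congr rfl (fun w _ => h _ (by simp))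

theorem wsum_zero (q : ℕ) : wsum q (fun _ : List Λ => (0 : M)) = 0 := by
  rw [wsum_eq_sum]; simp

theorem wsum_eq_zero (q : ℕ) {f : List Λ → M} (h : ∀ w : List Λ, w.length = q → f w = 0) :
    wsum q f = 0 := by
  rw [wsum_congr q h, wsum_zero]

theorem wsum_add (q : ℕ) (f g : List Λ → M) :
    wsum q (fun w => f w + g w) = wsum q f + wsum q g := by
  simp only [wsum_eq_sum, Finset.sum_add_distrib]

theorem wsum_comm {Λ' : Type*} [Fintype Λ'] (p q : ℕ) (f : List Λ → List Λ' → M) :
    wsum p (fun u => wsum q (fun w => f u w)) = wsum q (fun w => wsum p (fun u => f u w)) := by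
  simp only [wsum_eq_sum]
  exact Finset.sum_comm

theorem wsum_sum_comm {ι : Type*} (s : Finset ι) (q : ℕ) (f : ι → List Λ → M) :
    wsum q (fun w => ∑ i ∈ s, f i w) = ∑ i ∈ s, wsum q (f i) := by
  simp only [wsum_eq_sum]
  exact Finset.sum_comm

theorem wsum_append (p q : ℕ) (f : List Λ → M) :
    wsum (p + q) f = wsum p (fun u => wsum q (fun v => f (u ++ v))) := by
  induction p generalizing f with
  | zero => simp
  | succ p ih =>
    rw [Nat.succ_add, wsum_succ, wsum_succ]
    refine Finset.sum_congr rfl (fun i _ => ?_)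
    rw [ih]
    rfl

theorem wsum_snoc (q : ℕ) (f : List Λ → M) :
    wsum (q+1) f = ∑ i, wsum q (fun w => f (w ++ [i])) := by
  rw [wsum_append]
  simp only [wsum_succ, wsum_zero']
  rw [wsum_sum_comm]

theorem wsum_reverse (q : ℕ) (f : List Λ → M) :
    wsum q (fun w => f w.reverse) = wsum q f := by
  induction q generalizing f with
  | zero => simp
  | succ q ih =>
    rw [wsum_snoc, wsum_succ]
    refine Finset.sum_congr rfl (fun i _ => ?_)
    simp only [List.reverse_append, List.reverse_cons, List.reverse_nil, List.nil_append,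
      List.singleton_append]
    exact ih (fun w => f (i :: w))

theorem wsum_map (e : Λ ≃ Λ) (q : ℕ) (f : List Λ → M) :
    wsum q (fun w => f (w.map e)) = wsum q f := by
  induction q generalizing f with
  | zero => simp
  | succ q ih =>
    rw [wsum_succ, wsum_succ, ← Equiv.sum_comp e (fun i => wsum q (fun w => f (i :: w)))]
    refine Finset.sum_congr rfl (fun i _ => ?_)
    simp only [List.map_cons]
    exact ih (fun w => f (e i :: w))

theorem map_wsum {M' F : Type*} [AddCommMonoid M'] [FunLike F M M'] [AddMonoidHomClass F M M']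
    (g : F) (q : ℕ) (f : List Λ → M) : g (wsum q f) = wsum q (fun w => g (f w)) := by
  simp only [wsum_eq_sum, map_sum]

end sums

section ring

variable {Λ : Type*} [Fintype Λ]

theorem wsum_mul_left {R : Type*} [NonUnitalNonAssocSemiring R] (q : ℕ) (c : R)
    (f : List Λ → R) : wsum q (fun w => c * f w) = c * wsum q f := by
  simp only [wsum_eq_sum, Finset.mul_sum]

theorem wsum_mul_right {R : Type*} [NonUnitalNonAssocSemiring R] (q : ℕ) (c : R)
    (f : List Λ → R) : wsum q (fun w => f w * c) = wsum q f * c := by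
  simp only [wsum_eq_sum, Finset.sum_mul]

theorem wsum_sub {M : Type*} [AddCommGroup M] (q : ℕ) (f g : List Λ → M) :
    wsum q (fun w => f w - g w) = wsum q f - wsum q g := by
  simp only [wsum_eq_sum, Finset.sum_sub_distrib]

theorem wsum_neg {M : Type*} [AddCommGroup M] (q : ℕ) (f : List Λ → M) :
    wsum q (fun w => - f w) = - wsum q f := by
  simp only [wsum_eq_sum, Finset.sum_neg_distrib]

theorem wsum_smul {R M : Type*} [AddCommMonoid M] [DistribSMul R M] (q : ℕ) (c : R)
    (f : List Λ → M) : wsum q (fun w => c • f w) = c • wsum q f := by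
  simp only [wsum_eq_sum, Finset.smul_sum]

theorem wsum_smul_right {R M : Type*} [Semiring R] [AddCommMonoid M] [Module R M] (q : ℕ) (c : M)
    (f : List Λ → R) : wsum q (fun w => f w • c) = wsum q f • c := by
  simp only [wsum_eq_sum, Finset.sum_smul]

theorem wsum_nonneg (q : ℕ) {f : List Λ → ℝ} (h : ∀ w : List Λ, w.length = q → 0 ≤ f w) :
    0 ≤ wsum q f := by
  rw [wsum_eq_sum]
  exact Finset.sum_nonneg (fun w _ => h _ (by simp))

theorem eq_zero_of_wsum_eq_zero (q : ℕ) {f : List Λ → ℝ}
    (h : ∀ w : List Λ, w.length = q → 0 ≤ f w) (h0 : wsum q f = 0) :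
    ∀ w : List Λ, w.length = q → f w = 0 := by
  rw [wsum_eq_sum, Finset.sum_eq_zero_iff_of_nonneg (fun w _ => h _ (by simp))] at h0
  intro w hw
  subst hw
  have := h0 (fun i => w.get i) (Finset.mem_univ _)
  simpa using this

theorem eq_zero_of_wsum_sq (q : ℕ) {f : List Λ → ℝ} (h0 : wsum q (fun w => f w * f w) = 0) :
    ∀ w : List Λ, w.length = q → f w = 0 := by
  intro w hw
  have := eq_zero_of_wsum_eq_zero q (fun w _ => mul_self_nonneg (f w)) h0 w hw
  exact mul_self_eq_zero.mp this

end ring

end Run7.h417
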